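import Pool.Agent.Helper2.DC18
import Pool.Agent.Helper1.TuranLimit

/-!
# A constant-factor improvement of de Caen's bound for all complete hypergraphs

For every `k ≥ 3` there is a constant `c > 0`, depending only on `k`, such that for every `m > k`
the Turán density of the complete `k`-graph on `m` vertices satisfies
`π(K_m^k) ≤ 1 - (1 + c) / C(m-1, k-1)`.
-/

namespace Pool.Agent.Helper2.AUniformDeCaen

open Finset Filter Topology Pool.Agent.Helper1.Turan Pool.Agent.Helper2.DC

theorem statement (k : ℕ) (hk : 3 ≤ k) :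
    ∃ c : ℝ, 0 < c ∧ ∀ m : ℕ, k < m →
      Tendsto (fun n : ℕ => (exNum k m n : ℝ) / (n.choose k : ℝ)) atTop
        (𝓝 (turanDensity k m)) ∧
      turanDensity k m ≤ 1 - (1 + c) / ((m - 1).choose (k - 1) : ℝ) := by
  obtain ⟨c, hc, h⟩ := uniform hk
  refine ⟨c, hc, fun m hm => ⟨tendsto_turanDensity hm.le, ?_⟩⟩
  obtain ⟨n0, hn0⟩ := h (m-1) (by omega)
  refine turanDensity_le_of_choose hm.le ?_
  filter_upwards [eventually_ge_atTop (max n0 k)] with n hn G hG hfree
  have hnn0 : n0 ≤ n := (le_max_left _ _).trans hn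
  have hnk : k ≤ n := (le_max_right _ _).trans hn
  set H : Finset (Finset (Fin n)) := powersetCard k univ \ G with hH
  have hGs : G ⊆ powersetCard k (univ : Finset (Fin n)) := fun e he =>
    mem_powersetCard.2 ⟨subset_univ _, hG e he⟩
  have hHr : ∀ e ∈ H, e.card = k := fun e he => (mem_powersetCard.1 (mem_sdiff.1 he).1).2
  have hNI : NI H (m - 1 + 1) = 0 := by
    unfold NI
    have : ind H (m-1+1) = ∅ := by
      rw [eq_empty_iff_forall_notMem]
      intro S hS
      obtain ⟨hSc, hSI⟩ := mem_ind.1 hS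
      obtain ⟨e, heS, hec, heG⟩ := hfree S (by omega)
      exact hSI e (mem_sdiff.2 ⟨mem_powersetCard.2 ⟨subset_univ _, hec⟩, heG⟩) heS
    rw [this]; simp
  have h1 := hn0 (Fin n) (by rw [Fintype.card_fin]; exact hnn0) H hHr hNI
  rw [Fintype.card_fin] at h1
  have hc0 : (0:ℝ) < (n.choose k : ℝ) := by exact_mod_cast Nat.choose_pos hnk
  rw [le_div_iff₀ hc0] at h1
  have h2 : (H.card : ℝ) = (n.choose k : ℝ) - (G.card : ℝ) := by
    rw [hH, card_sdiff_of_subset hGs, card_powersetCard, card_univ, Fintype.card_fin,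
      Nat.cast_sub]
    have := card_le_card hGs
    rwa [card_powersetCard, card_univ, Fintype.card_fin] at this
  rw [h2] at h1
  linarith

end Pool.Agent.Helper2.AUniformDeCaen
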