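import Pool.Agent.Helper2.DC2

/-! Counting tools for tuples of vertices, and initial values of the recursion. -/

namespace Pool.Agent.Helper2.DC

open Finset

set_option linter.unusedSectionVars false

variable {V : Type*} [Fintype V] [DecidableEq V]

theorem sum_insert_compl (k : ℕ) (g : Finset V → ℝ) :
    ∑ Z ∈ powersetCard k (univ : Finset V), ∑ x ∈ Zᶜ, g (insert x Z)
      = ((k:ℝ)+1) * ∑ Q ∈ powersetCard (k+1) (univ : Finset V), g Q := by
  have h1 : ∑ Z ∈ powersetCard k (univ : Finset V), ∑ x ∈ Zᶜ, g (insert x Z)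
      = ∑ Q ∈ powersetCard (k+1) (univ : Finset V), ∑ x ∈ Q, g Q := by
    rw [sum_sigma', sum_sigma']
    refine sum_bij' (fun p _ => ⟨insert p.2 p.1, p.2⟩) (fun p _ => ⟨p.1.erase p.2, p.2⟩) ?_ ?_ ?_ ?_ ?_
    · rintro ⟨Q, x⟩ h
      simp only [mem_sigma, mem_powersetCard, mem_compl, subset_univ, true_and] at h ⊢
      exact ⟨by rw [card_insert_of_notMem h.2, h.1], mem_insert_self _ _⟩
    · rintro ⟨S, a⟩ h
      simp only [mem_sigma, mem_powersetCard, mem_compl, subset_univ, true_and] at h ⊢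
      exact ⟨by rw [card_erase_of_mem h.2, h.1]; rfl, notMem_erase _ _⟩
    · rintro ⟨Q, x⟩ h
      simp only [mem_sigma, mem_compl] at h
      simp [erase_insert h.2]
    · rintro ⟨S, a⟩ h
      simp only [mem_sigma] at h
      simp [insert_erase h.2]
    · rintro ⟨Q, x⟩ h
      rfl
  rw [h1, mul_sum]
  refine sum_congr rfl (fun Q hQ => ?_)
  rw [sum_const, (mem_powersetCard.1 hQ).2, nsmul_eq_mul]
  push_cast; ring

theorem sum_insert_of_zero (k : ℕ) (g : Finset V → ℝ)
    (hg : ∀ Z : Finset V, Z.card = k → g Z = 0) :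
    ∑ Z ∈ powersetCard k (univ : Finset V), ∑ x : V, g (insert x Z)
      = ((k:ℝ)+1) * ∑ Q ∈ powersetCard (k+1) (univ : Finset V), g Q := by
  rw [← sum_insert_compl]
  refine sum_congr rfl (fun Z hZ => ?_)
  symm
  refine sum_subset (subset_univ _) (fun x _ hx => ?_)
  rw [mem_compl, not_not] at hx
  rw [insert_eq_of_mem hx]
  exact hg Z (mem_powersetCard.1 hZ).2

/-- indicator of membership -/
def chi (A : Finset (Finset V)) (S : Finset V) : ℝ := if S ∈ A then 1 else 0

theorem chi_nonneg (A : Finset (Finset V)) (S : Finset V) : 0 ≤ chi A S := by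
  unfold chi; split_ifs <;> norm_num

theorem chi_le_one (A : Finset (Finset V)) (S : Finset V) : chi A S ≤ 1 := by
  unfold chi; split_ifs <;> norm_num

theorem chi_eq_zero {A : Finset (Finset V)} {N : ℕ} (hA : ∀ e ∈ A, e.card = N) {S : Finset V}
    (h : S.card < N) : chi A S = 0 := by
  unfold chi; rw [if_neg]; intro hS; have := hA S hS; omega

theorem sum_chi {A : Finset (Finset V)} {N : ℕ} (hA : ∀ e ∈ A, e.card = N) :
    ∑ Q ∈ powersetCard N (univ : Finset V), chi A Q = (A.card : ℝ) := by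
  unfold chi
  rw [← sum_filter, sum_const, nsmul_eq_mul, mul_one]
  congr 2
  ext Q
  simp only [mem_filter, mem_powersetCard, subset_univ, true_and]
  exact ⟨fun h => h.2, fun h => ⟨hA Q h, h⟩⟩

theorem card_insert_lt {S : Finset V} {x : V} {N : ℕ} (h : S.card + 1 < N) :
    (insert x S).card < N := lt_of_le_of_lt (card_insert_le x S) h

theorem sum_chi3 {A : Finset (Finset V)} {k : ℕ} (hA : ∀ e ∈ A, e.card = k+3) :
    ∑ Z ∈ powersetCard k (univ : Finset V), ∑ c : V, ∑ b : V, ∑ a : V,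
      chi A (insert a (insert b (insert c Z)))
      = ((k:ℝ)+1) * ((k:ℝ)+2) * ((k:ℝ)+3) * (A.card : ℝ) := by
  rw [sum_insert_of_zero k (fun Q => ∑ b : V, ∑ a : V, chi A (insert a (insert b Q)))]
  · rw [sum_insert_of_zero (k+1) (fun Q => ∑ a : V, chi A (insert a Q))]
    · rw [sum_insert_of_zero (k+1+1) (fun Q => chi A Q)]
      · rw [sum_chi (N := k+1+1+1) (by simpa [add_assoc] using hA)]; push_cast; ring
      · intro Z hZ; exact chi_eq_zero hA (by omega)
    · intro Z hZ
      refine sum_eq_zero (fun a _ => chi_eq_zero hA (card_insert_lt (by omega)))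
  · intro Z hZ
    refine sum_eq_zero (fun b _ => sum_eq_zero (fun a _ => chi_eq_zero hA ?_))
    have := card_insert_le b Z
    exact card_insert_lt (by omega)

theorem sum_chi4 {A : Finset (Finset V)} {k : ℕ} (hA : ∀ e ∈ A, e.card = k+4) :
    ∑ Z ∈ powersetCard k (univ : Finset V), ∑ d : V, ∑ c : V, ∑ b : V, ∑ a : V,
      chi A (insert a (insert b (insert c (insert d Z))))
      = ((k:ℝ)+1) * ((k:ℝ)+2) * ((k:ℝ)+3) * ((k:ℝ)+4) * (A.card : ℝ) := by
  rw [sum_insert_of_zero k (fun Q => ∑ c : V, ∑ b : V, ∑ a : V, chi A (insert a (insert b (insert c Q))))]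
  · rw [sum_chi3 (A := A) (k := k+1) (by simpa [add_assoc] using hA)]; push_cast; ring
  · intro Z hZ
    refine sum_eq_zero (fun c _ => sum_eq_zero (fun b _ => sum_eq_zero (fun a _ => chi_eq_zero hA ?_)))
    have := card_insert_le c Z
    have := card_insert_le b (insert c Z)
    exact card_insert_lt (by omega)

/-! ### initial values -/

theorem ind_of_lt {H : Finset (Finset V)} {r : ℕ} (hH : ∀ e ∈ H, e.card = r) {s : ℕ} (hs : s < r) :
    ind H s = powersetCard s univ := by
  ext S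
  rw [mem_ind, mem_powersetCard]
  constructor
  · rintro ⟨h, _⟩; exact ⟨subset_univ _, h⟩
  · rintro ⟨_, h⟩
    refine ⟨h, fun e he hes => ?_⟩
    have := card_le_card hes
    rw [hH e he, h] at this
    omega

theorem NI_of_lt {H : Finset (Finset V)} {r : ℕ} (hH : ∀ e ∈ H, e.card = r) {s : ℕ} (hs : s < r) :
    NI H s = ((Fintype.card V).choose s : ℝ) := by
  unfold NI
  rw [ind_of_lt hH hs, card_powersetCard, card_univ]

theorem NI_r {H : Finset (Finset V)} {r : ℕ} (hH : ∀ e ∈ H, e.card = r) :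
    NI H r = ((Fintype.card V).choose r : ℝ) - (H.card : ℝ) := by
  have h1 : ind H r = powersetCard r univ \ H := by
    ext S
    rw [mem_ind, mem_sdiff, mem_powersetCard]
    constructor
    · rintro ⟨h, h2⟩; exact ⟨⟨subset_univ _, h⟩, fun hS => h2 S hS (subset_refl _)⟩
    · rintro ⟨⟨_, h⟩, hS⟩
      refine ⟨h, fun e he hes => hS ?_⟩
      have : e = S := eq_of_subset_of_card_le hes (by rw [hH e he, h])
      rw [← this]; exact he
  have h2 : H ⊆ powersetCard r univ := fun e he => mem_powersetCard.2 ⟨subset_univ _, hH e he⟩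
  unfold NI
  rw [h1, card_sdiff_of_subset h2, card_powersetCard, card_univ, Nat.cast_sub]
  have := card_le_card h2
  rwa [card_powersetCard, card_univ] at this

theorem card_le_choose {H : Finset (Finset V)} {r : ℕ} (hH : ∀ e ∈ H, e.card = r) :
    (H.card : ℝ) ≤ ((Fintype.card V).choose r : ℝ) := by
  have := NI_r hH
  have h := NI_nonneg H r
  linarith

/-- `beta_{r-1}` in terms of the density `t = |H| / C(n,r)`. -/
theorem beta_init {H : Finset (Finset V)} {k : ℕ} (hH : ∀ e ∈ H, e.card = k+1)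
    (hn : k + 1 ≤ Fintype.card V) :
    beta H k = 1 - (1 - (k:ℝ) / (Fintype.card V : ℝ)) *
      (1 - (H.card : ℝ) / ((Fintype.card V).choose (k+1) : ℝ)) := by
  have h1 := NI_of_lt hH (Nat.lt_succ_self k)
  have h2 := NI_r hH
  unfold beta
  rw [h1, h2]
  set n := Fintype.card V with hnn
  have hn0 : (0:ℝ) < (n:ℝ) := by
    have : 0 < n := by omega
    exact_mod_cast this
  have hc0 : (0:ℝ) < (n.choose k : ℝ) := by exact_mod_cast Nat.choose_pos (by omega)
  have hc1 : (0:ℝ) < (n.choose (k+1) : ℝ) := by exact_mod_cast Nat.choose_pos hn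
  have h3 : ((k:ℝ)+1) * (n.choose (k+1) : ℝ) = ((n:ℝ) - k) * (n.choose k : ℝ) := by
    have := Nat.choose_succ_right_eq n k
    have h4 : ((n.choose (k+1) * (k+1) : ℕ) : ℝ) = ((n.choose k * (n-k) : ℕ) : ℝ) := by rw [this]
    push_cast [Nat.cast_sub (show k ≤ n by omega)] at h4
    linarith
  have h5 : ((k:ℝ)+1) * ((n.choose (k+1) : ℝ) - (H.card:ℝ)) / ((n:ℝ) * (n.choose k : ℝ))
      = (1 - (k:ℝ)/n) * (1 - (H.card : ℝ) / (n.choose (k+1) : ℝ)) := by
    have h6 : (n.choose k : ℝ) = ((k:ℝ)+1) * (n.choose (k+1) : ℝ) / ((n:ℝ) - k) := by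
      have : (0:ℝ) < (n:ℝ) - k := by
        have : (k:ℝ) + 1 ≤ n := by exact_mod_cast hn
        linarith
      rw [eq_div_iff this.ne']; linarith
    have : (0:ℝ) < (n:ℝ) - k := by
        have : (k:ℝ) + 1 ≤ n := by exact_mod_cast hn
        linarith
    have hk : (0:ℝ) < (k:ℝ)+1 := by positivity
    rw [h6]
    field_simp
  rw [h5]

theorem beta_init_le {H : Finset (Finset V)} {k : ℕ} (hH : ∀ e ∈ H, e.card = k+1)
    (hn : k + 1 ≤ Fintype.card V) :
    beta H k ≤ (H.card : ℝ) / ((Fintype.card V).choose (k+1) : ℝ) + (k:ℝ) / (Fintype.card V : ℝ) := by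
  rw [beta_init hH hn]
  have h1 : 0 ≤ (H.card : ℝ) / ((Fintype.card V).choose (k+1) : ℝ) := by positivity
  have h2 : 0 ≤ (k:ℝ) / (Fintype.card V : ℝ) := by positivity
  nlinarith [mul_nonneg h1 h2]

end Pool.Agent.Helper2.DC
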