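import Mathlib

/-! Counting independent sets of an `r`-graph: the de Caen recursion with a loss term. -/

namespace Pool.Agent.Helper2.DC

open Finset

set_option linter.unusedSectionVars false

variable {V : Type*} [Fintype V] [DecidableEq V]

/-- `S` contains no edge of `H`. -/
def Ind (H : Finset (Finset V)) (S : Finset V) : Prop := ∀ e ∈ H, ¬ e ⊆ S

instance (H : Finset (Finset V)) (S : Finset V) : Decidable (Ind H S) := by
  unfold Ind; infer_instance

theorem Ind.mono {H : Finset (Finset V)} {S T : Finset V} (h : Ind H T) (hST : S ⊆ T) :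
    Ind H S := fun e he hs => h e he (hs.trans hST)

/-- independent sets of size `s` -/
def ind (H : Finset (Finset V)) (s : ℕ) : Finset (Finset V) :=
  univ.filter (fun S => S.card = s ∧ Ind H S)

theorem mem_ind {H : Finset (Finset V)} {s : ℕ} {S : Finset V} :
    S ∈ ind H s ↔ S.card = s ∧ Ind H S := by simp [ind]

/-- vertices extending `S` to an independent set -/
def ext (H : Finset (Finset V)) (S : Finset V) : Finset V :=
  univ.filter (fun x => x ∉ S ∧ Ind H (insert x S))

theorem mem_ext {H : Finset (Finset V)} {S : Finset V} {x : V} :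
    x ∈ ext H S ↔ x ∉ S ∧ Ind H (insert x S) := by simp [ext]

/-- vertices `x ∉ S` such that `S ∪ {x}` contains at least two edges -/
def bad (H : Finset (Finset V)) (S : Finset V) : Finset V :=
  univ.filter (fun x => x ∉ S ∧ ∃ e₁ ∈ H, ∃ e₂ ∈ H, e₁ ≠ e₂ ∧ e₁ ⊆ insert x S ∧ e₂ ⊆ insert x S)

theorem mem_bad {H : Finset (Finset V)} {S : Finset V} {x : V} :
    x ∈ bad H S ↔ x ∉ S ∧ ∃ e₁ ∈ H, ∃ e₂ ∈ H, e₁ ≠ e₂ ∧ e₁ ⊆ insert x S ∧ e₂ ⊆ insert x S := by
  simp [bad]

/-- vertices `x ∉ S` such that `S ∪ {x}` is not independent -/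
def bl (H : Finset (Finset V)) (S : Finset V) : Finset V :=
  univ.filter (fun x => x ∉ S ∧ ¬ Ind H (insert x S))

theorem mem_bl {H : Finset (Finset V)} {S : Finset V} {x : V} :
    x ∈ bl H S ↔ x ∉ S ∧ ¬ Ind H (insert x S) := by simp [bl]

theorem card_split (H : Finset (Finset V)) (S : Finset V) :
    S.card + (ext H S).card + (bl H S).card = Fintype.card V := by
  have h1 : (univ : Finset V) = S ∪ (ext H S ∪ bl H S) := by
    ext x
    simp only [mem_univ, mem_union, mem_ext, mem_bl, true_iff]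
    by_cases h : x ∈ S
    · exact Or.inl h
    · by_cases h' : Ind H (insert x S)
      · exact Or.inr (Or.inl ⟨h, h'⟩)
      · exact Or.inr (Or.inr ⟨h, h'⟩)
  have h2 : Disjoint (ext H S) (bl H S) := by
    rw [disjoint_left]; intro x hx hx'
    exact (mem_bl.1 hx').2 (mem_ext.1 hx).2
  have h3 : Disjoint S (ext H S ∪ bl H S) := by
    rw [disjoint_left]; intro x hx hx'
    rcases mem_union.1 hx' with h | h
    · exact (mem_ext.1 h).1 hx
    · exact (mem_bl.1 h).1 hx
  rw [← Finset.card_univ, h1, card_union_of_disjoint h3, card_union_of_disjoint h2]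
  ring

/-- basic double counting -/
theorem sum_ext {M : Type*} [AddCommMonoid M] (H : Finset (Finset V)) (s : ℕ)
    (f : Finset V → V → M) :
    ∑ Q ∈ ind H s, ∑ x ∈ ext H Q, f Q x = ∑ S ∈ ind H (s+1), ∑ a ∈ S, f (S.erase a) a := by
  rw [sum_sigma', sum_sigma']
  refine sum_bij' (fun p _ => ⟨insert p.2 p.1, p.2⟩) (fun p _ => ⟨p.1.erase p.2, p.2⟩) ?_ ?_ ?_ ?_ ?_
  · rintro ⟨Q, x⟩ h
    simp only [mem_sigma, mem_ind, mem_ext] at h ⊢
    refine ⟨⟨?_, h.2.2⟩, mem_insert_self _ _⟩
    rw [card_insert_of_notMem h.2.1, h.1.1]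
  · rintro ⟨S, a⟩ h
    simp only [mem_sigma, mem_ind, mem_ext] at h ⊢
    refine ⟨⟨?_, h.1.2.mono (erase_subset _ _)⟩, notMem_erase _ _, ?_⟩
    · rw [card_erase_of_mem h.2, h.1.1]; rfl
    · rw [insert_erase h.2]; exact h.1.2
  · rintro ⟨Q, x⟩ h
    simp only [mem_sigma, mem_ind, mem_ext] at h
    simp [erase_insert h.2.1]
  · rintro ⟨S, a⟩ h
    simp only [mem_sigma, mem_ind] at h
    simp [insert_erase h.2]
  · rintro ⟨Q, x⟩ h
    simp only [mem_sigma, mem_ind, mem_ext] at h
    simp [erase_insert h.2.1]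

theorem sum_card_ext (H : Finset (Finset V)) (s : ℕ) :
    ∑ Q ∈ ind H s, (ext H Q).card = (s+1) * (ind H (s+1)).card := by
  have h := sum_ext H s (fun _ _ => (1:ℕ))
  simp only [sum_const, smul_eq_mul, mul_one] at h
  rw [h, sum_congr rfl (fun S hS => (mem_ind.1 hS).1)]
  simp [mul_comm]

/-- the local inequality -/
theorem local_ineq {H : Finset (Finset V)} {r : ℕ} (hH : ∀ e ∈ H, e.card = r)
    {S : Finset V} (hS : Ind H S) :
    ∑ a ∈ S, (ext H (S.erase a)).card + (bad H S).card
      ≤ S.card + S.card * (ext H S).card + (r-1) * (bl H S).card := by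
  classical
  have h1 : ∀ a ∈ S, (ext H (S.erase a)).card ≤
      1 + (ext H S).card + ((bl H S).filter (fun x => Ind H (insert x (S.erase a)))).card := by
    intro a ha
    have hsub : ext H (S.erase a) ⊆ {a} ∪ ext H S ∪
        (bl H S).filter (fun x => Ind H (insert x (S.erase a))) := by
      intro x hx
      rw [mem_ext] at hx
      simp only [mem_union, mem_singleton, mem_filter, mem_ext, mem_bl]
      by_cases hxa : x = a
      · exact Or.inl (Or.inl hxa)
      · have hxS : x ∉ S := fun h => hx.1 (mem_erase.2 ⟨hxa, h⟩)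
        by_cases hI : Ind H (insert x S)
        · exact Or.inl (Or.inr ⟨hxS, hI⟩)
        · exact Or.inr ⟨⟨hxS, hI⟩, hx.2⟩
    refine (card_le_card hsub).trans ((card_union_le _ _).trans ?_)
    have := card_union_le ({a} : Finset V) (ext H S)
    simp only [card_singleton] at this
    omega
  have h2 : ∑ a ∈ S, ((bl H S).filter (fun x => Ind H (insert x (S.erase a)))).card
      = ∑ x ∈ bl H S, (S.filter (fun a => Ind H (insert x (S.erase a)))).card := by
    simp only [card_filter]
    rw [sum_comm]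
  have h3 : ∀ x ∈ bl H S, (S.filter (fun a => Ind H (insert x (S.erase a)))).card
      + (if x ∈ bad H S then 1 else 0) ≤ r - 1 := by
    intro x hx
    obtain ⟨hxS, hnI⟩ := mem_bl.1 hx
    have key : ∀ e ∈ H, e ⊆ insert x S →
        S.filter (fun a => Ind H (insert x (S.erase a))) ⊆ e.erase x := by
      intro e he hes a ha
      rw [mem_filter] at ha
      rw [mem_erase]
      refine ⟨fun h => hxS (h ▸ ha.1), ?_⟩
      by_contra hae
      apply ha.2 e he
      intro y hy
      rcases mem_insert.1 (hes hy) with rfl | hyS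
      · exact mem_insert_self _ _
      · exact mem_insert_of_mem (mem_erase.2 ⟨fun h => hae (h ▸ hy), hyS⟩)
    have hxe : ∀ e ∈ H, e ⊆ insert x S → x ∈ e := by
      intro e he hes
      by_contra hne
      apply hS e he
      intro y hy
      rcases mem_insert.1 (hes hy) with rfl | hyS
      · exact absurd hy hne
      · exact hyS
    split_ifs with hb
    · obtain ⟨_, e₁, he₁, e₂, he₂, hne, hs₁, hs₂⟩ := mem_bad.1 hb
      have hsub : S.filter (fun a => Ind H (insert x (S.erase a))) ⊆ (e₁ ∩ e₂).erase x := by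
        intro a ha
        have a1 := key e₁ he₁ hs₁ ha
        have a2 := key e₂ he₂ hs₂ ha
        rw [mem_erase] at a1 a2 ⊢
        exact ⟨a1.1, mem_inter.2 ⟨a1.2, a2.2⟩⟩
      have hlt : (e₁ ∩ e₂).card < r := by
        rw [← hH e₁ he₁]
        apply card_lt_card
        rw [ssubset_iff_subset_ne]
        refine ⟨inter_subset_left, fun h => hne ?_⟩
        have : e₁ ⊆ e₂ := by rw [← h]; exact inter_subset_right
        exact eq_of_subset_of_card_le this (by rw [hH e₁ he₁, hH e₂ he₂])
      have hmem : x ∈ e₁ ∩ e₂ := mem_inter.2 ⟨hxe e₁ he₁ hs₁, hxe e₂ he₂ hs₂⟩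
      have := card_le_card hsub
      rw [card_erase_of_mem hmem] at this
      have hpos : 0 < (e₁ ∩ e₂).card := card_pos.2 ⟨x, hmem⟩
      omega
    · have : ∃ e ∈ H, e ⊆ insert x S := by
        by_contra hcon; exact hnI (fun e he hes => hcon ⟨e, he, hes⟩)
      obtain ⟨e, he, hes⟩ := this
      have h := card_le_card (key e he hes)
      rw [card_erase_of_mem (hxe e he hes), hH e he] at h
      omega
  have h4 : (bad H S).card = ∑ x ∈ bl H S, (if x ∈ bad H S then 1 else 0) := by
    rw [← card_filter]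
    congr 1
    ext x
    simp only [mem_filter]
    refine ⟨fun h => ⟨?_, h⟩, fun h => h.2⟩
    obtain ⟨hxS, e₁, he₁, e₂, he₂, hne, hs₁, hs₂⟩ := mem_bad.1 h
    exact mem_bl.2 ⟨hxS, fun hI => hI e₁ he₁ hs₁⟩
  have h5 : ∑ x ∈ bl H S, (S.filter (fun a => Ind H (insert x (S.erase a)))).card + (bad H S).card
      ≤ (r-1) * (bl H S).card := by
    rw [h4, ← sum_add_distrib]
    refine (sum_le_sum h3).trans ?_
    simp [mul_comm]
  have h6 := sum_le_sum h1
  rw [sum_add_distrib, sum_add_distrib, h2] at h6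
  simp only [sum_const, smul_eq_mul, mul_one] at h6
  omega

end Pool.Agent.Helper2.DC
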