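import Pool.Agent.Helper2.DC9

/-! Second moment and spread families. -/

namespace Pool.Agent.Helper2.DC

open Finset

set_option linter.unusedSectionVars false

variable {V : Type*} [Fintype V] [DecidableEq V]

theorem second_moment {ι : Type*} (F : Finset ι) (A : ι → Finset V) (H : Finset (Finset V))
    (s : ℕ) :
    (∑ i ∈ F, cnt H s (A i))^2 ≤ (((ind H s).filter (fun S => ∃ i ∈ F, A i ⊆ S)).card : ℝ) *
      ∑ i ∈ F, ∑ j ∈ F, cnt H s (A i ∪ A j) := by
  set T := (ind H s).filter (fun S => ∃ i ∈ F, A i ⊆ S) with hT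
  have hcnt : ∀ D : Finset V, cnt H s D = ∑ S ∈ ind H s, (if D ⊆ S then (1:ℝ) else 0) := by
    intro D
    unfold cnt
    rw [← sum_filter, sum_const, nsmul_eq_mul, mul_one]
  have e1 : ∑ i ∈ F, cnt H s (A i) = ∑ S ∈ T, ∑ i ∈ F, (if A i ⊆ S then (1:ℝ) else 0) := by
    simp only [hcnt]
    rw [sum_comm]
    symm
    refine sum_subset (filter_subset _ _) (fun S hS hST => ?_)
    refine sum_eq_zero (fun i hi => ?_)
    rw [if_neg]
    intro hA
    exact hST (mem_filter.2 ⟨hS, i, hi, hA⟩)
  have e2 : ∑ S ∈ T, (∑ i ∈ F, (if A i ⊆ S then (1:ℝ) else 0))^2 ≤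
      ∑ i ∈ F, ∑ j ∈ F, cnt H s (A i ∪ A j) := by
    calc ∑ S ∈ T, (∑ i ∈ F, (if A i ⊆ S then (1:ℝ) else 0))^2
        ≤ ∑ S ∈ ind H s, (∑ i ∈ F, (if A i ⊆ S then (1:ℝ) else 0))^2 :=
          sum_le_sum_of_subset_of_nonneg (filter_subset _ _) (fun _ _ _ => sq_nonneg _)
      _ = ∑ S ∈ ind H s, ∑ i ∈ F, ∑ j ∈ F, (if A i ∪ A j ⊆ S then (1:ℝ) else 0) := by
          refine sum_congr rfl (fun S _ => ?_)
          rw [pow_two, sum_mul_sum]
          refine sum_congr rfl (fun i _ => sum_congr rfl (fun j _ => ?_))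
          by_cases h1 : A i ⊆ S <;> by_cases h2 : A j ⊆ S <;> simp [h1, h2, union_subset_iff]
      _ = ∑ i ∈ F, ∑ j ∈ F, cnt H s (A i ∪ A j) := by
          simp only [hcnt]
          rw [sum_comm]
          refine sum_congr rfl (fun i _ => ?_)
          rw [sum_comm]
  rw [e1]
  exact (sq_sum_le_card_mul_sum_sq).trans (mul_le_mul_of_nonneg_left e2 (Nat.cast_nonneg _))

theorem spread {ι : Type*} (K : Finset ι) (f : ι → Finset V) {k : ℕ}
    (hK : ∀ i ∈ K, (f i).card = k) {w : ℝ} (hw0 : 0 < w)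
    (hs : ∀ I : Finset V, I.card ≤ k →
      ((K.filter (fun i => I ⊆ f i)).card : ℝ) * w^(k - I.card) ≤ 1) (A : Finset V) :
    ∑ i ∈ K, w^(A ∪ f i).card ≤ 2^A.card * w^A.card := by
  have h1 : ∀ i ∈ K, A ∩ f i ∈ A.powerset := fun i _ => mem_powerset.2 inter_subset_left
  rw [← sum_fiberwise_of_maps_to h1]
  have h2 : ∀ I ∈ A.powerset, ∑ i ∈ K.filter (fun i => A ∩ f i = I), w^(A ∪ f i).card ≤ w^A.card := by
    intro I hI
    rcases (K.filter (fun i => A ∩ f i = I)).eq_empty_or_nonempty with he | ⟨i0, hi0⟩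
    · rw [he]; simp; positivity
    · have hIk : I.card ≤ k := by
        rw [mem_filter] at hi0
        rw [← hi0.2, ← hK i0 hi0.1]
        exact card_le_card inter_subset_right
      have h3 : ∀ i ∈ K.filter (fun i => A ∩ f i = I), w^(A ∪ f i).card =
          w^A.card * w^(k - I.card) := by
        intro i hi
        rw [mem_filter] at hi
        rw [← pow_add]
        congr 1
        have := card_union_add_card_inter A (f i)
        rw [hi.2, hK i hi.1] at this
        omega
      rw [sum_congr rfl h3, sum_const, nsmul_eq_mul]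
      have h4 : ((K.filter (fun i => A ∩ f i = I)).card : ℝ) ≤
          ((K.filter (fun i => I ⊆ f i)).card : ℝ) := by
        have : K.filter (fun i => A ∩ f i = I) ⊆ K.filter (fun i => I ⊆ f i) := by
          intro i hi
          rw [mem_filter] at hi ⊢
          exact ⟨hi.1, by rw [← hi.2]; exact inter_subset_right⟩
        exact_mod_cast card_le_card this
      calc ((K.filter (fun i => A ∩ f i = I)).card : ℝ) * (w^A.card * w^(k - I.card))
          ≤ ((K.filter (fun i => I ⊆ f i)).card : ℝ) * (w^A.card * w^(k - I.card)) :=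
            mul_le_mul_of_nonneg_right h4 (by positivity)
        _ = w^A.card * (((K.filter (fun i => I ⊆ f i)).card : ℝ) * w^(k - I.card)) := by ring
        _ ≤ w^A.card * 1 := mul_le_mul_of_nonneg_left (hs I hIk) (by positivity)
        _ = w^A.card := mul_one _
  refine (sum_le_sum h2).trans (le_of_eq ?_)
  rw [sum_const, card_powerset, nsmul_eq_mul]
  push_cast; rfl

end Pool.Agent.Helper2.DC
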