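import Pool.Agent.Helper2.DC10

/-! Degrees in the part of `H` all of whose small subsets are unreduced. -/

namespace Pool.Agent.Helper2.DC

open Finset

set_option linter.unusedSectionVars false
set_option maxHeartbeats 1000000

variable {V : Type*} [Fintype V] [DecidableEq V]

theorem compat_lemma {H E : Finset (Finset V)} {s : ℕ} {J : Finset V} (hE : E ⊆ H) :
    (((ind H s).filter (fun S => ∃ e ∈ E, e \ J ⊆ S)).card : ℝ) + cmp H s J ≤ NI H s := by
  unfold cmp NI
  have h : ((ind H s).filter (fun S => ∃ e ∈ E, e \ J ⊆ S)).card +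
      ((ind H s).filter (fun R => Disjoint R J ∧ Ind H (R ∪ J))).card ≤ (ind H s).card := by
    rw [← card_union_of_disjoint]
    · exact card_le_card (union_subset (filter_subset _ _) (filter_subset _ _))
    · rw [disjoint_left]
      intro S hS hS'
      rw [mem_filter] at hS hS'
      obtain ⟨-, e, he, heS⟩ := hS
      refine hS'.2.2 e (hE he) ?_
      intro x hx
      rw [mem_union]
      by_cases hxJ : x ∈ J
      · exact Or.inr hxJ
      · exact Or.inl (heS (mem_sdiff.2 ⟨hx, hxJ⟩))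
  exact_mod_cast h

theorem dg_le_one {E : Finset (Finset V)} {r : ℕ} (hE : ∀ e ∈ E, e.card = r) {J : Finset V}
    (hJ : J.card = r) : dg E J ≤ 1 := by
  unfold dg
  have : (E.filter (fun e => J ⊆ e)).card ≤ 1 := by
    rw [card_le_one]
    intro a ha b hb
    rw [mem_filter] at ha hb
    rw [← eq_of_subset_of_card_le ha.2 (by rw [hE a ha.1, hJ]),
      ← eq_of_subset_of_card_le hb.2 (by rw [hE b hb.1, hJ])]
  exact_mod_cast this

theorem dg_mono {E E' : Finset (Finset V)} (h : E ⊆ E') (J : Finset V) : dg E J ≤ dg E' J := by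
  unfold dg
  exact_mod_cast card_le_card (filter_subset_filter _ h)

theorem deg_claim {H E : Finset (Finset V)} {r ℓ : ℕ} {w ν c : ℝ} (L : ℕ → ℝ)
    (hEH : E ⊆ H) (hH : ∀ e ∈ H, e.card = r) (hN : 0 < NI H ℓ)
    (up : ∀ D : Finset V, D.card ≤ 2*r → cnt H ℓ D ≤ 2 * w^D.card * NI H ℓ)
    (lo : ∀ D : Finset V, D.card ≤ 2*r → (w/2)^D.card * cmp H ℓ D ≤ cnt H ℓ D)
    (hE : ∀ e ∈ E, ∀ J ⊆ e, J.Nonempty → J ≠ e → (1-c) * NI H ℓ < cmp H ℓ J)
    (hc : c ≤ 1/2) (hw : 0 < w) (hν : 0 < ν) (hL0 : ∀ j, 0 < L j)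
    (hL : ∀ j, 1 ≤ j → j < r → c * 2^(3*r) < L j * (w*ν)^(r-j))
    (hL1 : ∀ j, 1 ≤ j → j < r → L j * (w*ν)^(r-j) + w^(r-j) ≤ 1) :
    ∀ d : ℕ, ∀ J : Finset V, J.card + d + 1 = r → 1 ≤ J.card → dg E J < L J.card * ν^(r - J.card) := by
  intro d
  induction d using Nat.strong_induction_on with
  | _ d ih =>
  intro J hJd hJ1
  by_contra hcon
  push Not at hcon
  set j := J.card with hj
  set k := r - j with hk
  have hjr : j < r := by omega
  have hk1 : 1 ≤ k := by omega
  set E0 := E.filter (fun e => J ⊆ e) with hE0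
  have hcon' : L j * ν^k ≤ (E0.card : ℝ) := hcon
  have hLν : 0 < L j * ν^k := mul_pos (hL0 j) (pow_pos hν _)
  obtain ⟨E1, hE1, hE1c⟩ := exists_subset_card_eq (s := E0) (n := ⌈L j * ν^k⌉₊)
    (Nat.ceil_le.2 hcon')
  have hE1l : L j * ν^k ≤ (E1.card : ℝ) := by rw [hE1c]; exact Nat.le_ceil _
  have hE1u : (E1.card : ℝ) < L j * ν^k + 1 := by rw [hE1c]; exact Nat.ceil_lt_add_one hLν.le
  have hE1E : E1 ⊆ E := hE1.trans (filter_subset _ _)
  have hE1J : ∀ e ∈ E1, J ⊆ e := fun e he => (mem_filter.1 (hE1 he)).2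
  have hE1r : ∀ e ∈ E1, e.card = r := fun e he => hH e (hEH (hE1E he))
  have hm0 : 0 < (E1.card : ℝ) := lt_of_lt_of_le hLν hE1l
  set X := (E1.card : ℝ) * w^k with hX
  have hwk : 0 < w^k := pow_pos hw _
  have hX1 : X ≤ 1 := by
    have h1 := hL1 j hJ1 hjr
    calc X ≤ (L j * ν^k + 1) * w^k := mul_le_mul_of_nonneg_right hE1u.le hwk.le
      _ = L j * (w*ν)^k + w^k := by rw [mul_pow]; ring
      _ ≤ 1 := h1
  have hXl : L j * (w*ν)^k ≤ X := by
    calc L j * (w*ν)^k = (L j * ν^k) * w^k := by rw [mul_pow]; ring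
      _ ≤ X := mul_le_mul_of_nonneg_right hE1l hwk.le
  -- card of `e \ J`
  have hcard : ∀ e ∈ E1, (e \ J).card = k := by
    intro e he
    rw [card_sdiff_of_subset (hE1J e he), hE1r e he]
  -- spread hypothesis
  have hspread : ∀ I : Finset V, I.card ≤ k →
      ((E1.filter (fun e => I ⊆ e \ J)).card : ℝ) * w^(k - I.card) ≤ 1 := by
    intro I hI
    rcases (E1.filter (fun e => I ⊆ e \ J)).eq_empty_or_nonempty with hemp | ⟨e0, he0⟩
    · rw [hemp]; simp
    · rcases I.eq_empty_or_nonempty with hI0 | hI0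
      · have : E1.filter (fun e => I ⊆ e \ J) = E1 := by
          rw [hI0]; exact filter_true_of_mem (fun e _ => empty_subset _)
        rw [this, hI0]; simpa using hX1
      · rw [mem_filter] at he0
        have hIJ : Disjoint J I := by
          rw [disjoint_right]
          intro x hx
          exact (mem_sdiff.1 (he0.2 hx)).2
        have hI1 : 1 ≤ I.card := card_pos.2 hI0
        have hcJI : (J ∪ I).card = j + I.card := card_union_of_disjoint hIJ
        have h1 : ((E1.filter (fun e => I ⊆ e \ J)).card : ℝ) ≤ dg E (J ∪ I) := by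
          unfold dg
          have : E1.filter (fun e => I ⊆ e \ J) ⊆ E.filter (fun e => J ∪ I ⊆ e) := by
            intro e he
            rw [mem_filter] at he ⊢
            exact ⟨hE1E he.1, union_subset (hE1J e he.1) (he.2.trans sdiff_subset)⟩
          exact_mod_cast card_le_card this
        have hwp : 0 < w^(k - I.card) := pow_pos hw _
        by_cases hlt : j + I.card < r
        · have h2 := ih (r - (j + I.card) - 1) (by omega) (J ∪ I) (by rw [hcJI]; omega)
            (by rw [hcJI]; omega)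
          rw [hcJI] at h2
          have h3 := hL1 (j + I.card) (by omega) hlt
          have hkI : k - I.card = r - (j + I.card) := by omega
          rw [hkI]
          rw [hkI] at hwp
          calc ((E1.filter (fun e => I ⊆ e \ J)).card : ℝ) * w^(r - (j + I.card))
              ≤ (L (j + I.card) * ν^(r - (j + I.card))) * w^(r - (j + I.card)) :=
                mul_le_mul_of_nonneg_right (h1.trans h2.le) hwp.le
            _ = L (j + I.card) * (w*ν)^(r - (j + I.card)) := by rw [mul_pow]; ring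
            _ ≤ 1 := by linarith
        · have hkI : k - I.card = 0 := by omega
          rw [hkI, pow_zero, mul_one]
          refine h1.trans (dg_le_one (r := r) (fun e he => hH e (hEH he)) ?_)
          rw [hcJI]; omega
  -- second moment
  have hsm := second_moment E1 (fun e => e \ J) H ℓ
  set T := (((ind H ℓ).filter (fun S => ∃ e ∈ E1, e \ J ⊆ S)).card : ℝ) with hT
  -- upper bound for the double sum
  have hub : ∑ e ∈ E1, ∑ e' ∈ E1, cnt H ℓ ((e \ J) ∪ (e' \ J)) ≤
      (E1.card : ℝ) * (2 * 2^k * w^k * NI H ℓ) := by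
    have h1 : ∀ e ∈ E1, ∑ e' ∈ E1, cnt H ℓ ((e \ J) ∪ (e' \ J)) ≤ 2 * 2^k * w^k * NI H ℓ := by
      intro e he
      have h2 : ∀ e' ∈ E1, cnt H ℓ ((e \ J) ∪ (e' \ J)) ≤
          (2 * NI H ℓ) * w^((e \ J) ∪ (e' \ J)).card := by
        intro e' he'
        have h3 := up ((e \ J) ∪ (e' \ J)) (by
          have := card_union_le (e \ J) (e' \ J)
          rw [hcard e he, hcard e' he'] at this
          omega)
        linarith
      refine (sum_le_sum h2).trans ?_
      rw [← mul_sum]
      have h4 := spread E1 (fun e' => e' \ J) hcard hw hspread (e \ J)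
      rw [hcard e he] at h4
      have := mul_le_mul_of_nonneg_left h4 (by positivity : 0 ≤ 2 * NI H ℓ)
      linarith
    refine (sum_le_sum h1).trans (le_of_eq ?_)
    rw [sum_const, nsmul_eq_mul]
  -- lower bound for the sum
  have hlb : (E1.card : ℝ) * ((w/2)^k * (NI H ℓ / 2)) ≤ ∑ e ∈ E1, cnt H ℓ (e \ J) := by
    have h1 : ∀ e ∈ E1, (w/2)^k * (NI H ℓ / 2) ≤ cnt H ℓ (e \ J) := by
      intro e he
      have h2 := lo (e \ J) (by rw [hcard e he]; omega)
      rw [hcard e he] at h2
      have h3 := hE e (hE1E he) (e \ J) sdiff_subset (card_pos.1 (by rw [hcard e he]; omega))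
        (by
          intro heq
          have : (e \ J).card = e.card := by rw [heq]
          rw [hcard e he, hE1r e he] at this
          omega)
      have h4 : NI H ℓ / 2 ≤ cmp H ℓ (e \ J) := by nlinarith
      refine le_trans ?_ h2
      exact mul_le_mul_of_nonneg_left h4 (by positivity)
    refine le_trans (le_of_eq ?_) (sum_le_sum h1)
    rw [sum_const, nsmul_eq_mul]
  -- T is small
  have hTs : T < c * NI H ℓ := by
    have h1 := compat_lemma (s := ℓ) (J := J) (hE1E.trans hEH)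
    obtain ⟨e, he⟩ : E1.Nonempty := card_pos.1 (by exact_mod_cast hm0)
    have h2 := hE e (hE1E he) J (hE1J e he) (card_pos.1 (by omega)) (by
      intro heq
      have h3 := hE1r e he
      rw [← heq] at h3
      omega)
    rw [← hT] at h1
    linarith
  -- combine
  have hT0 : 0 ≤ T := Nat.cast_nonneg _
  have hcN : 0 < c * NI H ℓ := lt_of_le_of_lt hT0 hTs
  have hcpos : 0 < c := by
    by_contra hneg
    push Not at hneg
    have := mul_nonpos_of_nonpos_of_nonneg hneg hN.le
    linarith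
  have h5 : ((E1.card : ℝ) * ((w/2)^k * (NI H ℓ / 2)))^2 ≤
      c * NI H ℓ * ((E1.card : ℝ) * (2 * 2^k * w^k * NI H ℓ)) := by
    calc ((E1.card : ℝ) * ((w/2)^k * (NI H ℓ / 2)))^2
        ≤ (∑ e ∈ E1, cnt H ℓ (e \ J))^2 := pow_le_pow_left₀ (by positivity) hlb 2
      _ ≤ T * ∑ e ∈ E1, ∑ e' ∈ E1, cnt H ℓ ((e \ J) ∪ (e' \ J)) := hsm
      _ ≤ T * ((E1.card : ℝ) * (2 * 2^k * w^k * NI H ℓ)) := mul_le_mul_of_nonneg_left hub hT0
      _ ≤ c * NI H ℓ * ((E1.card : ℝ) * (2 * 2^k * w^k * NI H ℓ)) :=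
          mul_le_mul_of_nonneg_right hTs.le (by positivity)
  have h2k : (0:ℝ) < 2^k := by positivity
  have h6 : X ≤ c * 2^(3*k+3) := by
    have e1 : ((E1.card : ℝ) * ((w/2)^k * (NI H ℓ / 2)))^2 =
        X * (((E1.card : ℝ) * w^k * (NI H ℓ)^2) / (4 * (2^k)^2)) := by
      rw [hX, div_pow]; field_simp; ring
    have e2 : c * NI H ℓ * ((E1.card : ℝ) * (2 * 2^k * w^k * NI H ℓ)) =
        (c * 2^(3*k+3)) * (((E1.card : ℝ) * w^k * (NI H ℓ)^2) / (4 * (2^k)^2)) := by
      have : (2:ℝ)^(3*k+3) = 8 * (2^k)^3 := by rw [pow_add, pow_mul, ← pow_mul, ← pow_mul]; ring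
      rw [this]; field_simp; ring
    rw [e1, e2] at h5
    exact le_of_mul_le_mul_right h5 (by positivity)
  have h7 := hL j hJ1 hjr
  have h8 : c * 2^(3*k+3) ≤ c * 2^(3*r) :=
    mul_le_mul_of_nonneg_left (pow_le_pow_right₀ (by norm_num) (by omega)) hcpos.le
  linarith

end Pool.Agent.Helper2.DC
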