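import Pool.Agent.Helper2.DC11

/-! Good pairs of edges sharing a vertex. -/

namespace Pool.Agent.Helper2.DC

open Finset

set_option linter.unusedSectionVars false
set_option maxHeartbeats 1000000

variable {V : Type*} [Fintype V] [DecidableEq V]

/-- the pair `(e1, e2)` of edges through `x` is good -/
def Good (H : Finset (Finset V)) (r : ℕ) (ν : ℝ) (x : V) (e1 e2 : Finset V) : Prop :=
  e1 ∩ e2 = {x} ∧ ∀ J ⊆ (e1 ∪ e2).erase x, (J ∩ e1).Nonempty → (J ∩ e2).Nonempty → J.card ≤ r →
    dg H J < ν^(r - J.card)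

theorem good_cmp {H : Finset (Finset V)} {r ℓ : ℕ} {w ν c : ℝ} (hr : 1 ≤ r)
    (hH : ∀ e ∈ H, e.card = r) (hN : 0 < NI H ℓ)
    (up : ∀ D : Finset V, D.card ≤ r → cnt H ℓ D ≤ 2 * w^D.card * NI H ℓ)
    (hw : 0 < w) (hν : 0 < ν) (hθ : w * ν ≤ 1)
    {x : V} {e1 e2 : Finset V} (he1 : e1.card = r) (he2 : e2.card = r)
    (hc1 : (1-c) * NI H ℓ ≤ cmp H ℓ (e1.erase x)) (hc2 : (1-c) * NI H ℓ ≤ cmp H ℓ (e2.erase x))
    (hx1 : x ∈ e1) (hx2 : x ∈ e2)
    (hg : Good H r ν x e1 e2) :
    (1 - 2*c - 2^(2*r) * (w*ν)) * NI H ℓ ≤ cmp H ℓ ((e1 ∪ e2).erase x) := by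
  obtain ⟨hint, hgJ⟩ := hg
  set D := (e1 ∪ e2).erase x with hD
  have hDu : D = e1.erase x ∪ e2.erase x := by
    rw [hD]; ext y; simp only [mem_erase, mem_union]; tauto
  set P1 := (ind H ℓ).filter (fun R => Disjoint R (e1.erase x) ∧ Ind H (R ∪ e1.erase x)) with hP1
  set P2 := (ind H ℓ).filter (fun R => Disjoint R (e2.erase x) ∧ Ind H (R ∪ e2.erase x)) with hP2
  set P := (ind H ℓ).filter (fun R => Disjoint R D ∧ Ind H (R ∪ D)) with hP
  set JJ := D.powerset.filter (fun J => (J ∩ e1).Nonempty ∧ (J ∩ e2).Nonempty ∧ J.card ≤ r) with hJJ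
  have hcov : P1 ∩ P2 ⊆ P ∪ JJ.biUnion (fun J => (H.filter (fun e => J ⊆ e)).biUnion
      (fun e => (ind H ℓ).filter (fun S => e \ J ⊆ S))) := by
    intro R hR
    rw [mem_inter, mem_filter, mem_filter] at hR
    obtain ⟨⟨hRi, hd1, hi1⟩, ⟨-, hd2, hi2⟩⟩ := hR
    rw [mem_union]
    by_cases hRP : R ∈ P
    · exact Or.inl hRP
    · right
      have hdD : Disjoint R D := by rw [hDu, disjoint_union_right]; exact ⟨hd1, hd2⟩
      have hnI : ¬ Ind H (R ∪ D) := fun hI => hRP (mem_filter.2 ⟨hRi, hdD, hI⟩)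
      unfold Ind at hnI
      push Not at hnI
      obtain ⟨e, he, heRD⟩ := hnI
      rw [mem_biUnion]
      refine ⟨e ∩ D, ?_, ?_⟩
      · rw [hJJ, mem_filter, mem_powerset]
        refine ⟨inter_subset_right, ?_, ?_, ?_⟩
        · by_contra hne
          rw [not_nonempty_iff_eq_empty] at hne
          refine hi2 e he ?_
          intro y hy
          rw [mem_union]
          rcases mem_union.1 (heRD hy) with h | h
          · exact Or.inl h
          · right
            rw [hDu, mem_union] at h
            rcases h with h | h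
            · exfalso
              have : y ∈ e ∩ D ∩ e1 := by
                rw [mem_inter, mem_inter]
                refine ⟨⟨hy, ?_⟩, (mem_erase.1 h).2⟩
                rw [hDu, mem_union]; exact Or.inl h
              rw [hne] at this
              exact absurd this (notMem_empty _)
            · exact h
        · by_contra hne
          rw [not_nonempty_iff_eq_empty] at hne
          refine hi1 e he ?_
          intro y hy
          rw [mem_union]
          rcases mem_union.1 (heRD hy) with h | h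
          · exact Or.inl h
          · right
            rw [hDu, mem_union] at h
            rcases h with h | h
            · exact h
            · exfalso
              have : y ∈ e ∩ D ∩ e2 := by
                rw [mem_inter, mem_inter]
                refine ⟨⟨hy, ?_⟩, (mem_erase.1 h).2⟩
                rw [hDu, mem_union]; exact Or.inr h
              rw [hne] at this
              exact absurd this (notMem_empty _)
        · rw [← hH e he]; exact card_le_card inter_subset_left
      · rw [mem_biUnion]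
        refine ⟨e, mem_filter.2 ⟨he, inter_subset_left⟩, mem_filter.2 ⟨hRi, ?_⟩⟩
        intro y hy
        rw [mem_sdiff, mem_inter, not_and] at hy
        rcases mem_union.1 (heRD hy.1) with h | h
        · exact h
        · exact absurd h (hy.2 hy.1)
  have h1 : ((P1 ∩ P2).card : ℝ) ≤ (P.card : ℝ) + ∑ J ∈ JJ, ∑ e ∈ H.filter (fun e => J ⊆ e),
      cnt H ℓ (e \ J) := by
    have h2 := (card_le_card hcov).trans (card_union_le _ _)
    have h3 : (JJ.biUnion (fun J => (H.filter (fun e => J ⊆ e)).biUnion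
      (fun e => (ind H ℓ).filter (fun S => e \ J ⊆ S)))).card ≤
      ∑ J ∈ JJ, ∑ e ∈ H.filter (fun e => J ⊆ e), ((ind H ℓ).filter (fun S => e \ J ⊆ S)).card :=
      card_biUnion_le.trans (sum_le_sum (fun J _ => card_biUnion_le))
    have h4 : (P1 ∩ P2).card ≤ P.card +
      ∑ J ∈ JJ, ∑ e ∈ H.filter (fun e => J ⊆ e), ((ind H ℓ).filter (fun S => e \ J ⊆ S)).card := by
      omega
    unfold cnt
    exact_mod_cast h4
  have h5 : ∀ J ∈ JJ, ∑ e ∈ H.filter (fun e => J ⊆ e), cnt H ℓ (e \ J) ≤
      2 * (w*ν) * NI H ℓ := by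
    intro J hJ
    rw [hJJ, mem_filter, mem_powerset] at hJ
    obtain ⟨hJD, hJ1, hJ2, hJr⟩ := hJ
    have hlt := hgJ J hJD hJ1 hJ2 hJr
    have h6 : ∀ e ∈ H.filter (fun e => J ⊆ e), cnt H ℓ (e \ J) ≤ 2 * w^(r - J.card) * NI H ℓ := by
      intro e he
      rw [mem_filter] at he
      have hc : (e \ J).card = r - J.card := by
        rw [card_sdiff_of_subset he.2, hH e he.1]
      have := up (e \ J) (by rw [hc]; omega)
      rwa [hc] at this
    refine (sum_le_sum h6).trans ?_
    rw [sum_const, nsmul_eq_mul]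
    change dg H J * (2 * w^(r - J.card) * NI H ℓ) ≤ _
    rcases Nat.lt_or_ge J.card r with hlt' | hge
    · have hk : 1 ≤ r - J.card := by omega
      have hwp : 0 < w^(r - J.card) := pow_pos hw _
      have hwν : 0 < w * ν := mul_pos hw hν
      calc dg H J * (2 * w^(r - J.card) * NI H ℓ)
          ≤ ν^(r - J.card) * (2 * w^(r - J.card) * NI H ℓ) :=
            mul_le_mul_of_nonneg_right hlt.le (by positivity)
        _ = 2 * (w*ν)^(r - J.card) * NI H ℓ := by rw [mul_pow]; ring
        _ ≤ 2 * (w*ν) * NI H ℓ := by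
            have : (w*ν)^(r - J.card) ≤ (w*ν)^1 := pow_le_pow_of_le_one hwν.le hθ hk
            rw [pow_one] at this
            have h7 := mul_le_mul_of_nonneg_right this (by positivity : 0 ≤ 2 * NI H ℓ)
            linarith
    · have hk : r - J.card = 0 := by omega
      rw [hk, pow_zero] at hlt
      have h0 : dg H J = 0 := by
        unfold dg at hlt ⊢
        have : (H.filter (fun e => J ⊆ e)).card < 1 := by exact_mod_cast hlt
        have : (H.filter (fun e => J ⊆ e)).card = 0 := by omega
        rw [this]; simp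
      rw [h0, zero_mul]
      have hwν : 0 < w * ν := mul_pos hw hν
      positivity
  have h8 : (JJ.card : ℝ) ≤ 2^(2*r-2) := by
    have e : JJ.card ≤ 2^(2*r-2) := by
      refine (card_filter_le _ _).trans ?_
      rw [card_powerset]
      refine Nat.pow_le_pow_right (by norm_num) ?_
      rw [hDu]
      refine (card_union_le _ _).trans ?_
      rw [card_erase_of_mem hx1, card_erase_of_mem hx2, he1, he2]
      omega
    exact_mod_cast e
  have hwν : 0 < w * ν := mul_pos hw hν
  have h9 : ∑ J ∈ JJ, ∑ e ∈ H.filter (fun e => J ⊆ e), cnt H ℓ (e \ J) ≤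
      2^(2*r) * (w*ν) * NI H ℓ := by
    refine (sum_le_sum h5).trans ?_
    rw [sum_const, nsmul_eq_mul]
    calc (JJ.card : ℝ) * (2 * (w*ν) * NI H ℓ) ≤ 2^(2*r-2) * (2 * (w*ν) * NI H ℓ) :=
          mul_le_mul_of_nonneg_right h8 (by positivity)
      _ = (2^(2*r-2) * 2) * (w*ν) * NI H ℓ := by ring
      _ ≤ 2^(2*r) * (w*ν) * NI H ℓ := by
          have : (2:ℝ)^(2*r-2) * 2 ≤ 2^(2*r) := by
            rw [← pow_succ]; exact pow_le_pow_right₀ (by norm_num) (by omega)
          have := mul_le_mul_of_nonneg_right this (by positivity : 0 ≤ (w*ν) * NI H ℓ)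
          linarith
  have h10 : cmp H ℓ (e1.erase x) + cmp H ℓ (e2.erase x) - NI H ℓ ≤ ((P1 ∩ P2).card : ℝ) := by
    have e : (P1 ∪ P2).card + (P1 ∩ P2).card = P1.card + P2.card := card_union_add_card_inter P1 P2
    have e' : (P1 ∪ P2).card ≤ (ind H ℓ).card :=
      card_le_card (union_subset (filter_subset _ _) (filter_subset _ _))
    have e2 : P1.card + P2.card ≤ (ind H ℓ).card + (P1 ∩ P2).card := by omega
    have e3 : (P1.card : ℝ) + (P2.card : ℝ) ≤ ((ind H ℓ).card : ℝ) + ((P1 ∩ P2).card : ℝ) := by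
      exact_mod_cast e2
    unfold cmp NI
    linarith
  have h11 : cmp H ℓ D = (P.card : ℝ) := rfl
  rw [h11]
  linarith

end Pool.Agent.Helper2.DC
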