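import Pool.Agent.Helper2.DC12

/-! Most pairs of edges sharing a vertex are good. -/

namespace Pool.Agent.Helper2.DC

open Finset

set_option linter.unusedSectionVars false
set_option maxHeartbeats 1000000

variable {V : Type*} [Fintype V] [DecidableEq V]

/-- degree sum -/
theorem dg_sum {E : Finset (Finset V)} {r : ℕ} (hE : ∀ e ∈ E, e.card = r) (J : Finset V) :
    ∑ x ∈ Jᶜ, dg E (insert x J) ≤ (r:ℝ) * dg E J := by
  have h : ∑ x ∈ Jᶜ, (E.filter (fun e => insert x J ⊆ e)).card ≤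
      r * (E.filter (fun e => J ⊆ e)).card := by
    rw [← card_sigma, mul_comm, ← smul_eq_mul, ← sum_const]
    have e2 : ∑ e ∈ E.filter (fun e => J ⊆ e), r = ((E.filter (fun e => J ⊆ e)).sigma (fun e => e)).card := by
      rw [card_sigma]
      refine sum_congr rfl (fun e he => (hE e (mem_filter.1 he).1).symm)
    rw [e2]
    refine card_le_card_of_injOn (fun p => ⟨p.2, p.1⟩) ?_ ?_
    · rintro ⟨x, e⟩ hp
      rw [mem_coe, mem_sigma, mem_filter] at hp
      rw [mem_coe, mem_sigma, mem_filter]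
      exact ⟨⟨hp.2.1, (subset_insert _ _).trans hp.2.2⟩, hp.2.2 (mem_insert_self _ _)⟩
    · rintro ⟨x, e⟩ hp ⟨x', e'⟩ hp' heq
      simp only [Sigma.mk.injEq, heq_eq_eq] at heq ⊢
      exact ⟨heq.2, heq.1⟩
  unfold dg
  exact_mod_cast h

theorem dg_sum_one {E : Finset (Finset V)} {r : ℕ} (hE : ∀ e ∈ E, e.card = r) :
    ∑ x : V, dg E {x} = (r:ℝ) * (E.card : ℝ) := by
  unfold dg
  have h : ∑ x : V, (E.filter (fun e => {x} ⊆ e)).card = r * E.card := by
    simp only [card_filter, singleton_subset_iff]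
    rw [sum_comm]
    rw [mul_comm, ← smul_eq_mul, ← sum_const]
    refine sum_congr rfl (fun e he => ?_)
    rw [← card_filter, ← hE e he]
    congr 1
    ext x; simp
  exact_mod_cast h

/-- pairs of edges meeting in a vertex outside `J1 ∪ J2` -/
noncomputable def qq (E : Finset (Finset V)) (J1 J2 : Finset V) : ℝ :=
  ∑ x ∈ (J1 ∪ J2)ᶜ, dg E (insert x J1) * dg E (insert x J2)

theorem qq_comm (E : Finset (Finset V)) (J1 J2 : Finset V) : qq E J1 J2 = qq E J2 J1 := by
  unfold qq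
  rw [union_comm]
  exact sum_congr rfl (fun x _ => mul_comm _ _)

theorem qq_nonneg (E : Finset (Finset V)) (J1 J2 : Finset V) : 0 ≤ qq E J1 J2 :=
  sum_nonneg (fun _ _ => mul_nonneg (dg_nonneg _ _) (dg_nonneg _ _))

theorem qq_le_aux {E : Finset (Finset V)} {r : ℕ} {ν ε lam : ℝ} (hE : ∀ e ∈ E, e.card = r)
    (hν : 0 < ν) (hε : 0 ≤ ε)
    (h1 : ∀ J : Finset V, 1 ≤ J.card → J.card < r → dg E J ≤ lam * ν^(r - J.card))
    (h2 : ∀ J : Finset V, 2 ≤ J.card → J.card < r → dg E J ≤ ε * ν^(r - J.card))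
    {J1 J2 : Finset V} (hJ1 : 1 ≤ J1.card) (hJ2 : 1 ≤ J2.card) (hs : J1.card + J2.card ≤ r)
    (hlt : J1.card + 1 < r) :
    qq E J1 J2 ≤ (r * lam * ε) * (ν^(r-1) * ν^(r - (J1.card + J2.card))) := by
  unfold qq
  have h3 : ∀ x ∈ (J1 ∪ J2)ᶜ, dg E (insert x J1) * dg E (insert x J2) ≤
      (ε * ν^(r - (J1.card+1))) * dg E (insert x J2) := by
    intro x hx
    rw [mem_compl, mem_union, not_or] at hx
    refine mul_le_mul_of_nonneg_right ?_ (dg_nonneg _ _)
    have hc : (insert x J1).card = J1.card + 1 := card_insert_of_notMem hx.1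
    have := h2 (insert x J1) (by rw [hc]; omega) (by rw [hc]; omega)
    rwa [hc] at this
  refine (sum_le_sum h3).trans ?_
  rw [← mul_sum]
  have h4 : ∑ x ∈ (J1 ∪ J2)ᶜ, dg E (insert x J2) ≤ ∑ x ∈ J2ᶜ, dg E (insert x J2) := by
    refine sum_le_sum_of_subset_of_nonneg ?_ (fun _ _ _ => dg_nonneg _ _)
    exact compl_subset_compl.2 subset_union_right
  have h5 := dg_sum hE J2
  have h6 := h1 J2 hJ2 (by omega)
  have hpow : ν^(r-1) * ν^(r - (J1.card + J2.card)) = ν^(r - (J1.card+1)) * ν^(r - J2.card) := by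
    rw [← pow_add, ← pow_add]; congr 1; omega
  rw [hpow]
  have hr0 : (0:ℝ) ≤ (r:ℝ) := Nat.cast_nonneg _
  have hp1 : 0 < ν^(r - (J1.card+1)) := pow_pos hν _
  calc (ε * ν^(r - (J1.card+1))) * ∑ x ∈ (J1 ∪ J2)ᶜ, dg E (insert x J2)
      ≤ (ε * ν^(r - (J1.card+1))) * ((r:ℝ) * (lam * ν^(r - J2.card))) := by
        refine mul_le_mul_of_nonneg_left ?_ (by positivity)
        exact (h4.trans h5).trans (mul_le_mul_of_nonneg_left h6 hr0)
    _ = _ := by ring

theorem qq_le {E : Finset (Finset V)} {r : ℕ} {ν ε lam : ℝ} (hr : 3 ≤ r) (hE : ∀ e ∈ E, e.card = r)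
    (hν : 0 < ν) (hε : 0 ≤ ε)
    (h1 : ∀ J : Finset V, 1 ≤ J.card → J.card < r → dg E J ≤ lam * ν^(r - J.card))
    (h2 : ∀ J : Finset V, 2 ≤ J.card → J.card < r → dg E J ≤ ε * ν^(r - J.card))
    {J1 J2 : Finset V} (hJ1 : 1 ≤ J1.card) (hJ2 : 1 ≤ J2.card) (hs : J1.card + J2.card ≤ r) :
    qq E J1 J2 ≤ (r * lam * ε) * (ν^(r-1) * ν^(r - (J1.card + J2.card))) := by
  by_cases h : J1.card + 1 < r
  · exact qq_le_aux hE hν hε h1 h2 hJ1 hJ2 hs h
  · rw [qq_comm, add_comm J1.card J2.card]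
    exact qq_le_aux hE hν hε h1 h2 hJ2 hJ1 (by omega) (by omega)

/-- edges through `x` -/
def Ex (E : Finset (Finset V)) (x : V) : Finset (Finset V) := E.filter (fun e => {x} ⊆ e)

theorem mem_Ex {E : Finset (Finset V)} {x : V} {e : Finset V} : e ∈ Ex E x ↔ e ∈ E ∧ x ∈ e := by
  simp [Ex]

open Classical in
/-- good pairs at `x` -/
noncomputable def Px (H E : Finset (Finset V)) (r : ℕ) (ν : ℝ) (x : V) :
    Finset (Finset V × Finset V) :=
  (Ex E x ×ˢ Ex E x).filter (fun p => Good H r ν x p.1 p.2)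

theorem mem_Px {H E : Finset (Finset V)} {r : ℕ} {ν : ℝ} {x : V} {p : Finset V × Finset V} :
    p ∈ Px H E r ν x ↔ (p.1 ∈ Ex E x ∧ p.2 ∈ Ex E x) ∧ Good H r ν x p.1 p.2 := by
  classical
  unfold Px; rw [mem_filter, mem_product]

open Classical in
/-- the sets with large degree in `H` -/
noncomputable def JJ (H : Finset (Finset V)) (r : ℕ) (ν : ℝ) : Finset (Finset V) :=
  univ.filter (fun J => J.card ≤ r ∧ ν^(r - J.card) ≤ dg H J)

theorem mem_JJ {H : Finset (Finset V)} {r : ℕ} {ν : ℝ} {J : Finset V} :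
    J ∈ JJ H r ν ↔ J.card ≤ r ∧ ν^(r - J.card) ≤ dg H J := by
  unfold JJ; simp

theorem sum_JJ {H : Finset (Finset V)} {r : ℕ} {ν : ℝ} (hH : ∀ e ∈ H, e.card = r) :
    ∑ J ∈ JJ H r ν, ν^(r - J.card) ≤ 2^r * (H.card : ℝ) := by
  have h1 : ∑ J ∈ JJ H r ν, ν^(r - J.card) ≤ ∑ J : Finset V, dg H J := by
    refine (sum_le_sum (fun J hJ => (mem_JJ.1 hJ).2)).trans ?_
    exact sum_le_sum_of_subset_of_nonneg (subset_univ _) (fun _ _ _ => dg_nonneg _ _)
  have h2 : ∑ J : Finset V, dg H J = 2^r * (H.card : ℝ) := by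
    unfold dg
    have h : ∑ J : Finset V, (H.filter (fun e => J ⊆ e)).card = 2^r * H.card := by
      simp only [card_filter]
      rw [sum_comm, mul_comm, ← smul_eq_mul, ← sum_const]
      refine sum_congr rfl (fun e he => ?_)
      rw [← card_filter, ← hH e he, ← card_powerset]
      congr 1
      ext J; simp
    exact_mod_cast h
  linarith

theorem pair_split {H E : Finset (Finset V)} {r : ℕ} {ν : ℝ} (x : V) :
    (dg E {x})^2 ≤ ((Px H E r ν x).card : ℝ) + ∑ y ∈ ({x} : Finset V)ᶜ, (dg E (insert y {x}))^2 +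
      ∑ J ∈ (JJ H r ν).filter (fun J => x ∉ J), ∑ J1 ∈ J.powerset.filter (fun J1 => J1.Nonempty ∧ (J \ J1).Nonempty),
        dg E (insert x J1) * dg E (insert x (J \ J1)) := by
  classical
  have hcov : Ex E x ×ˢ Ex E x ⊆ (Px H E r ν x ∪ (({x} : Finset V)ᶜ).biUnion (fun y =>
      (E.filter (fun e => insert y {x} ⊆ e)) ×ˢ (E.filter (fun e => insert y {x} ⊆ e)))) ∪
      ((JJ H r ν).filter (fun J => x ∉ J)).biUnion (fun J =>
        (J.powerset.filter (fun J1 => J1.Nonempty ∧ (J \ J1).Nonempty)).biUnion (fun J1 =>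
        (E.filter (fun e => insert x J1 ⊆ e)) ×ˢ (E.filter (fun e => insert x (J \ J1) ⊆ e)))) := by
    rintro ⟨e1, e2⟩ hp
    rw [mem_product] at hp
    obtain ⟨h1, h2⟩ := hp
    simp only at h1 h2
    obtain ⟨h1E, h1x⟩ := mem_Ex.1 h1
    obtain ⟨h2E, h2x⟩ := mem_Ex.1 h2
    rw [mem_union, mem_union]
    by_cases hgood : Good H r ν x e1 e2
    · left; left; exact mem_Px.2 ⟨⟨h1, h2⟩, hgood⟩
    · by_cases hint : e1 ∩ e2 = {x}
      · right
        unfold Good at hgood
        push Not at hgood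
        obtain ⟨J, hJ, hJ1, hJ2, hJr, hJd⟩ := hgood hint
        have hxJ : x ∉ J := fun h => (mem_erase.1 (hJ h)).1 rfl
        have hJsplit : J \ (J ∩ e1) = J ∩ e2 := by
          ext y
          rw [mem_sdiff, mem_inter, mem_inter]
          constructor
          · rintro ⟨hy, hy'⟩
            refine ⟨hy, ?_⟩
            rcases mem_union.1 (mem_erase.1 (hJ hy)).2 with h | h
            · exact absurd ⟨hy, h⟩ hy'
            · exact h
          · rintro ⟨hy, hy'⟩
            refine ⟨hy, fun h => ?_⟩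
            have : y ∈ e1 ∩ e2 := mem_inter.2 ⟨h.2, hy'⟩
            rw [hint, mem_singleton] at this
            exact hxJ (this ▸ hy)
        rw [mem_biUnion]
        refine ⟨J, mem_filter.2 ⟨mem_JJ.2 ⟨hJr, hJd⟩, hxJ⟩, ?_⟩
        rw [mem_biUnion]
        refine ⟨J ∩ e1, mem_filter.2 ⟨mem_powerset.2 inter_subset_left, hJ1, ?_⟩, ?_⟩
        · rw [hJsplit]; exact hJ2
        · rw [mem_product, mem_filter, mem_filter, hJsplit]
          exact ⟨⟨h1E, insert_subset h1x inter_subset_right⟩, ⟨h2E, insert_subset h2x inter_subset_right⟩⟩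
      · left; right
        -- there is another common vertex
        have : ∃ y ∈ e1 ∩ e2, y ≠ x := by
          by_contra hno
          push Not at hno
          apply hint
          ext y
          rw [mem_singleton]
          constructor
          · exact hno y
          · intro h; rw [h]; exact mem_inter.2 ⟨h1x, h2x⟩
        obtain ⟨y, hy, hyx⟩ := this
        obtain ⟨hy1, hy2⟩ := mem_inter.1 hy
        rw [mem_biUnion]
        refine ⟨y, by simp [hyx], ?_⟩
        rw [mem_product, mem_filter, mem_filter]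
        exact ⟨⟨h1E, insert_subset hy1 (singleton_subset_iff.2 h1x)⟩,
          ⟨h2E, insert_subset hy2 (singleton_subset_iff.2 h2x)⟩⟩
  have hcard := (card_le_card hcov).trans ((card_union_le _ _).trans
    (add_le_add_left (card_union_le _ _) _))
  have hb1 : ((({x} : Finset V)ᶜ).biUnion (fun y =>
      (E.filter (fun e => insert y {x} ⊆ e)) ×ˢ (E.filter (fun e => insert y {x} ⊆ e)))).card ≤
      ∑ y ∈ ({x} : Finset V)ᶜ, (E.filter (fun e => insert y {x} ⊆ e)).card *
        (E.filter (fun e => insert y {x} ⊆ e)).card :=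
    card_biUnion_le.trans (sum_le_sum (fun y _ => by rw [card_product]))
  have hb2 : (((JJ H r ν).filter (fun J => x ∉ J)).biUnion (fun J =>
        (J.powerset.filter (fun J1 => J1.Nonempty ∧ (J \ J1).Nonempty)).biUnion (fun J1 =>
        (E.filter (fun e => insert x J1 ⊆ e)) ×ˢ (E.filter (fun e => insert x (J \ J1) ⊆ e))))).card ≤
      ∑ J ∈ (JJ H r ν).filter (fun J => x ∉ J), ∑ J1 ∈ J.powerset.filter (fun J1 => J1.Nonempty ∧ (J \ J1).Nonempty),
        (E.filter (fun e => insert x J1 ⊆ e)).card * (E.filter (fun e => insert x (J \ J1) ⊆ e)).card := by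
    refine card_biUnion_le.trans (sum_le_sum (fun J _ => ?_))
    exact card_biUnion_le.trans (sum_le_sum (fun y _ => by rw [card_product]))
  rw [card_product] at hcard
  have hfin : (Ex E x).card * (Ex E x).card ≤ (Px H E r ν x).card +
      ∑ y ∈ ({x} : Finset V)ᶜ, (E.filter (fun e => insert y {x} ⊆ e)).card *
        (E.filter (fun e => insert y {x} ⊆ e)).card +
      ∑ J ∈ (JJ H r ν).filter (fun J => x ∉ J), ∑ J1 ∈ J.powerset.filter (fun J1 => J1.Nonempty ∧ (J \ J1).Nonempty),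
        (E.filter (fun e => insert x J1 ⊆ e)).card * (E.filter (fun e => insert x (J \ J1) ⊆ e)).card := by
    omega
  have e0 : dg E {x} = ((Ex E x).card : ℝ) := rfl
  rw [e0]
  unfold dg
  simp only [pow_two]
  exact_mod_cast hfin


theorem good_total {H E : Finset (Finset V)} {r : ℕ} {ν ε lam : ℝ} (hr : 3 ≤ r)
    (hEH : E ⊆ H) (hH : ∀ e ∈ H, e.card = r) (hν : 1 ≤ ν) (hε : 0 ≤ ε) (hlam : 0 ≤ lam)
    (h1 : ∀ J : Finset V, 1 ≤ J.card → J.card < r → dg E J ≤ lam * ν^(r - J.card))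
    (h2 : ∀ J : Finset V, 2 ≤ J.card → J.card < r → dg E J ≤ ε * ν^(r - J.card)) :
    ((r:ℝ) * (E.card : ℝ))^2 ≤ (Fintype.card V : ℝ) * (∑ x : V, ((Px H E r ν x).card : ℝ) +
      ε * (r^2 + 4^r * (r * lam)) * (ν^(r-1) * (H.card : ℝ))) := by
  have hE : ∀ e ∈ E, e.card = r := fun e he => hH e (hEH he)
  have hν0 : 0 < ν := by linarith
  have hEHc : (E.card : ℝ) ≤ (H.card : ℝ) := by exact_mod_cast card_le_card hEH
  have hr0 : (0:ℝ) ≤ (r:ℝ) := Nat.cast_nonneg _
  -- Cauchy–Schwarz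
  have hcs : ((r:ℝ) * (E.card : ℝ))^2 ≤ (Fintype.card V : ℝ) * ∑ x : V, (dg E {x})^2 := by
    rw [← dg_sum_one hE]
    refine (sq_sum_le_card_mul_sum_sq).trans (le_of_eq ?_)
    rw [card_univ]
  refine hcs.trans (mul_le_mul_of_nonneg_left ?_ (Nat.cast_nonneg _))
  have hsum : ∑ x : V, (dg E {x})^2 ≤ ∑ x : V, ((Px H E r ν x).card : ℝ) +
      ∑ x : V, ∑ y ∈ ({x} : Finset V)ᶜ, (dg E (insert y {x}))^2 +
      ∑ x : V, ∑ J ∈ (JJ H r ν).filter (fun J => x ∉ J),
        ∑ J1 ∈ J.powerset.filter (fun J1 => J1.Nonempty ∧ (J \ J1).Nonempty),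
        dg E (insert x J1) * dg E (insert x (J \ J1)) := by
    rw [← sum_add_distrib, ← sum_add_distrib]
    exact sum_le_sum (fun x _ => pair_split x)
  -- second term
  have hb : ∑ x : V, ∑ y ∈ ({x} : Finset V)ᶜ, (dg E (insert y {x}))^2 ≤
      ε * r^2 * (ν^(r-1) * (H.card : ℝ)) := by
    have h3 : ∀ x ∈ (univ : Finset V), ∑ y ∈ ({x} : Finset V)ᶜ, (dg E (insert y {x}))^2 ≤
        (ε * ν^(r-2)) * ((r:ℝ) * dg E {x}) := by
      intro x _
      have h4 : ∀ y ∈ ({x} : Finset V)ᶜ, (dg E (insert y {x}))^2 ≤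
          (ε * ν^(r-2)) * dg E (insert y {x}) := by
        intro y hy
        rw [mem_compl] at hy
        have hc : (insert y ({x} : Finset V)).card = 2 := by
          rw [card_insert_of_notMem hy, card_singleton]
        have h5 := h2 (insert y {x}) (by rw [hc]) (by rw [hc]; omega)
        rw [hc] at h5
        rw [pow_two]
        exact mul_le_mul_of_nonneg_right h5 (dg_nonneg _ _)
      refine (sum_le_sum h4).trans ?_
      rw [← mul_sum]
      exact mul_le_mul_of_nonneg_left (dg_sum hE {x}) (by positivity)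
    refine (sum_le_sum h3).trans ?_
    rw [← mul_sum, ← mul_sum, dg_sum_one hE]
    have hp : ν^(r-2) ≤ ν^(r-1) := pow_le_pow_right₀ hν (by omega)
    calc (ε * ν^(r-2)) * ((r:ℝ) * ((r:ℝ) * (E.card : ℝ)))
        = (ε * r^2) * (ν^(r-2) * (E.card : ℝ)) := by ring
      _ ≤ (ε * r^2) * (ν^(r-1) * (H.card : ℝ)) := by
          refine mul_le_mul_of_nonneg_left ?_ (by positivity)
          exact mul_le_mul hp hEHc (Nat.cast_nonneg _) (by positivity)
  -- third term
  have hc : ∑ x : V, ∑ J ∈ (JJ H r ν).filter (fun J => x ∉ J),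
        ∑ J1 ∈ J.powerset.filter (fun J1 => J1.Nonempty ∧ (J \ J1).Nonempty),
        dg E (insert x J1) * dg E (insert x (J \ J1)) ≤
      ε * (4^r * (r * lam)) * (ν^(r-1) * (H.card : ℝ)) := by
    have e1 : ∑ x : V, ∑ J ∈ (JJ H r ν).filter (fun J => x ∉ J),
        ∑ J1 ∈ J.powerset.filter (fun J1 => J1.Nonempty ∧ (J \ J1).Nonempty),
        dg E (insert x J1) * dg E (insert x (J \ J1)) =
        ∑ J ∈ JJ H r ν, ∑ J1 ∈ J.powerset.filter (fun J1 => J1.Nonempty ∧ (J \ J1).Nonempty),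
          qq E J1 (J \ J1) := by
      simp only [sum_filter (s := JJ H r ν)]
      rw [sum_comm]
      refine sum_congr rfl (fun J _ => ?_)
      have : ∀ J1 ∈ J.powerset.filter (fun J1 => J1.Nonempty ∧ (J \ J1).Nonempty),
          qq E J1 (J \ J1) = ∑ x : V, if x ∉ J then dg E (insert x J1) * dg E (insert x (J \ J1)) else 0 := by
        intro J1 hJ1
        rw [mem_filter, mem_powerset] at hJ1
        unfold qq
        rw [union_sdiff_of_subset hJ1.1, ← sum_filter]
        congr 1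
        ext x; simp
      rw [sum_congr rfl this, sum_comm]
      refine sum_congr rfl (fun x _ => ?_)
      by_cases h : x ∈ J <;> simp [h]
    rw [e1]
    have h3 : ∀ J ∈ JJ H r ν, ∑ J1 ∈ J.powerset.filter (fun J1 => J1.Nonempty ∧ (J \ J1).Nonempty),
          qq E J1 (J \ J1) ≤ (2^r * (r * lam * ε) * ν^(r-1)) * ν^(r - J.card) := by
      intro J hJ
      have hJr := (mem_JJ.1 hJ).1
      have h4 : ∀ J1 ∈ J.powerset.filter (fun J1 => J1.Nonempty ∧ (J \ J1).Nonempty),
          qq E J1 (J \ J1) ≤ (r * lam * ε) * (ν^(r-1) * ν^(r - J.card)) := by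
        intro J1 hJ1
        rw [mem_filter, mem_powerset] at hJ1
        obtain ⟨hs, hn1, hn2⟩ := hJ1
        have hcc : J1.card + (J \ J1).card = J.card := by
          rw [card_sdiff_of_subset hs]
          have := card_le_card hs
          omega
        have := qq_le hr hE hν0 hε h1 h2 (card_pos.2 hn1) (card_pos.2 hn2) (by omega)
        rwa [hcc] at this
      refine (sum_le_sum h4).trans ?_
      rw [sum_const, nsmul_eq_mul]
      have h5 : ((J.powerset.filter (fun J1 => J1.Nonempty ∧ (J \ J1).Nonempty)).card : ℝ) ≤ 2^r := by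
        have : (J.powerset.filter (fun J1 => J1.Nonempty ∧ (J \ J1).Nonempty)).card ≤ 2^r := by
          refine (card_filter_le _ _).trans ?_
          rw [card_powerset]
          exact Nat.pow_le_pow_right (by norm_num) hJr
        exact_mod_cast this
      calc ((J.powerset.filter (fun J1 => J1.Nonempty ∧ (J \ J1).Nonempty)).card : ℝ) *
            ((r * lam * ε) * (ν^(r-1) * ν^(r - J.card)))
          ≤ 2^r * ((r * lam * ε) * (ν^(r-1) * ν^(r - J.card))) :=
            mul_le_mul_of_nonneg_right h5 (by positivity)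
        _ = _ := by ring
    refine (sum_le_sum h3).trans ?_
    rw [← mul_sum]
    calc (2^r * (r * lam * ε) * ν^(r-1)) * ∑ J ∈ JJ H r ν, ν^(r - J.card)
        ≤ (2^r * (r * lam * ε) * ν^(r-1)) * (2^r * (H.card : ℝ)) :=
          mul_le_mul_of_nonneg_left (sum_JJ hH) (by positivity)
      _ = ε * (4^r * (r * lam)) * (ν^(r-1) * (H.card : ℝ)) := by
          have : (4:ℝ)^r = 2^r * 2^r := by rw [← mul_pow]; norm_num
          rw [this]; ring
  have : ε * (r^2 + 4^r * (r * lam)) * (ν^(r-1) * (H.card : ℝ)) =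
      ε * r^2 * (ν^(r-1) * (H.card : ℝ)) + ε * (4^r * (r * lam)) * (ν^(r-1) * (H.card : ℝ)) := by ring
  rw [this]
  linarith

end Pool.Agent.Helper2.DC
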