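import Pool.Agent.Helper2.DC13

/-! Many bad vertices. -/

namespace Pool.Agent.Helper2.DC

open Finset

set_option linter.unusedSectionVars false
set_option maxHeartbeats 1000000

variable {V : Type*} [Fintype V] [DecidableEq V]

theorem BI_eq (H : Finset (Finset V)) (ℓ : ℕ) :
    BI H ℓ = ∑ x : V, (((ind H ℓ).filter (fun S => x ∈ bad H S)).card : ℝ) := by
  unfold BI
  have h : ∑ S ∈ ind H ℓ, (bad H S).card = ∑ x : V, ((ind H ℓ).filter (fun S => x ∈ bad H S)).card := by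
    simp only [card_filter]
    rw [sum_comm]
    refine sum_congr rfl (fun S _ => ?_)
    rw [← card_filter]
    congr 1
    ext x; simp
  exact_mod_cast h

theorem Px_bound {H E : Finset (Finset V)} {r ℓ : ℕ} {w ν : ℝ} (hr : 2 ≤ r)
    (hEH : E ⊆ H) (hH : ∀ e ∈ H, e.card = r) (hN : 0 < NI H ℓ)
    (up : ∀ D : Finset V, D.card ≤ 4*r → cnt H ℓ D ≤ 2 * w^D.card * NI H ℓ)
    (lo : ∀ D : Finset V, D.card ≤ 2*r → (w/2)^D.card * cmp H ℓ D ≤ cnt H ℓ D)
    (hw : 0 < w)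
    (hsp : ∀ J : Finset V, 1 ≤ J.card → J.card < r → dg E J * w^(r - J.card) ≤ 1)
    (x : V)
    (hcmp : ∀ p ∈ Px H E r ν x, NI H ℓ / 2 ≤ cmp H ℓ ((p.1 ∪ p.2).erase x)) :
    ((Px H E r ν x).card : ℝ) * (w^(2*r-2) * NI H ℓ) ≤
      2^(9*r) * (((ind H ℓ).filter (fun S => x ∈ bad H S)).card : ℝ) := by
  set F := Px H E r ν x with hF
  have hsm := second_moment F (fun p => (p.1 ∪ p.2).erase x) H ℓ
  set T := (((ind H ℓ).filter (fun S => ∃ p ∈ F, (p.1 ∪ p.2).erase x ⊆ S)).card : ℝ) with hT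
  have hpr : ∀ p ∈ F, (p.1 ∈ H ∧ p.2 ∈ H) ∧ (x ∈ p.1 ∧ x ∈ p.2) ∧ p.1 ∩ p.2 = {x} := by
    intro p hp
    obtain ⟨⟨h1, h2⟩, h3⟩ := mem_Px.1 hp
    exact ⟨⟨hEH (mem_Ex.1 h1).1, hEH (mem_Ex.1 h2).1⟩, ⟨(mem_Ex.1 h1).2, (mem_Ex.1 h2).2⟩, h3.1⟩
  have hcardA : ∀ p ∈ F, ((p.1 ∪ p.2).erase x).card = 2*r-2 := by
    intro p hp
    obtain ⟨⟨h1, h2⟩, ⟨hx1, hx2⟩, h3⟩ := hpr p hp
    rw [card_erase_of_mem (mem_union_left _ hx1)]
    have := card_union_add_card_inter p.1 p.2
    rw [h3, card_singleton, hH _ h1, hH _ h2] at this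
    omega
  have hsplit : ∀ p : Finset V × Finset V, (p.1 ∪ p.2).erase x = p.1.erase x ∪ p.2.erase x := by
    intro p; ext y; simp only [mem_erase, mem_union]; tauto
  -- T bound
  have hTle : T ≤ (((ind H ℓ).filter (fun S => x ∈ bad H S)).card : ℝ) := by
    have : (ind H ℓ).filter (fun S => ∃ p ∈ F, (p.1 ∪ p.2).erase x ⊆ S) ⊆
        (ind H ℓ).filter (fun S => x ∈ bad H S) := by
      intro S hS
      rw [mem_filter] at hS
      obtain ⟨hSi, p, hp, hpS⟩ := hS
      rw [mem_filter]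
      refine ⟨hSi, ?_⟩
      have hSI := (mem_ind.1 hSi).2
      obtain ⟨⟨h1, h2⟩, ⟨hx1, hx2⟩, h3⟩ := hpr p hp
      rw [mem_bad]
      have s1 : p.1 ⊆ insert x S := by
        intro y hy
        by_cases hyx : y = x
        · rw [hyx]; exact mem_insert_self _ _
        · exact mem_insert_of_mem (hpS (mem_erase.2 ⟨hyx, mem_union_left _ hy⟩))
      have s2 : p.2 ⊆ insert x S := by
        intro y hy
        by_cases hyx : y = x
        · rw [hyx]; exact mem_insert_self _ _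
        · exact mem_insert_of_mem (hpS (mem_erase.2 ⟨hyx, mem_union_right _ hy⟩))
      refine ⟨fun hxS => hSI _ h1 ?_, p.1, h1, p.2, h2, ?_, s1, s2⟩
      · rwa [insert_eq_of_mem hxS] at s1
      · intro heq
        rw [← heq, inter_self] at h3
        have := hH _ h1
        rw [h3, card_singleton] at this
        omega
    rw [hT]
    exact_mod_cast card_le_card this
  -- spread hypothesis for the link
  have hspread : ∀ I : Finset V, I.card ≤ r-1 →
      (((Ex E x).filter (fun e => I ⊆ e.erase x)).card : ℝ) * w^((r-1) - I.card) ≤ 1 := by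
    intro I hI
    rcases ((Ex E x).filter (fun e => I ⊆ e.erase x)).eq_empty_or_nonempty with hemp | ⟨e0, he0⟩
    · rw [hemp]; simp
    · rw [mem_filter] at he0
      have hxI : x ∉ I := fun h => (mem_erase.1 (he0.2 h)).1 rfl
      have hc : (insert x I).card = I.card + 1 := card_insert_of_notMem hxI
      have h1 : (((Ex E x).filter (fun e => I ⊆ e.erase x)).card : ℝ) ≤ dg E (insert x I) := by
        unfold dg
        have : (Ex E x).filter (fun e => I ⊆ e.erase x) ⊆ E.filter (fun e => insert x I ⊆ e) := by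
          intro e he
          rw [mem_filter, mem_Ex] at he
          rw [mem_filter]
          exact ⟨he.1.1, insert_subset he.1.2 (he.2.trans (erase_subset _ _))⟩
        exact_mod_cast card_le_card this
      have hwp : 0 < w^((r-1) - I.card) := pow_pos hw _
      by_cases hlt : I.card + 1 < r
      · have h2 := hsp (insert x I) (by rw [hc]; omega) (by rw [hc]; omega)
        rw [hc] at h2
        have e : (r - 1) - I.card = r - (I.card + 1) := by omega
        rw [e] at hwp ⊢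
        exact (mul_le_mul_of_nonneg_right h1 hwp.le).trans h2
      · have e : (r - 1) - I.card = 0 := by omega
        rw [e, pow_zero, mul_one]
        refine h1.trans (dg_le_one (r := r) (fun e he => hH e (hEH he)) ?_)
        rw [hc]; omega
  have hEc : ∀ e ∈ Ex E x, (e.erase x).card = r - 1 := by
    intro e he
    obtain ⟨h1, h2⟩ := mem_Ex.1 he
    rw [card_erase_of_mem h2, hH _ (hEH h1)]
  -- upper bound for the double sum
  have hub : ∑ p ∈ F, ∑ q ∈ F, cnt H ℓ ((p.1 ∪ p.2).erase x ∪ (q.1 ∪ q.2).erase x) ≤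
      (F.card : ℝ) * (2^(5*r) * w^(2*r-2) * NI H ℓ) := by
    have h1 : ∀ p ∈ F, ∑ q ∈ F, cnt H ℓ ((p.1 ∪ p.2).erase x ∪ (q.1 ∪ q.2).erase x) ≤
        2^(5*r) * w^(2*r-2) * NI H ℓ := by
      intro p hp
      set A := (p.1 ∪ p.2).erase x with hA
      have hAc : A.card = 2*r-2 := hcardA p hp
      have h2 : ∀ q ∈ F, cnt H ℓ (A ∪ (q.1 ∪ q.2).erase x) ≤
          (2 * NI H ℓ) * w^((A ∪ q.1.erase x) ∪ q.2.erase x).card := by
        intro q hq
        have h3 := up (A ∪ (q.1 ∪ q.2).erase x) (by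
          have := card_union_le A ((q.1 ∪ q.2).erase x)
          rw [hAc, hcardA q hq] at this
          omega)
        rw [union_assoc, ← hsplit q]
        linarith
      have h4 : ∑ q ∈ F, (2 * NI H ℓ) * w^((A ∪ q.1.erase x) ∪ q.2.erase x).card ≤
          (2 * NI H ℓ) * ∑ e ∈ Ex E x, ∑ e' ∈ Ex E x, w^((A ∪ e.erase x) ∪ e'.erase x).card := by
        rw [← mul_sum]
        refine mul_le_mul_of_nonneg_left ?_ (by positivity)
        rw [← sum_product' (Ex E x) (Ex E x) (fun e e' => w^((A ∪ e.erase x) ∪ e'.erase x).card)]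
        refine sum_le_sum_of_subset_of_nonneg ?_ (fun _ _ _ => by positivity)
        intro q hq
        rw [mem_product]
        exact (mem_Px.1 hq).1
      have h5 : ∀ e ∈ Ex E x, ∑ e' ∈ Ex E x, w^((A ∪ e.erase x) ∪ e'.erase x).card ≤
          2^(3*r) * w^(A ∪ e.erase x).card := by
        intro e he
        refine (spread (Ex E x) (fun e' => e'.erase x) hEc hw hspread (A ∪ e.erase x)).trans ?_
        refine mul_le_mul_of_nonneg_right ?_ (by positivity)
        refine pow_le_pow_right₀ (by norm_num) ?_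
        have := card_union_le A (e.erase x)
        rw [hAc, hEc e he] at this
        omega
      have h6 := spread (Ex E x) (fun e' => e'.erase x) hEc hw hspread A
      rw [hAc] at h6
      calc ∑ q ∈ F, cnt H ℓ (A ∪ (q.1 ∪ q.2).erase x)
          ≤ ∑ q ∈ F, (2 * NI H ℓ) * w^((A ∪ q.1.erase x) ∪ q.2.erase x).card := sum_le_sum h2
        _ ≤ _ := h4
        _ ≤ (2 * NI H ℓ) * ∑ e ∈ Ex E x, 2^(3*r) * w^(A ∪ e.erase x).card :=
            mul_le_mul_of_nonneg_left (sum_le_sum h5) (by positivity)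
        _ = (2 * NI H ℓ) * (2^(3*r) * ∑ e ∈ Ex E x, w^(A ∪ e.erase x).card) := by rw [← mul_sum]
        _ ≤ (2 * NI H ℓ) * (2^(3*r) * (2^(2*r-2) * w^(2*r-2))) := by
            refine mul_le_mul_of_nonneg_left ?_ (by positivity)
            exact mul_le_mul_of_nonneg_left h6 (by positivity)
        _ = (2 * 2^(3*r) * 2^(2*r-2)) * w^(2*r-2) * NI H ℓ := by ring
        _ ≤ 2^(5*r) * w^(2*r-2) * NI H ℓ := by
            have : (2:ℝ) * 2^(3*r) * 2^(2*r-2) ≤ 2^(5*r) := by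
              rw [← pow_succ', ← pow_add]
              exact pow_le_pow_right₀ (by norm_num) (by omega)
            have h7 := mul_le_mul_of_nonneg_right this (by positivity : 0 ≤ w^(2*r-2) * NI H ℓ)
            linarith
    refine (sum_le_sum h1).trans (le_of_eq ?_)
    rw [sum_const, nsmul_eq_mul]
  -- lower bound for the sum
  have hlb : (F.card : ℝ) * ((w/2)^(2*r-2) * (NI H ℓ / 2)) ≤ ∑ p ∈ F, cnt H ℓ ((p.1 ∪ p.2).erase x) := by
    have h1 : ∀ p ∈ F, (w/2)^(2*r-2) * (NI H ℓ / 2) ≤ cnt H ℓ ((p.1 ∪ p.2).erase x) := by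
      intro p hp
      have h2 := lo ((p.1 ∪ p.2).erase x) (by rw [hcardA p hp]; omega)
      rw [hcardA p hp] at h2
      refine le_trans ?_ h2
      exact mul_le_mul_of_nonneg_left (hcmp p hp) (by positivity)
    refine le_trans (le_of_eq ?_) (sum_le_sum h1)
    rw [sum_const, nsmul_eq_mul]
  have hT0 : 0 ≤ T := Nat.cast_nonneg _
  rcases F.eq_empty_or_nonempty with hFe | hFne
  · rw [hFe]; simp
  have hF0 : 0 < (F.card : ℝ) := by exact_mod_cast card_pos.2 hFne
  have hwp : 0 < w^(2*r-2) := pow_pos hw _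
  have h5 : ((F.card : ℝ) * ((w/2)^(2*r-2) * (NI H ℓ / 2)))^2 ≤
      T * ((F.card : ℝ) * (2^(5*r) * w^(2*r-2) * NI H ℓ)) := by
    calc ((F.card : ℝ) * ((w/2)^(2*r-2) * (NI H ℓ / 2)))^2
        ≤ (∑ p ∈ F, cnt H ℓ ((p.1 ∪ p.2).erase x))^2 := pow_le_pow_left₀ (by positivity) hlb 2
      _ ≤ T * ∑ p ∈ F, ∑ q ∈ F, cnt H ℓ ((p.1 ∪ p.2).erase x ∪ (q.1 ∪ q.2).erase x) := hsm
      _ ≤ _ := mul_le_mul_of_nonneg_left hub hT0
  have h6 : (F.card : ℝ) * (w^(2*r-2) * NI H ℓ) ≤ 2^(9*r) * T := by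
    set g : ℝ := 2^(2*r-2) with hg
    have hg0 : 0 < g := by positivity
    have e1 : ((F.card : ℝ) * ((w/2)^(2*r-2) * (NI H ℓ / 2)))^2 =
        ((F.card : ℝ) * (w^(2*r-2) * NI H ℓ)) * (((F.card : ℝ) * (w^(2*r-2) * NI H ℓ)) / (4 * g^2)) := by
      rw [div_pow]; field_simp; ring
    have e2 : T * ((F.card : ℝ) * (2^(5*r) * w^(2*r-2) * NI H ℓ)) =
        (T * (2^(5*r) * (4 * g^2))) * (((F.card : ℝ) * (w^(2*r-2) * NI H ℓ)) / (4 * g^2)) := by
      field_simp
    rw [e1, e2] at h5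
    have h7 := le_of_mul_le_mul_right h5 (by positivity)
    have h8 : (2:ℝ)^(5*r) * (4 * g^2) ≤ 2^(9*r) := by
      have : (4:ℝ) * g^2 = 2^(2 + (2*r-2)*2) := by
        rw [pow_add, pow_mul, hg]; norm_num
      rw [this, ← pow_add]
      exact pow_le_pow_right₀ (by norm_num) (by omega)
    calc _ ≤ T * (2^(5*r) * (4 * g^2)) := h7
      _ ≤ T * 2^(9*r) := mul_le_mul_of_nonneg_left h8 hT0
      _ = _ := mul_comm _ _
  exact h6.trans (mul_le_mul_of_nonneg_left hTle (by positivity))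

theorem BI_lower {H E : Finset (Finset V)} {r ℓ : ℕ} {w ν : ℝ} (hr : 2 ≤ r)
    (hEH : E ⊆ H) (hH : ∀ e ∈ H, e.card = r) (hN : 0 < NI H ℓ)
    (up : ∀ D : Finset V, D.card ≤ 4*r → cnt H ℓ D ≤ 2 * w^D.card * NI H ℓ)
    (lo : ∀ D : Finset V, D.card ≤ 2*r → (w/2)^D.card * cmp H ℓ D ≤ cnt H ℓ D)
    (hw : 0 < w)
    (hsp : ∀ J : Finset V, 1 ≤ J.card → J.card < r → dg E J * w^(r - J.card) ≤ 1)
    (hcmp : ∀ x : V, ∀ p ∈ Px H E r ν x, NI H ℓ / 2 ≤ cmp H ℓ ((p.1 ∪ p.2).erase x)) :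
    (∑ x : V, ((Px H E r ν x).card : ℝ)) * (w^(2*r-2) * NI H ℓ) ≤ 2^(9*r) * BI H ℓ := by
  rw [BI_eq, sum_mul, mul_sum]
  exact sum_le_sum (fun x _ => Px_bound hr hEH hH hN up lo hw hsp x (hcmp x))

end Pool.Agent.Helper2.DC
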