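import Pool.Agent.Helper2.DC14

/-! Case 1: many edges with a reduced subset. -/

namespace Pool.Agent.Helper2.DC

open Finset

set_option linter.unusedSectionVars false
set_option maxHeartbeats 1000000

variable {V : Type*} [Fintype V] [DecidableEq V]

theorem sum_bl_le (H : Finset (Finset V)) (s : ℕ) :
    ∑ S ∈ ind H s, ((bl H S).card : ℝ) ≤ ∑ e ∈ H, ∑ x ∈ e, cnt H s (e.erase x) := by
  unfold cnt
  have h : ∑ S ∈ ind H s, (bl H S).card ≤
      ∑ e ∈ H, ∑ x ∈ e, ((ind H s).filter (fun S => e.erase x ⊆ S)).card := by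
    have h1 : ∀ S ∈ ind H s, (bl H S).card ≤
        ∑ e ∈ H, ∑ x ∈ e, (if e.erase x ⊆ S then 1 else 0) := by
      intro S hS
      have hSI := (mem_ind.1 hS).2
      have hcov : bl H S ⊆ H.biUnion (fun e => e.filter (fun x => e.erase x ⊆ S)) := by
        intro x hx
        obtain ⟨hxS, hnI⟩ := mem_bl.1 hx
        unfold Ind at hnI
        push Not at hnI
        obtain ⟨e, he, hes⟩ := hnI
        rw [mem_biUnion]
        refine ⟨e, he, mem_filter.2 ⟨?_, ?_⟩⟩
        · by_contra hxe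
          refine hSI e he (fun y hy => ?_)
          rcases mem_insert.1 (hes hy) with h | h
          · exact absurd (h ▸ hy) hxe
          · exact h
        · intro y hy
          rcases mem_insert.1 (hes (mem_erase.1 hy).2) with h | h
          · exact absurd h (mem_erase.1 hy).1
          · exact h
      refine (card_le_card hcov).trans (card_biUnion_le.trans (le_of_eq ?_))
      refine sum_congr rfl (fun e _ => ?_)
      rw [card_filter]
    refine (sum_le_sum h1).trans (le_of_eq ?_)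
    rw [sum_comm]
    refine sum_congr rfl (fun e _ => ?_)
    rw [sum_comm]
    refine sum_congr rfl (fun x _ => ?_)
    rw [card_filter]
  exact_mod_cast h

theorem beta_bl {H : Finset (Finset V)} {s : ℕ} (hpos : 0 < NI H s) (hn : 0 < Fintype.card V) :
    beta H s * ((Fintype.card V : ℝ) * NI H s) = (s:ℝ) * NI H s + ∑ S ∈ ind H s, ((bl H S).card : ℝ) := by
  have hn' : (0:ℝ) < (Fintype.card V : ℝ) := by exact_mod_cast hn
  have h1 := beta_eq hpos hn'
  rw [← sum_ext_real] at h1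
  have h2 : ∀ S ∈ ind H s, ((bl H S).card : ℝ) = (Fintype.card V : ℝ) - s - ((ext H S).card : ℝ) := by
    intro S hS
    have := card_split H S
    rw [(mem_ind.1 hS).1] at this
    rw [← this]; push_cast; ring
  rw [sum_congr rfl h2, sum_sub_distrib, h1, sum_const, nsmul_eq_mul]
  change _ = (s:ℝ) * NI H s + (NI H s * ((Fintype.card V : ℝ) - s) - _)
  ring

/-- going up `d` levels -/
theorem NI_up {H : Finset (Finset V)} {ℓ : ℕ} {B : ℝ} (hn : 0 < Fintype.card V)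
    (hB0 : 0 ≤ B) (hB1 : B ≤ 1) (d : ℕ)
    (hB : ∀ s, ℓ ≤ s → s < ℓ + d → beta H s ≤ B) (hpos : 0 < NI H (ℓ+d)) :
    (Fintype.card V : ℝ)^d * (1 - (d:ℝ) * B) * NI H ℓ ≤ (((ℓ+1).ascFactorial d : ℕ) : ℝ) * NI H (ℓ+d) := by
  have hn' : (0:ℝ) < (Fintype.card V : ℝ) := by exact_mod_cast hn
  induction d with
  | zero => simp
  | succ d ih =>
    have hp : 0 < NI H (ℓ + d) := NI_pos_of_le (by omega) hpos
    have ih' := ih (fun s h1 h2 => hB s h1 (by omega)) hp
    have hb := beta_eq hp hn'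
    have hbB := hB (ℓ+d) (by omega) (by omega)
    have h1 : (Fintype.card V : ℝ) * NI H (ℓ+d) * (1 - B) ≤ (((ℓ+d : ℕ):ℝ)+1) * NI H (ℓ+d+1) := by
      rw [hb]
      exact mul_le_mul_of_nonneg_left (by linarith) (by positivity)
    have hasc : (((ℓ+1).ascFactorial (d+1) : ℕ) : ℝ) = (((ℓ+d : ℕ):ℝ)+1) * (((ℓ+1).ascFactorial d : ℕ) : ℝ) := by
      rw [Nat.ascFactorial_succ]; push_cast; ring
    rw [hasc]
    have hdB0 : (0:ℝ) ≤ (d:ℝ) * B := by positivity
    have h5 : (1 - ((d+1 : ℕ):ℝ) * B) ≤ (1 - (d:ℝ)*B) * (1 - B) := by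
      push_cast; nlinarith
    have hNl := NI_nonneg H ℓ
    calc (Fintype.card V : ℝ)^(d+1) * (1 - ((d+1 : ℕ):ℝ) * B) * NI H ℓ
        ≤ (Fintype.card V : ℝ)^(d+1) * ((1 - (d:ℝ)*B) * (1 - B)) * NI H ℓ := by
          refine mul_le_mul_of_nonneg_right ?_ hNl
          exact mul_le_mul_of_nonneg_left h5 (by positivity)
      _ = ((Fintype.card V : ℝ) * (1 - B)) * ((Fintype.card V : ℝ)^d * (1 - (d:ℝ)*B) * NI H ℓ) := by ring
      _ ≤ ((Fintype.card V : ℝ) * (1 - B)) * ((((ℓ+1).ascFactorial d : ℕ) : ℝ) * NI H (ℓ+d)) := by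
          refine mul_le_mul_of_nonneg_left ih' (mul_nonneg hn'.le (by linarith))
      _ = (((ℓ+1).ascFactorial d : ℕ) : ℝ) * ((Fintype.card V : ℝ) * NI H (ℓ+d) * (1 - B)) := by ring
      _ ≤ (((ℓ+1).ascFactorial d : ℕ) : ℝ) * ((((ℓ+d : ℕ):ℝ)+1) * NI H (ℓ+d+1)) :=
          mul_le_mul_of_nonneg_left h1 (by positivity)
      _ = _ := by rw [← add_assoc]; ring

theorem s_le_choose {s k : ℕ} (hk : 1 ≤ k) (hks : k ≤ s) : s ≤ k * s.choose k := by
  have h := Nat.add_one_mul_choose_eq (s-1) (k-1)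
  have e1 : (s-1) + 1 = s := by omega
  have e2 : (k-1) + 1 = k := by omega
  rw [e1, e2] at h
  have h2 : 1 ≤ (s-1).choose (k-1) := Nat.choose_pos (by omega)
  calc s = s * 1 := (mul_one s).symm
    _ ≤ s * (s-1).choose (k-1) := Nat.mul_le_mul_left _ h2
    _ = s.choose k * k := h
    _ = _ := mul_comm _ _

/-- Case 1 -/
theorem case1 {H E : Finset (Finset V)} {r ℓ : ℕ} {c B : ℝ} (hr : 2 ≤ r)
    (hEH : E ⊆ H) (hH : ∀ e ∈ H, e.card = r) (hn : r ≤ Fintype.card V)
    (hB0 : 0 ≤ B) (hB1 : ((r:ℝ)-1) * B ≤ 1/2) (hc : 0 ≤ c)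
    (hB : ∀ s, ℓ ≤ s → s < ℓ + (r-1) → beta H s ≤ B) (hpos : 0 < NI H (ℓ+(r-1)))
    (hE : ∀ e ∈ H, e ∉ E → ∃ J ⊆ e, J.Nonempty ∧ J ≠ e ∧ cmp H ℓ J ≤ (1-c) * NI H ℓ)
    (hcard : 2 * (E.card : ℝ) ≤ (H.card : ℝ)) :
    uu H r (ℓ+(r-1)) * (1 - ((r:ℝ)-1) * B) ≤
      (H.card : ℝ) / ((Fintype.card V).choose r : ℝ) * (1 - c / (2*r)) + r / (Fintype.card V : ℝ) := by
  have hn0 : 0 < Fintype.card V := by omega
  have hn' : (0:ℝ) < (Fintype.card V : ℝ) := by exact_mod_cast hn0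
  set n : ℝ := (Fintype.card V : ℝ) with hnn
  have hr0 : (0:ℝ) < (r:ℝ) := by
    have : 0 < r := by omega
    exact_mod_cast this
  have hr1 : ((r-1 : ℕ) : ℝ) = (r:ℝ) - 1 := by rw [Nat.cast_sub (by omega)]; simp
  have hr2 : (2:ℝ) ≤ (r:ℝ) := by exact_mod_cast hr
  have hBle : B ≤ 1 := by nlinarith
  set s := ℓ + (r-1) with hs
  have hNs := hpos
  have hNl : 0 < NI H ℓ := NI_pos_of_le (by omega) hpos
  -- sum over edges
  have h1 : ∀ e ∈ H, ∑ x ∈ e, cnt H s (e.erase x) ≤ (r:ℝ) * NI H ℓ - (if e ∈ E then 0 else c * NI H ℓ) := by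
    intro e he
    have hce : ∀ x ∈ e, cnt H s (e.erase x) = cmp H ℓ (e.erase x) := by
      intro x hx
      have hcx : (e.erase x).card = r - 1 := by rw [card_erase_of_mem hx, hH e he]
      rw [← cnt_eq_cmp, hcx]
    rw [sum_congr rfl hce]
    by_cases heE : e ∈ E
    · rw [if_pos heE, sub_zero]
      refine (sum_le_sum (fun x _ => cmp_le_NI H ℓ (e.erase x))).trans (le_of_eq ?_)
      rw [sum_const, nsmul_eq_mul, hH e he]
    · rw [if_neg heE]
      obtain ⟨J, hJe, hJne, hJe', hJc⟩ := hE e he heE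
      obtain ⟨x0, hx0, hx0J⟩ : ∃ x ∈ e, x ∉ J := by
        by_contra hno
        push Not at hno
        exact hJe' (subset_antisymm hJe hno)
      rw [← add_sum_erase e _ hx0]
      have h2 : cmp H ℓ (e.erase x0) ≤ (1-c) * NI H ℓ := by
        refine (cmp_anti H ℓ ?_).trans hJc
        intro y hy
        exact mem_erase.2 ⟨fun h => hx0J (h ▸ hy), hJe hy⟩
      have h3 : ∑ x ∈ e.erase x0, cmp H ℓ (e.erase x) ≤ ((r:ℝ) - 1) * NI H ℓ := by
        refine (sum_le_sum (fun x _ => cmp_le_NI H ℓ (e.erase x))).trans (le_of_eq ?_)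
        rw [sum_const, nsmul_eq_mul, card_erase_of_mem hx0, hH e he, hr1]
      linarith
  have h2 : ∑ e ∈ H, ∑ x ∈ e, cnt H s (e.erase x) ≤ (r:ℝ) * (H.card : ℝ) * (1 - c/(2*r)) * NI H ℓ := by
    refine (sum_le_sum h1).trans ?_
    rw [sum_sub_distrib, sum_const, nsmul_eq_mul]
    have e1 : ∑ e ∈ H, (if e ∈ E then (0:ℝ) else c * NI H ℓ) = ((H.card : ℝ) - (E.card : ℝ)) * (c * NI H ℓ) := by
      have : ∑ e ∈ H, (if e ∈ E then (0:ℝ) else c * NI H ℓ) = ∑ e ∈ H.filter (fun e => e ∉ E), c * NI H ℓ := by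
        rw [sum_filter]
        refine sum_congr rfl (fun e _ => ?_)
        by_cases h : e ∈ E <;> simp [h]
      rw [this, sum_const, nsmul_eq_mul]
      congr 1
      have e2 : H.filter (fun e => e ∉ E) = H \ E := by ext e; simp
      rw [e2, card_sdiff_of_subset hEH, Nat.cast_sub (card_le_card hEH)]
    rw [e1]
    have e3 : (r:ℝ) * (H.card : ℝ) * (1 - c/(2*r)) * NI H ℓ = (H.card : ℝ) * ((r:ℝ) * NI H ℓ) -
        ((H.card : ℝ) / 2) * (c * NI H ℓ) := by field_simp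
    rw [e3]
    have h4 : ((H.card : ℝ) / 2) * (c * NI H ℓ) ≤ ((H.card : ℝ) - (E.card : ℝ)) * (c * NI H ℓ) :=
      mul_le_mul_of_nonneg_right (by linarith) (by positivity)
    linarith
  have h3 := beta_bl hNs hn0
  have h4 := sum_bl_le H s
  have h5 := NI_up (d := r-1) hn0 hB0 hBle hB hpos
  rw [← hnn, hr1, ← hs] at h5
  rw [← hnn] at h3
  have hasc : (((ℓ+1).ascFactorial (r-1) : ℕ) : ℝ) = ((r-1).factorial : ℝ) * (s.choose (r-1) : ℝ) := by
    rw [Nat.ascFactorial_eq_factorial_mul_choose]; push_cast; rfl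
  rw [hasc] at h5
  have hC : (0:ℝ) < (s.choose (r-1) : ℝ) := by exact_mod_cast Nat.choose_pos (by omega)
  set C : ℝ := (s.choose (r-1) : ℝ) with hCdef
  set f : ℝ := ((r-1).factorial : ℝ) with hf
  have hf0 : 0 < f := by rw [hf]; exact_mod_cast Nat.factorial_pos _
  set q : ℝ := 1 - ((r:ℝ)-1) * B with hq
  have hq0 : 0 < q := by rw [hq]; linarith
  have hq1 : q ≤ 1 := by
    rw [hq]
    have : 0 ≤ ((r:ℝ)-1) * B := mul_nonneg (by linarith) hB0
    linarith
  have hc1 : 0 ≤ (H.card : ℝ) := Nat.cast_nonneg _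
  -- sign of the factor
  have hsum0 : 0 ≤ (r:ℝ) * (H.card : ℝ) * (1 - c/(2*r)) * NI H ℓ :=
    le_trans (sum_nonneg (fun e _ => sum_nonneg (fun x _ => cnt_nonneg _ _ _))) h2
  have hY : 0 ≤ (r:ℝ) * (H.card : ℝ) * (1 - c/(2*r)) := by
    by_contra hneg
    push Not at hneg
    have := mul_neg_of_neg_of_pos hneg hNl
    linarith
  set Y : ℝ := (r:ℝ) * (H.card : ℝ) * (1 - c/(2*r)) with hYdef
  -- combine: beta * n * NI s ≤ s NI s + Y NI ℓ
  have h6 : beta H s * (n * NI H s) ≤ (s:ℝ) * NI H s + Y * NI H ℓ := by linarith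
  have h7 : n^(r-1) * q * (Y * NI H ℓ) ≤ Y * (f * C * NI H s) := by
    calc n^(r-1) * q * (Y * NI H ℓ) = Y * (n^(r-1) * q * NI H ℓ) := by ring
      _ ≤ _ := mul_le_mul_of_nonneg_left h5 hY
  have h8 : beta H s * q * n^r ≤ (s:ℝ) * n^(r-1) + Y * f * C := by
    have hn1 : 0 < n^(r-1) := by positivity
    have e : n^r = n * n^(r-1) := by
      rw [← pow_succ']; congr 1; omega
    have h9 : (beta H s * q * n^r) * NI H s ≤ ((s:ℝ) * n^(r-1) + Y * f * C) * NI H s := by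
      calc (beta H s * q * n^r) * NI H s = (n^(r-1) * q) * (beta H s * (n * NI H s)) := by
            rw [e]; ring
        _ ≤ (n^(r-1) * q) * ((s:ℝ) * NI H s + Y * NI H ℓ) :=
            mul_le_mul_of_nonneg_left h6 (by positivity)
        _ = q * ((s:ℝ) * n^(r-1) * NI H s) + n^(r-1) * q * (Y * NI H ℓ) := by ring
        _ ≤ 1 * ((s:ℝ) * n^(r-1) * NI H s) + Y * (f * C * NI H s) := by
            refine add_le_add ?_ h7
            exact mul_le_mul_of_nonneg_right hq1 (by positivity)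
        _ = _ := by ring
    exact le_of_mul_le_mul_right h9 hNs
  -- divide by C n^r
  have hsC : (s:ℝ) ≤ (r:ℝ) * C := by
    have h10 : s ≤ (r-1) * s.choose (r-1) := s_le_choose (by omega) (by omega)
    have h11 : (s:ℝ) ≤ ((r:ℝ)-1) * C := by
      rw [← hr1, hCdef]; exact_mod_cast h10
    nlinarith
  have hfac : ((r.factorial : ℕ) : ℝ) = (r:ℝ) * f := by
    rw [hf]
    have : r.factorial = r * (r-1).factorial := by
      rw [Nat.mul_factorial_pred (by omega)]
    rw [this]; push_cast; rfl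
  have hchoose : (((Fintype.card V).choose r : ℕ) : ℝ) ≤ n^r / (r.factorial : ℝ) := by
    exact Nat.choose_le_pow_div r (Fintype.card V)
  have hchpos : (0:ℝ) < (((Fintype.card V).choose r : ℕ) : ℝ) := by
    exact_mod_cast Nat.choose_pos hn
  unfold uu
  rw [← hCdef]
  have hnr : 0 < n^r := by positivity
  have h12 : beta H s / C * q ≤ (r:ℝ) / n + Y * f / n^r := by
    rw [div_mul_eq_mul_div, div_le_iff₀ hC]
    have e : n^r = n * n^(r-1) := by
      rw [← pow_succ']; congr 1; omega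
    have h13 : beta H s * q ≤ ((s:ℝ) * n^(r-1) + Y * f * C) / n^r := by
      rw [le_div_iff₀ hnr]; exact h8
    refine h13.trans ?_
    have h14 : ((s:ℝ) * n^(r-1) + Y * f * C) / n^r = (s:ℝ) / n + Y * f * C / n^r := by
      rw [add_div]; congr 1
      rw [e]; field_simp
    rw [h14]
    have h15 : (s:ℝ) / n ≤ (r:ℝ) * C / n := div_le_div_of_nonneg_right hsC hn'.le
    have h16 : ((r:ℝ) / n + Y * f / n^r) * C = (r:ℝ) * C / n + Y * f * C / n^r := by ring
    rw [h16]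
    linarith
  have h17 : Y * f / n^r ≤ (H.card : ℝ) / (((Fintype.card V).choose r : ℕ) : ℝ) * (1 - c/(2*r)) := by
    have hfacpos : (0:ℝ) < (r.factorial : ℝ) := by exact_mod_cast Nat.factorial_pos _
    have e1 : Y * f / n^r = ((H.card : ℝ) * (1 - c/(2*r))) * ((r.factorial : ℝ) / n^r) := by
      rw [hYdef, hfac]; ring
    have e2 : (H.card : ℝ) / (((Fintype.card V).choose r : ℕ) : ℝ) * (1 - c/(2*r)) =
        ((H.card : ℝ) * (1 - c/(2*r))) * (1 / (((Fintype.card V).choose r : ℕ) : ℝ)) := by ring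
    rw [e1, e2]
    have hY2 : 0 ≤ (H.card : ℝ) * (1 - c/(2*r)) := by
      have : Y = (r:ℝ) * ((H.card : ℝ) * (1 - c/(2*r))) := by rw [hYdef]; ring
      rw [this] at hY
      exact nonneg_of_mul_nonneg_right hY hr0
    refine mul_le_mul_of_nonneg_left ?_ hY2
    rw [div_le_div_iff₀ hnr hchpos]
    have := (le_div_iff₀ hfacpos).1 hchoose
    linarith
  linarith

end Pool.Agent.Helper2.DC
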