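import Pool.Agent.Helper2.DC15

/-! The dichotomy at one level. -/

namespace Pool.Agent.Helper2.DC

open Finset

set_option linter.unusedSectionVars false
set_option maxHeartbeats 1000000

variable {V : Type*} [Fintype V] [DecidableEq V]

/-- constant -/
noncomputable def C1 (r : ℕ) : ℝ := 2^(3*r+1) * (8 * (r:ℝ)^2 * 4^r)
/-- constant -/
noncomputable def ep (r : ℕ) : ℝ := 1 / (2^(r+4) * ((r:ℝ) + 4^r * C1 r))

theorem C1_ge {r : ℕ} (hr : 3 ≤ r) : (2:ℝ)^(3*r+1) ≤ C1 r := by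
  unfold C1
  have h1 : (1:ℝ) ≤ 8 * (r:ℝ)^2 * 4^r := by
    have h2 : (1:ℝ) ≤ (r:ℝ) := by exact_mod_cast (by omega : 1 ≤ r)
    have h3 : (1:ℝ) ≤ (r:ℝ)^2 := one_le_pow₀ h2
    have h4 : (1:ℝ) ≤ 4^r := one_le_pow₀ (by norm_num)
    nlinarith
  have h5 : (0:ℝ) < 2^(3*r+1) := by positivity
  nlinarith

theorem C1_pos {r : ℕ} (hr : 3 ≤ r) : 0 < C1 r := lt_of_lt_of_le (by positivity) (C1_ge hr)

theorem ep_pos {r : ℕ} (hr : 3 ≤ r) : 0 < ep r := by
  unfold ep
  have := C1_pos hr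
  positivity

theorem ep_le {r : ℕ} (hr : 3 ≤ r) : ep r ≤ 1/16 := by
  unfold ep
  have h1 := C1_pos hr
  have h2 : (3:ℝ) ≤ (r:ℝ) := by exact_mod_cast hr
  apply one_div_le_one_div_of_le (by norm_num)
  have h3 : (16:ℝ) ≤ 2^(r+4) := by
    calc (16:ℝ) = 2^4 := by norm_num
      _ ≤ 2^(r+4) := pow_le_pow_right₀ (by norm_num) (by omega)
  have h4 : (0:ℝ) ≤ 4^r * C1 r := by positivity
  nlinarith

theorem ep_le_C1 {r : ℕ} (hr : 3 ≤ r) : ep r ≤ C1 r := by
  have h1 := ep_le hr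
  have h2 := C1_ge hr
  have h3 : (1:ℝ) ≤ 2^(3*r+1) := one_le_pow₀ (by norm_num)
  linarith

theorem ep_id {r : ℕ} (hr : 3 ≤ r) : ep r * ((r:ℝ)^2 + 4^r * (r * C1 r)) = r / 2^(r+4) := by
  unfold ep
  have h1 := C1_pos hr
  have h2 : (3:ℝ) ≤ (r:ℝ) := by exact_mod_cast hr
  have h3 : (0:ℝ) < (r:ℝ) + 4^r * C1 r := by positivity
  field_simp

theorem level {H : Finset (Finset V)} {r ℓ : ℕ} {M n ν w θ : ℝ} (hr : 3 ≤ r)
    (hH : ∀ e ∈ H, e.card = r) (hnr : r ≤ Fintype.card V) (hn : n = (Fintype.card V : ℝ))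
    (hM : 0 < M) (hν : ν = n / M) (hw : w = (ℓ:ℝ) / n) (hθ : θ = (ℓ:ℝ) / M)
    (hℓ : 8 * r ≤ ℓ) (hθ1 : θ * C1 r ≤ ep r) (hMn : M ≤ n) (hw2 : w ≤ 1/2)
    (hB : ∀ s, r - 1 ≤ s → s < ℓ + (r-1) → beta H s ≤ 4^r * θ^(r-1))
    (hpos : 0 < NI H (ℓ+(r-1)))
    (hcard : n * ν^(r-1) ≤ 2^(r+1) * r * (H.card : ℝ)) :
    (uu H r (ℓ+(r-1)) ≤ (H.card : ℝ) / ((Fintype.card V).choose r : ℝ) *
        (1 - 2*r*(4^r*θ^(r-1))) + 2*r/n) ∨
    θ^(2*r-2) * (n * NI H ℓ) ≤ 2^(11*r+5) * BI H ℓ := by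
  classical
  have hr3 : (3:ℝ) ≤ (r:ℝ) := by exact_mod_cast hr
  have hn0 : 0 < Fintype.card V := by omega
  have hn' : 0 < n := by rw [hn]; exact_mod_cast hn0
  have hν0 : 0 < ν := by rw [hν]; positivity
  have hν1 : 1 ≤ ν := by rw [hν, le_div_iff₀ hM]; linarith
  have hℓ0 : (0:ℝ) < (ℓ:ℝ) := by
    have : 0 < ℓ := by omega
    exact_mod_cast this
  have hw0 : 0 < w := by rw [hw]; positivity
  have hθ0 : 0 < θ := by rw [hθ]; positivity
  have hwν : w * ν = θ := by rw [hw, hν, hθ]; field_simp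
  have hC1 := C1_pos hr
  have hC1g := C1_ge hr
  have hep := ep_pos hr
  have hep2 := ep_le hr
  -- θ small
  have hC116 : (16:ℝ) ≤ C1 r := by
    have : (16:ℝ) ≤ 2^(3*r+1) := by
      calc (16:ℝ) = 2^4 := by norm_num
        _ ≤ 2^(3*r+1) := pow_le_pow_right₀ (by norm_num) (by omega)
    linarith
  have hθle1 : θ ≤ 1 := by
    have := mul_le_mul_of_nonneg_left hC116 hθ0.le
    linarith
  set B : ℝ := 4^r * θ^(r-1) with hBdef
  have hB0 : 0 < B := by positivity
  set c : ℝ := 8 * (r:ℝ)^2 * B with hc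
  have hc0 : 0 < c := by positivity
  have hcC1 : c * 2^(3*r+1) = C1 r * θ^(r-1) := by
    rw [hc, hBdef]; unfold C1; ring
  have hθr : θ^(r-1) = θ * θ^(r-2) := by
    rw [← pow_succ']; congr 1; omega
  have hθr2 : θ^(r-2) ≤ 1 := pow_le_one₀ hθ0.le hθle1
  have hθr2p : 0 < θ^(r-2) := by positivity
  have hC1θ : C1 r * θ^(r-1) ≤ ep r * θ^(r-2) := by
    rw [hθr]
    calc C1 r * (θ * θ^(r-2)) = (θ * C1 r) * θ^(r-2) := by ring
      _ ≤ ep r * θ^(r-2) := mul_le_mul_of_nonneg_right hθ1 hθr2p.le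
  have hC1θ' : C1 r * θ^(r-1) ≤ 1/16 := by
    calc C1 r * θ^(r-1) ≤ ep r * θ^(r-2) := hC1θ
      _ ≤ ep r * 1 := mul_le_mul_of_nonneg_left hθr2 hep.le
      _ ≤ 1/16 := by linarith
  have h2r1 : (1:ℝ) ≤ 2^(3*r+1) := one_le_pow₀ (by norm_num)
  have hc16 : c ≤ 1/16 := by
    have := mul_le_mul_of_nonneg_left h2r1 hc0.le
    linarith
  have h8rB : 8 * r * B ≤ c := by
    rw [hc]
    refine mul_le_mul_of_nonneg_right ?_ hB0.le
    have h1 : (r:ℝ) * 1 ≤ r * r := mul_le_mul_of_nonneg_left (by linarith) (by linarith)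
    have h2 : (r:ℝ)^2 = r * r := pow_two _
    rw [h2]; linarith
  have hrB : ((r:ℝ)-1) * B ≤ 1/8 := by
    have h1 : ((r:ℝ)-1) * B ≤ r * B := mul_le_mul_of_nonneg_right (by linarith) hB0.le
    have h2 : 8 * r * B = 8 * (r * B) := by ring
    linarith
  have hNl : 0 < NI H ℓ := NI_pos_of_le (by omega) hpos
  have hwn : w = (ℓ:ℝ) / (Fintype.card V : ℝ) := by rw [hw, hn]
  -- up and lo
  have up : ∀ D : Finset V, D.card ≤ 4*r → cnt H ℓ D ≤ 2 * w^D.card * NI H ℓ := by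
    intro D hD
    refine cnt_upper (m := r-1) hn0 hwn hNl hB0.le (fun s h1 h2 => hB s h1 (by omega)) D (by omega) ?_
    have : (D.card : ℝ) ≤ 4 * r := by exact_mod_cast hD
    calc (D.card : ℝ) * B ≤ 4 * r * B := mul_le_mul_of_nonneg_right this hB0.le
      _ ≤ 1/2 := by linarith
  have lo : ∀ D : Finset V, D.card ≤ 2*r → (w/2)^D.card * cmp H ℓ D ≤ cnt H ℓ D := by
    intro D hD
    exact cnt_lower H D hn0 hwn (by omega)
  set E := H.filter (fun e => ∀ J ⊆ e, J.Nonempty → J ≠ e → (1-c) * NI H ℓ < cmp H ℓ J) with hE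
  have hEH : E ⊆ H := filter_subset _ _
  by_cases hcase : 2 * (E.card : ℝ) ≤ (H.card : ℝ)
  · left
    have h1 := case1 (ℓ := ℓ) (c := c) (B := B) (by omega) hEH hH hnr hB0.le
      (by linarith) hc0.le (fun s h1 h2 => hB s (by omega) h2) hpos
      (by
        intro e he heE
        rw [hE, mem_filter, not_and] at heE
        have := heE he
        push Not at this
        obtain ⟨J, hJ1, hJ2, hJ3, hJ4⟩ := this
        exact ⟨J, hJ1, hJ2, hJ3, hJ4⟩) hcase
    rw [← hn] at h1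
    have e1 : c / (2*r) = 4 * r * B := by
      rw [hc]; field_simp; ring
    rw [e1] at h1
    set t : ℝ := (H.card : ℝ) / ((Fintype.card V).choose r : ℝ) with ht
    have ht0 : 0 ≤ t := by rw [ht]; exact div_nonneg (Nat.cast_nonneg _) (Nat.cast_nonneg _)
    have hq : 1/2 ≤ 1 - ((r:ℝ)-1)*B := by linarith
    have h3 : (t * (1 - 4*r*B) + r/n) ≤ (t * (1 - 2*r*B) + 2*r/n) * (1 - ((r:ℝ)-1)*B) := by
      have h4 : t * (1 - 4*r*B) ≤ t * ((1 - 2*r*B) * (1 - ((r:ℝ)-1)*B)) := by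
        refine mul_le_mul_of_nonneg_left ?_ ht0
        have h6 : 0 ≤ 2*r*B*(((r:ℝ)-1)*B) := by
          have : 0 ≤ ((r:ℝ)-1)*B := mul_nonneg (by linarith) hB0.le
          positivity
        have h7 : (1 - 2*r*B) * (1 - ((r:ℝ)-1)*B) = 1 - 3*(r*B) + B + 2*r*B*(((r:ℝ)-1)*B) := by ring
        have h8 : (4:ℝ)*r*B = 4*(r*B) := by ring
        have h9 : 0 < r*B := by positivity
        rw [h7, h8]; linarith
      have h5 : r/n ≤ 2*r/n * (1 - ((r:ℝ)-1)*B) := by
        have h6 : 0 < r/n := by positivity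
        have e : 2*r/n = 2*(r/n) := by ring
        rw [e]
        have h7 := mul_le_mul_of_nonneg_left hq h6.le
        linarith
      calc _ ≤ t * ((1 - 2*r*B) * (1 - ((r:ℝ)-1)*B)) + 2*r/n * (1 - ((r:ℝ)-1)*B) := add_le_add h4 h5
        _ = _ := by ring
    exact le_of_mul_le_mul_right (h1.trans h3) (by linarith)
  · right
    push Not at hcase
    -- degrees
    set L : ℕ → ℝ := fun j => if j = 1 then C1 r else ep r with hL
    have hEprop : ∀ e ∈ E, ∀ J ⊆ e, J.Nonempty → J ≠ e → (1-c) * NI H ℓ < cmp H ℓ J :=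
      fun e he => (mem_filter.1 he).2
    have hL0 : ∀ j, 0 < L j := by
      intro j; simp only [hL]; split_ifs
      · exact hC1
      · exact hep
    have hLhalf : ∀ j, 1 ≤ j → j < r → L j * θ^(r-j) ≤ 1/2 := by
      intro j hj1 hjr
      simp only [hL]
      split_ifs with h
      · rw [h]; linarith
      · have h5 : θ^(r-j) ≤ 1 := pow_le_one₀ hθ0.le hθle1
        have h6 := mul_le_mul_of_nonneg_left h5 hep.le
        linarith
    have hdeg := deg_claim (r := r) (ℓ := ℓ) (w := w) (ν := ν) (c := c) L hEH hH hNl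
      (fun D hD => up D (by omega)) lo hEprop (by linarith) hw0 hν0 hL0
      (by
        intro j hj1 hjr
        rw [hwν]
        have e2 : c * 2^(3*r) = C1 r * θ^(r-1) / 2 := by
          rw [← hcC1, pow_succ]; ring
        rw [e2]
        simp only [hL]
        split_ifs with h
        · rw [h]
          have : 0 < C1 r * θ^(r-1) := by positivity
          linarith
        · have h5 : θ^(r-2) ≤ θ^(r-j) := pow_le_pow_of_le_one hθ0.le hθle1 (by omega)
          have h6 : ep r * θ^(r-2) ≤ ep r * θ^(r-j) := mul_le_mul_of_nonneg_left h5 hep.le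
          have h7 : 0 < ep r * θ^(r-2) := by positivity
          linarith)
      (by
        intro j hj1 hjr
        rw [hwν]
        have h5 := hLhalf j hj1 hjr
        have h6 : w^(r-j) ≤ 1/2 := by
          calc w^(r-j) ≤ w^1 := pow_le_pow_of_le_one hw0.le (by linarith) (by omega)
            _ ≤ 1/2 := by rw [pow_one]; exact hw2
        linarith)
    have hdeg' : ∀ J : Finset V, 1 ≤ J.card → J.card < r → dg E J < L J.card * ν^(r - J.card) :=
      fun J h1 h2 => hdeg (r - J.card - 1) J (by omega) h1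
    have hd1 : ∀ J : Finset V, 1 ≤ J.card → J.card < r → dg E J ≤ C1 r * ν^(r - J.card) := by
      intro J h1 h2
      refine (hdeg' J h1 h2).le.trans ?_
      refine mul_le_mul_of_nonneg_right ?_ (by positivity)
      simp only [hL]
      split_ifs
      · exact le_rfl
      · exact ep_le_C1 hr
    have hd2 : ∀ J : Finset V, 2 ≤ J.card → J.card < r → dg E J ≤ ep r * ν^(r - J.card) := by
      intro J h1 h2
      have h3 := (hdeg' J (by omega) h2).le
      have h4 : L J.card = ep r := by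
        simp only [hL]; rw [if_neg (by omega)]
      rwa [h4] at h3
    have hsp : ∀ J : Finset V, 1 ≤ J.card → J.card < r → dg E J * w^(r - J.card) ≤ 1 := by
      intro J h1 h2
      have h3 := (hdeg' J h1 h2).le
      have h4 := hLhalf J.card h1 h2
      calc dg E J * w^(r - J.card) ≤ (L J.card * ν^(r - J.card)) * w^(r - J.card) :=
            mul_le_mul_of_nonneg_right h3 (by positivity)
        _ = L J.card * (w*ν)^(r - J.card) := by rw [mul_pow]; ring
        _ ≤ 1 := by rw [hwν]; linarith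
    -- good pairs
    have hgt := good_total (r := r) (ν := ν) (ε := ep r) (lam := C1 r) hr hEH hH hν1 hep.le hC1.le hd1 hd2
    rw [ep_id hr, ← hn] at hgt
    set P : ℝ := ∑ x : V, ((Px H E r ν x).card : ℝ) with hP
    have hcmp : ∀ x : V, ∀ p ∈ Px H E r ν x, NI H ℓ / 2 ≤ cmp H ℓ ((p.1 ∪ p.2).erase x) := by
      intro x p hp
      obtain ⟨⟨h1, h2⟩, h3⟩ := mem_Px.1 hp
      obtain ⟨h1E, h1x⟩ := mem_Ex.1 h1
      obtain ⟨h2E, h2x⟩ := mem_Ex.1 h2
      have hne : ∀ e ∈ E, x ∈ e → (1-c) * NI H ℓ ≤ cmp H ℓ (e.erase x) := by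
        intro e he hxe
        have hcc : (e.erase x).card = r - 1 := by rw [card_erase_of_mem hxe, hH e (hEH he)]
        refine (hEprop e he (e.erase x) (erase_subset _ _) (card_pos.1 (by omega)) ?_).le
        intro heq
        have : (e.erase x).card = e.card := by rw [heq]
        rw [hcc, hH e (hEH he)] at this
        omega
      have h4 := good_cmp (r := r) (ℓ := ℓ) (w := w) (ν := ν) (c := c) (by omega) hH hNl
        (fun D hD => up D (by omega)) hw0 hν0 (by rw [hwν]; exact hθle1)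
        (hH _ (hEH h1E)) (hH _ (hEH h2E)) (hne _ h1E h1x) (hne _ h2E h2x) h1x h2x h3
      rw [hwν] at h4
      have h5 : (2:ℝ)^(2*r) * θ ≤ 1/4 := by
        have h6 : (2:ℝ)^(2*r) * 4 ≤ C1 r := by
          refine le_trans ?_ hC1g
          calc (2:ℝ)^(2*r) * 4 = 2^(2*r+2) := by rw [pow_add]; norm_num
            _ ≤ 2^(3*r+1) := pow_le_pow_right₀ (by norm_num) (by omega)
        have h8 := mul_le_mul_of_nonneg_left h6 hθ0.le
        linarith
      have h7 : (1/2) * NI H ℓ ≤ (1 - 2*c - 2^(2*r) * θ) * NI H ℓ :=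
        mul_le_mul_of_nonneg_right (by linarith) hNl.le
      linarith
    have hBI := BI_lower (r := r) (ℓ := ℓ) (w := w) (ν := ν) (by omega) hEH hH hNl up lo hw0 hsp hcmp
    rw [← hP] at hBI
    -- lower bound on P
    have hHc0 : 0 ≤ (H.card : ℝ) := Nat.cast_nonneg _
    have hEc0 : 0 ≤ (E.card : ℝ) := Nat.cast_nonneg _
    set h : ℝ := (H.card : ℝ) with hh
    have hνp : 0 < ν^(r-1) := by positivity
    have hnν : 0 < n * ν^(r-1) := by positivity
    have hh0 : 0 < h := by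
      by_contra hneg
      push Not at hneg
      have : h = 0 := le_antisymm hneg hHc0
      rw [this] at hcard
      linarith
    have h10 : ((r:ℝ) * h / 2)^2 ≤ n * (P + r / 2^(r+4) * (ν^(r-1) * h)) := by
      refine le_trans ?_ hgt
      refine pow_le_pow_left₀ (by positivity) ?_ 2
      have h9 : (r:ℝ) * (h / 2) ≤ r * (E.card : ℝ) :=
        mul_le_mul_of_nonneg_left (by linarith) (by linarith)
      linarith
    have h2r : (0:ℝ) < 2^(r+1) := by positivity
    have h11 : r / 2^(r+3) * (h * (n * ν^(r-1))) ≤ ((r:ℝ) * h / 2)^2 := by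
      have e3 : (2:ℝ)^(r+3) = 4 * 2^(r+1) := by rw [pow_add, pow_add]; ring
      rw [e3, div_mul_eq_mul_div, div_le_iff₀ (by positivity)]
      have e4 : ((r:ℝ) * h / 2)^2 * (4 * 2^(r+1)) = (r * h) * (2^(r+1) * r * h) := by ring
      rw [e4]
      calc (r:ℝ) * (h * (n * ν^(r-1))) = (r * h) * (n * ν^(r-1)) := by ring
        _ ≤ _ := mul_le_mul_of_nonneg_left hcard (by positivity)
    have h12 : r / 2^(r+4) * (h * ν^(r-1)) ≤ P := by
      have e5 : r / (2:ℝ)^(r+3) = 2 * (r / 2^(r+4)) := by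
        have e5' : (2:ℝ)^(r+4) = 2 * 2^(r+3) := by rw [← pow_succ']
        rw [e5']; field_simp
      rw [e5] at h11
      have h13 : n * (r / 2^(r+4) * (h * ν^(r-1))) ≤ n * P := by
        have h13' := h11.trans h10
        have e9 : n * (P + r / 2^(r+4) * (ν^(r-1) * h)) =
          n * P + n * (r / 2^(r+4) * (h * ν^(r-1))) := by ring
        have e10 : 2 * (r / 2^(r+4)) * (h * (n * ν^(r-1))) =
          2 * (n * (r / 2^(r+4) * (h * ν^(r-1)))) := by ring
        rw [e9, e10] at h13'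
        linarith
      exact le_of_mul_le_mul_left h13 hn'
    have h14 : n * (ν^(r-1))^2 ≤ 2^(2*r+5) * P := by
      have h15 : n * (ν^(r-1))^2 ≤ (2^(r+1) * r * h) * ν^(r-1) := by
        calc n * (ν^(r-1))^2 = (n * ν^(r-1)) * ν^(r-1) := by ring
          _ ≤ _ := mul_le_mul_of_nonneg_right hcard hνp.le
      refine h15.trans ?_
      have e6 : (2:ℝ)^(2*r+5) = 2^(r+1) * 2^(r+4) := by rw [← pow_add]; congr 1; omega
      have e7 : (2^(r+1) * r * h) * ν^(r-1) = (2^(r+1) * 2^(r+4)) * (r / 2^(r+4) * (h * ν^(r-1))) := by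
        field_simp
      rw [e6, e7]
      exact mul_le_mul_of_nonneg_left h12 (by positivity)
    have e8 : θ^(2*r-2) = (w^(2*r-2)) * (ν^(r-1))^2 := by
      rw [← hwν, mul_pow, ← pow_mul]; congr 2; omega
    have hwp : 0 < w^(2*r-2) := by positivity
    calc θ^(2*r-2) * (n * NI H ℓ) = (n * (ν^(r-1))^2) * (w^(2*r-2) * NI H ℓ) := by rw [e8]; ring
      _ ≤ (2^(2*r+5) * P) * (w^(2*r-2) * NI H ℓ) := mul_le_mul_of_nonneg_right h14 (by positivity)
      _ = 2^(2*r+5) * (P * (w^(2*r-2) * NI H ℓ)) := by ring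
      _ ≤ 2^(2*r+5) * (2^(9*r) * BI H ℓ) := mul_le_mul_of_nonneg_left hBI (by positivity)
      _ = 2^(11*r+5) * BI H ℓ := by
          rw [← mul_assoc, ← pow_add]; congr 2; omega

end Pool.Agent.Helper2.DC
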