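import Pool.Agent.Helper2.DC16
import Pool.Agent.Helper2.DC3

/-! The improvement for large clique size. -/

namespace Pool.Agent.Helper2.DC

open Finset

set_option linter.unusedSectionVars false
set_option maxHeartbeats 1000000

theorem choose_pow_le {a b : ℕ} (hab : a ≤ b) (k : ℕ) : a.choose k * b^k ≤ b.choose k * a^k := by
  induction k with
  | zero => simp
  | succ k ih =>
    have h1 := Nat.choose_succ_right_eq a k
    have h2 := Nat.choose_succ_right_eq b k
    have h3 : b * (a - k) ≤ a * (b - k) := by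
      rcases Nat.lt_or_ge a k with h | h
      · have : a - k = 0 := by omega
        rw [this]; simp
      · obtain ⟨c, hc⟩ := Nat.exists_eq_add_of_le h
        obtain ⟨d, hd⟩ := Nat.exists_eq_add_of_le hab
        subst hc; subst hd
        have e1 : k + c - k = c := by omega
        have e2 : k + c + d - k = c + d := by omega
        rw [e1, e2]
        nlinarith [Nat.zero_le (k * d)]
    have h4 : (a.choose (k+1) * b^(k+1)) * (k+1) ≤ (b.choose (k+1) * a^(k+1)) * (k+1) := by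
      calc (a.choose (k+1) * b^(k+1)) * (k+1) = (a.choose (k+1) * (k+1)) * b^(k+1) := by ring
        _ = (a.choose k * (a-k)) * b^(k+1) := by rw [h1]
        _ = (a.choose k * b^k) * (b * (a-k)) := by ring
        _ ≤ (b.choose k * a^k) * (a * (b-k)) := Nat.mul_le_mul ih h3
        _ = (b.choose k * (b-k)) * a^(k+1) := by ring
        _ = (b.choose (k+1) * (k+1)) * a^(k+1) := by rw [h2]
        _ = _ := by ring
    exact Nat.le_of_mul_le_mul_right h4 (Nat.succ_pos k)

/-- lower bound for the number of edges in the normalisation used by `level` -/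
theorem edges_lower {r M n : ℕ} {h T : ℝ} (hr : 1 ≤ r) (hM : 0 < M) (hn : 2 * r ≤ n)
    (hMr : r - 1 ≤ M)
    (hT : T = 1 / (M.choose (r-1) : ℝ)) (hh : T / 2 ≤ h / (n.choose r : ℝ)) :
    (n:ℝ) * ((n:ℝ)/M)^(r-1) ≤ 2^(r+1) * r * h := by
  have hM' : (0:ℝ) < (M:ℝ) := by exact_mod_cast hM
  have hn0 : (0:ℝ) < (n:ℝ) := by
    have : 0 < n := by omega
    exact_mod_cast this
  have hC : (0:ℝ) < (M.choose (r-1) : ℝ) := by exact_mod_cast Nat.choose_pos hMr
  have hCn : (0:ℝ) < (n.choose r : ℝ) := by exact_mod_cast Nat.choose_pos (by omega)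
  set f : ℝ := ((r-1).factorial : ℝ) with hf
  have hf0 : 0 < f := by rw [hf]; exact_mod_cast Nat.factorial_pos _
  have hr0 : (0:ℝ) < (r:ℝ) := by exact_mod_cast hr
  have hfac : ((r.factorial : ℕ) : ℝ) = (r:ℝ) * f := by
    have : r.factorial = r * (r-1).factorial := by
      rw [Nat.mul_factorial_pred (by omega)]
    rw [this]; push_cast; rfl
  have h1 : (M.choose (r-1) : ℝ) ≤ (M:ℝ)^(r-1) / f := Nat.choose_le_pow_div (r-1) M
  have h2 : f / (M:ℝ)^(r-1) ≤ T := by
    rw [hT, div_le_div_iff₀ (by positivity) hC]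
    have := (le_div_iff₀ hf0).1 h1
    linarith
  have h3 : (((n + 1 - r : ℕ) : ℝ))^r / (r.factorial : ℝ) ≤ (n.choose r : ℝ) := by
    have := Nat.pow_le_choose (α := ℝ) r n
    exact_mod_cast this
  have h4 : ((n:ℝ)/2)^r ≤ (((n + 1 - r : ℕ) : ℝ))^r := by
    refine pow_le_pow_left₀ (by positivity) ?_ r
    rw [Nat.cast_sub (by omega)]
    have : 2 * (r:ℝ) ≤ n := by exact_mod_cast hn
    push_cast; linarith
  have h5 : ((n:ℝ)/2)^r / (r * f) ≤ (n.choose r : ℝ) := by
    rw [← hfac]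
    refine le_trans ?_ h3
    exact div_le_div_of_nonneg_right h4 (by positivity)
  have h6 : T / 2 * (n.choose r : ℝ) ≤ h := (le_div_iff₀ hCn).1 hh
  have h7 : (f / (M:ℝ)^(r-1)) / 2 * (((n:ℝ)/2)^r / (r * f)) ≤ h := by
    refine le_trans ?_ h6
    have hTpos : 0 < T := by rw [hT]; positivity
    exact mul_le_mul (by linarith) h5 (by positivity) (by linarith)
  have e : (n:ℝ) * ((n:ℝ)/M)^(r-1) = 2^(r+1) * r * ((f / (M:ℝ)^(r-1)) / 2 * (((n:ℝ)/2)^r / (r * f))) := by
    have en : (n:ℝ)^r = n * n^(r-1) := by rw [← pow_succ']; congr 1; omega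
    rw [div_pow, div_pow, en, pow_succ]
    field_simp
  rw [e]
  exact mul_le_mul_of_nonneg_left h7 (by positivity)

theorem large_final {r : ℕ} (hr : 3 ≤ r) : ∃ κ : ℝ, 0 < κ ∧ ∃ M0 : ℕ, ∀ M : ℕ, M0 ≤ M → ∃ n0 : ℕ,
    ∀ (V : Type) [Fintype V] [DecidableEq V], n0 ≤ Fintype.card V → ∀ H : Finset (Finset V),
    (∀ e ∈ H, e.card = r) → NI H (M+1) = 0 →
    (1 + κ) / (M.choose (r-1) : ℝ) ≤ (H.card : ℝ) / ((Fintype.card V).choose r : ℝ) := by
  have hr3 : (3:ℝ) ≤ (r:ℝ) := by exact_mod_cast hr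
  have hC1 := C1_pos hr
  have hep := ep_pos hr
  set θ1 : ℝ := ep r / C1 r with hθ1
  have hθ10 : 0 < θ1 := by positivity
  have hC116 : (16:ℝ) ≤ C1 r := by
    refine le_trans ?_ (C1_ge hr)
    calc (16:ℝ) = 2^4 := by norm_num
      _ ≤ 2^(3*r+1) := pow_le_pow_right₀ (by norm_num) (by omega)
  have hθ1le : θ1 ≤ 1/256 := by
    rw [hθ1, div_le_iff₀ hC1]
    have := ep_le hr
    linarith
  set κ1 : ℝ := 2 * r * (4^r * (θ1/4)^(r-1)) with hκ1
  set b : ℝ := (θ1/4)^(2*r-2) / 2^(11*r+5) with hb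
  have hκ10 : 0 < κ1 := by positivity
  have hb0 : 0 < b := by positivity
  have hb1 : b ≤ 1 := by
    rw [hb, div_le_one (by positivity)]
    have h1 : (θ1/4)^(2*r-2) ≤ 1 := pow_le_one₀ (by positivity) (by linarith)
    have h2 : (1:ℝ) ≤ 2^(11*r+5) := one_le_pow₀ (by norm_num)
    linarith
  set κ : ℝ := min (min (κ1/4) (b/4)) (1/4) with hκ
  have hκ0 : 0 < κ := by rw [hκ]; positivity
  have hκκ1 : κ ≤ κ1/4 := by rw [hκ]; exact (min_le_left _ _).trans (min_le_left _ _)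
  have hκb : κ ≤ b/4 := by rw [hκ]; exact (min_le_left _ _).trans (min_le_right _ _)
  have hκ4 : κ ≤ 1/4 := by rw [hκ]; exact min_le_right _ _
  refine ⟨κ, hκ0, ?_⟩
  obtain ⟨M0, hM0⟩ := exists_nat_ge (4 * (8 * r + 1) / θ1)
  refine ⟨M0, ?_⟩
  intro M hM
  have hMr : 4 * (8 * r + 1) / θ1 ≤ (M:ℝ) := hM0.trans (by exact_mod_cast hM)
  have hMθ : 8 * (r:ℝ) + 1 ≤ θ1 * M / 4 := by
    rw [div_le_iff₀ hθ10] at hMr
    linarith
  have hMpos : (0:ℝ) < (M:ℝ) := by
    by_contra hneg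
    push Not at hneg
    have : (M:ℝ) = 0 := le_antisymm hneg (Nat.cast_nonneg _)
    rw [this] at hMθ
    linarith
  set ℓ0 : ℕ := ⌊θ1 * M / 2⌋₊ with hℓ0
  have hℓ0u : (ℓ0:ℝ) ≤ θ1 * M / 2 := Nat.floor_le (by positivity)
  have hℓ0l : θ1 * M / 4 ≤ (ℓ0:ℝ) := by
    have : θ1 * M / 2 - 1 < (ℓ0:ℝ) := Nat.sub_one_lt_floor _
    linarith
  have hℓ08r : 8 * r + 1 ≤ ℓ0 := by
    have : 8 * (r:ℝ) + 1 ≤ (ℓ0:ℝ) := by linarith
    exact_mod_cast this
  have h2ℓ0M : 2 * (ℓ0:ℝ) ≤ (M:ℝ) / 256 := by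
    have : θ1 * M ≤ (1/256) * M := mul_le_mul_of_nonneg_right hθ1le hMpos.le
    linarith
  have h2ℓ0M' : 512 * ℓ0 ≤ M := by
    have : 512 * (ℓ0:ℝ) ≤ (M:ℝ) := by linarith
    exact_mod_cast this
  have hCpos : (0:ℝ) < (M.choose (r-1) : ℝ) := by exact_mod_cast Nat.choose_pos (by omega)
  set T : ℝ := 1 / (M.choose (r-1) : ℝ) with hT
  have hT0 : 0 < T := by positivity
  obtain ⟨n1, hn1⟩ := exists_nat_ge (3 * r / (κ * T))
  refine ⟨max n1 (2*M), ?_⟩
  intro V _ _ hn H hH hNI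
  classical
  have hnn1 : n1 ≤ Fintype.card V := (le_max_left _ _).trans hn
  have hn2M : 2*M ≤ Fintype.card V := (le_max_right _ _).trans hn
  have hnr : r ≤ Fintype.card V := by omega
  have hn0 : 0 < Fintype.card V := by omega
  set n : ℝ := (Fintype.card V : ℝ) with hnn
  have hn' : 0 < n := by rw [hnn]; exact_mod_cast hn0
  have hrn : 3 * r / n ≤ κ * T := by
    have h1 : 3 * r / (κ * T) ≤ n := hn1.trans (by rw [hnn]; exact_mod_cast hnn1)
    rw [div_le_iff₀ hn']
    rw [div_le_iff₀ (by positivity)] at h1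
    linarith
  have hrn0 : 0 < r / n := by positivity
  have hrn' : 3 * (r / n) ≤ κ * T := by
    have : 3 * r / n = 3 * (r/n) := by ring
    linarith
  set t : ℝ := (H.card : ℝ) / ((Fintype.card V).choose r : ℝ) with ht
  have hgoal : (1 + κ) / (M.choose (r-1) : ℝ) = (1+κ) * T := by rw [hT]; ring
  rw [hgoal]
  have hκT : κ * T ≤ T / 4 := by
    have := mul_le_mul_of_nonneg_right hκ4 hT0.le
    linarith
  -- initial value
  have hr1 : ((r-1 : ℕ) : ℝ) = (r:ℝ) - 1 := by rw [Nat.cast_sub (by omega)]; simp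
  have hNIr : 0 < NI H (r-1) := by
    rw [NI_of_lt hH (by omega)]
    exact_mod_cast Nat.choose_pos (by omega)
  have huinit : uu H r (r-1) ≤ t + r/n := by
    have e : r - 1 + 1 = r := by omega
    have h1 := beta_init_le (H := H) (k := r-1) (by rw [e]; exact hH) (by omega)
    rw [e] at h1
    unfold uu
    rw [Nat.choose_self]
    simp only [Nat.cast_one, div_one]
    refine h1.trans ?_
    have : ((r-1 : ℕ) : ℝ) / n ≤ r / n := by
      refine div_le_div_of_nonneg_right ?_ hn'.le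
      rw [hr1]; linarith
    linarith
  by_cases hNI0 : NI H (2*ℓ0 + r) = 0
  · -- small independence number
    have e : 2*ℓ0 + r = (2*ℓ0 + (r-1)) + 1 := by omega
    rw [e] at hNI0
    have h1 := one_le_choose_mul_uu (r := r) (s := r-1) (by omega) hH hNI0 le_rfl (by omega) hNIr
    set M' : ℕ := 2*ℓ0 + (r-1) with hM'
    have h2 := choose_pow_le (a := M') (b := M) (by omega) (r-1)
    have h3 : M'.choose (r-1) * (2 * M')^(r-1) ≤ M.choose (r-1) * M'^(r-1) := by
      refine le_trans (Nat.mul_le_mul_left _ ?_) h2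
      exact Nat.pow_le_pow_left (by omega) _
    have h4 : (M'.choose (r-1) * 2^(r-1)) * M'^(r-1) ≤ M.choose (r-1) * M'^(r-1) := by
      rw [mul_pow] at h3; linarith
    have h5 : M'.choose (r-1) * 2^(r-1) ≤ M.choose (r-1) := by
      have : 0 < M' := by omega
      exact Nat.le_of_mul_le_mul_right h4 (by positivity)
    have h6 : M'.choose (r-1) * 2 ≤ M.choose (r-1) := by
      refine le_trans (Nat.mul_le_mul_left _ ?_) h5
      calc 2 = 2^1 := by norm_num
        _ ≤ 2^(r-1) := Nat.pow_le_pow_right (by norm_num) (by omega)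
    have h7 : (M'.choose (r-1) : ℝ) * 2 ≤ (M.choose (r-1) : ℝ) := by exact_mod_cast h6
    have hupos : 0 ≤ uu H r (r-1) := by
      unfold uu; exact div_nonneg beta_nonneg (Nat.cast_nonneg _)
    have h8 : 2 ≤ (M.choose (r-1) : ℝ) * uu H r (r-1) := by
      have := mul_le_mul_of_nonneg_right h7 hupos
      linarith
    have h9 : 2 * T ≤ uu H r (r-1) := by
      have e2 : 2 * T = 2 / (M.choose (r-1) : ℝ) := by rw [hT]; ring
      rw [e2, div_le_iff₀ hCpos]
      linarith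
    linarith
  · have hNIpos : 0 < NI H (2*ℓ0 + r) := lt_of_le_of_ne (NI_nonneg _ _) (Ne.symm hNI0)
    have hposs : ∀ s, s ≤ 2*ℓ0 + r → 0 < NI H s := fun s hs => NI_pos_of_le hs hNIpos
    have hTu : ∀ s, r - 1 ≤ s → s ≤ 2*ℓ0 + r → T ≤ uu H r s := by
      intro s h1 h2
      have h3 := one_le_choose_mul_uu (r := r) (s := s) (by omega) hH hNI h1 (by omega) (hposs s h2)
      rw [hT, div_le_iff₀ hCpos]
      linarith
    by_cases ht2 : 2 * T ≤ t
    · linarith
    push Not at ht2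
    have hTt : T ≤ t + r/n := (hTu (r-1) le_rfl (by omega)).trans huinit
    have hcard : n * (n/M)^(r-1) ≤ 2^(r+1) * r * (H.card : ℝ) := by
      refine edges_lower (r := r) (M := M) (n := Fintype.card V) (by omega) (by omega) (by omega)
        (by omega) hT ?_
      rw [← ht]
      linarith
    have hMn : (M:ℝ) ≤ n := by
      rw [hnn]; exact_mod_cast (by omega : M ≤ Fintype.card V)
    have hBs : ∀ ℓ, ℓ0 ≤ ℓ → ℓ < 2*ℓ0 → ∀ s, r - 1 ≤ s → s < ℓ + (r-1) →
        beta H s ≤ 4^r * ((ℓ:ℝ)/M)^(r-1) := by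
      intro ℓ h1 h2 s h3 h4
      have hCs : (0:ℝ) < (s.choose (r-1) : ℝ) := by exact_mod_cast Nat.choose_pos h3
      have h5 : uu H r s ≤ 3 * T := by
        have := uu_antitone (r := r) (by omega) hH le_rfl h3 (hposs s (by omega))
        linarith
      have h6 : beta H s = (s.choose (r-1) : ℝ) * uu H r s := by
        unfold uu; field_simp
      have h7 : (s.choose (r-1) : ℝ) * (M:ℝ)^(r-1) ≤ (M.choose (r-1) : ℝ) * (2*(ℓ:ℝ))^(r-1) := by
        have h8 := choose_pow_le (a := s) (b := M) (by omega) (r-1)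
        have h9 : s^(r-1) ≤ (2*ℓ)^(r-1) := Nat.pow_le_pow_left (by omega) _
        have h10 := h8.trans (Nat.mul_le_mul_left _ h9)
        exact_mod_cast h10
      have h11 : (s.choose (r-1) : ℝ) * T ≤ (2*(ℓ:ℝ))^(r-1) / (M:ℝ)^(r-1) := by
        rw [hT, mul_one_div, div_le_div_iff₀ hCpos (by positivity)]
        linarith
      rw [h6]
      have h12 : (3:ℝ) * 2^(r-1) ≤ 4^r := by
        have e1 : (4:ℝ)^r = 4 * 4^(r-1) := by rw [← pow_succ']; congr 1; omega
        have e2 : (2:ℝ)^(r-1) ≤ 4^(r-1) := pow_le_pow_left₀ (by norm_num) (by norm_num) _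
        have e3 : (0:ℝ) < 4^(r-1) := by positivity
        rw [e1]; linarith
      calc (s.choose (r-1) : ℝ) * uu H r s ≤ (s.choose (r-1) : ℝ) * (3 * T) :=
            mul_le_mul_of_nonneg_left h5 hCs.le
        _ = 3 * ((s.choose (r-1) : ℝ) * T) := by ring
        _ ≤ 3 * ((2*(ℓ:ℝ))^(r-1) / (M:ℝ)^(r-1)) := by linarith
        _ = (3 * 2^(r-1)) * ((ℓ:ℝ)/M)^(r-1) := by rw [mul_pow, div_pow]; ring
        _ ≤ 4^r * ((ℓ:ℝ)/M)^(r-1) := mul_le_mul_of_nonneg_right h12 (by positivity)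
    have hlev : ∀ ℓ, ℓ0 ≤ ℓ → ℓ < 2*ℓ0 →
        (uu H r (ℓ+(r-1)) ≤ t * (1 - 2*r*(4^r*((ℓ:ℝ)/M)^(r-1))) + 2*r/n) ∨
        ((ℓ:ℝ)/M)^(2*r-2) * (n * NI H ℓ) ≤ 2^(11*r+5) * BI H ℓ := by
      intro ℓ h1 h2
      have hℓM : (ℓ:ℝ) ≤ θ1 * M := by
        have : (ℓ:ℝ) ≤ 2 * (ℓ0:ℝ) := by exact_mod_cast h2.le
        linarith
      have hℓM2 : (ℓ:ℝ) ≤ M / 2 := by
        have : (ℓ:ℝ) ≤ 2 * (ℓ0:ℝ) := by exact_mod_cast h2.le
        linarith
      refine level (M := (M:ℝ)) (n := n) (ν := n/M) (w := (ℓ:ℝ)/n) (θ := (ℓ:ℝ)/M) hr hH hnr hnn hMpos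
        rfl rfl rfl (by omega) ?_ hMn ?_ (hBs ℓ h1 h2) (hposs _ (by omega)) hcard
      · rw [div_mul_eq_mul_div, div_le_iff₀ hMpos]
        calc (ℓ:ℝ) * C1 r ≤ (θ1 * M) * C1 r := mul_le_mul_of_nonneg_right hℓM hC1.le
          _ = ep r * M := by rw [hθ1]; field_simp
      · rw [div_le_iff₀ hn']; linarith
    have hθl : ∀ ℓ, ℓ0 ≤ ℓ → θ1/4 ≤ (ℓ:ℝ)/M := by
      intro ℓ h1
      rw [le_div_iff₀ hMpos]
      have : (ℓ0:ℝ) ≤ (ℓ:ℝ) := by exact_mod_cast h1
      linarith
    have ht0 : 0 < t := by linarith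
    by_cases hex : ∃ ℓ, ℓ0 ≤ ℓ ∧ ℓ < 2*ℓ0 ∧
        uu H r (ℓ+(r-1)) ≤ t * (1 - 2*r*(4^r*((ℓ:ℝ)/M)^(r-1))) + 2*r/n
    · obtain ⟨ℓ, h1, h2, h3⟩ := hex
      have h4 := hTu (ℓ + (r-1)) (by omega) (by omega)
      have h5 : κ1 ≤ 2*r*(4^r*((ℓ:ℝ)/M)^(r-1)) := by
        rw [hκ1]
        have : (θ1/4)^(r-1) ≤ ((ℓ:ℝ)/M)^(r-1) := pow_le_pow_left₀ (by positivity) (hθl ℓ h1) _
        have h6 : (0:ℝ) < 4^r := by positivity
        have h7 := mul_le_mul_of_nonneg_left this h6.le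
        exact mul_le_mul_of_nonneg_left h7 (by positivity)
      have h8 : t * (1 - 2*r*(4^r*((ℓ:ℝ)/M)^(r-1))) ≤ t * (1 - κ1) :=
        mul_le_mul_of_nonneg_left (by linarith) ht0.le
      have h9 : 2*r/n = 2*(r/n) := by ring
      have h10 : T ≤ t * (1 - κ1) + 2*(r/n) := by linarith
      have h11 : t * κ1 ≥ (T - r/n) * κ1 := mul_le_mul_of_nonneg_right (by linarith) hκ10.le
      have h12 : (T - r/n) * κ1 ≥ (3/4 * T) * κ1 := mul_le_mul_of_nonneg_right (by linarith) hκ10.le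
      have h13 : (3/4 * T) * κ1 ≥ (3/4 * T) * (4 * κ) := mul_le_mul_of_nonneg_left (by linarith) (by linarith)
      -- t ≥ T + κ1 t - 2 r/n ≥ T + 3/2 κ T - 2/3 κ T
      have h14 : t * (1 - κ1) = t - t * κ1 := by ring
      have h15 : 0 < κ * T := by positivity
      have h16 : (3/4 * T) * (4*κ) = 3 * (κ * T) := by ring
      rw [h14] at h10
      linarith
    · push Not at hex
      have hBI : ∀ ℓ, ℓ0 ≤ ℓ → ℓ < 2*ℓ0 → b * (n * NI H ℓ) ≤ BI H ℓ := by
        intro ℓ h1 h2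
        rcases hlev ℓ h1 h2 with h3 | h3
        · exact absurd h3 (not_le.2 (hex ℓ h1 h2))
        · have h4 : (θ1/4)^(2*r-2) ≤ ((ℓ:ℝ)/M)^(2*r-2) := pow_le_pow_left₀ (by positivity) (hθl ℓ h1) _
          have h5 : (θ1/4)^(2*r-2) * (n * NI H ℓ) ≤ 2^(11*r+5) * BI H ℓ :=
            (mul_le_mul_of_nonneg_right h4 (mul_nonneg hn'.le (NI_nonneg _ _))).trans h3
          rw [hb, div_mul_eq_mul_div, div_le_iff₀ (by positivity)]
          linarith
      have hℓ0pos : (0:ℝ) < (ℓ0:ℝ) := by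
        have : 0 < ℓ0 := by omega
        exact_mod_cast this
      have hstep : ∀ j, j ≤ ℓ0 → uu H r (ℓ0 - 1 + j) ≤ uu H r (ℓ0 - 1) - j * (b * T / (2 * ℓ0)) := by
        intro j
        induction j with
        | zero => intro _; simp
        | succ j ih =>
          intro hj
          have ih' := ih (by omega)
          have h1 := uu_succ (H := H) (r := r) (by omega) hH (s := ℓ0 - 1 + j) (by omega)
            (hposs _ (by omega))
          rw [← hnn] at h1
          have hs1 : ℓ0 - 1 + (j+1) = ℓ0 - 1 + j + 1 := by omega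
          rw [hs1]
          set s := ℓ0 - 1 + j with hs
          have h2 := hBI (s+1) (by omega) (by omega)
          have hNs : 0 < NI H (s+1) := hposs _ (by omega)
          have hnNs : 0 < n * NI H (s+1) := by positivity
          have h3 : b * T / (2 * ℓ0) ≤ (BI H (s+1) + VI H s) /
              (((s:ℝ)+1) * (s.choose (r-1) : ℝ) * (n * NI H (s+1))) := by
            have hCs : (0:ℝ) < (s.choose (r-1) : ℝ) := by
              exact_mod_cast Nat.choose_pos (by omega)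
            have hs0 : (0:ℝ) < (s:ℝ) + 1 := by positivity
            rw [le_div_iff₀ (by positivity)]
            have h4 : ((s:ℝ)+1) ≤ 2 * ℓ0 := by
              have : s + 1 ≤ 2 * ℓ0 := by omega
              exact_mod_cast this
            have h5 : (s.choose (r-1) : ℝ) ≤ (M.choose (r-1) : ℝ) := by
              exact_mod_cast Nat.choose_le_choose (r-1) (by omega : s ≤ M)
            have h6 : T * (s.choose (r-1) : ℝ) ≤ 1 := by
              rw [hT, one_div_mul_eq_div, div_le_one hCpos]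
              exact h5
            have h7 : ((s:ℝ)+1) / (2 * ℓ0) ≤ 1 := by
              rw [div_le_one (by positivity)]; exact h4
            calc b * T / (2 * ℓ0) * (((s:ℝ)+1) * (s.choose (r-1) : ℝ) * (n * NI H (s+1)))
                = (((s:ℝ)+1) / (2 * ℓ0)) * (T * (s.choose (r-1) : ℝ)) * (b * (n * NI H (s+1))) := by
                  ring
              _ ≤ 1 * (b * (n * NI H (s+1))) := by
                  refine mul_le_mul_of_nonneg_right ?_ (by positivity)
                  exact mul_le_one₀ h7 (by positivity) h6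
              _ ≤ BI H (s+1) + VI H s := by
                  have := VI_nonneg H s
                  linarith
          push_cast
          linarith
      have h1 := hstep ℓ0 le_rfl
      have h2 : (ℓ0:ℝ) * (b * T / (2 * ℓ0)) = b * T / 2 := by field_simp
      rw [h2] at h1
      have h3 := hTu (ℓ0 - 1 + ℓ0) (by omega) (by omega)
      have h4 := uu_antitone (H := H) (r := r) (by omega) hH (s := r-1) (t := ℓ0 - 1) le_rfl (by omega)
        (hposs _ (by omega))
      have h5 : κ * T ≤ b/4 * T := mul_le_mul_of_nonneg_right hκb hT0.le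
      have h6 : b/4 * T = b * T / 4 := by ring
      linarith

end Pool.Agent.Helper2.DC
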