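import Pool.Agent.Helper2.DC7

/-! The improvement for each fixed clique size: conclusion. -/

namespace Pool.Agent.Helper2.DC

open Finset

set_option linter.unusedSectionVars false
set_option maxHeartbeats 1000000

theorem fixed_real {k : ℕ} {t x v p η T : ℝ}
    (h1 : x^2 ≤ x^3 + 3 * v + 3 * (2*(k:ℝ)+1) * η + Real.sqrt (5*η + 6*p))
    (h2 : T ≤ t + ((k:ℝ)+2)*η - (v + p / (((k:ℝ)+3) * ((k:ℝ)+4))))
    (h3 : x ≤ t) (h4 : t * (1 - 3*((k:ℝ)+2)*η) ≤ x) (hv : 0 ≤ v) (hp : 0 ≤ p) (hη : 0 ≤ η)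
    (hT : 0 < T) (hT' : T ≤ 1/3)
    (h5 : ((k:ℝ)+3) * η ≤ T^4 / (1000 * (((k:ℝ)+3) * ((k:ℝ)+4)))) :
    T + T^4 / (100 * (((k:ℝ)+3) * ((k:ℝ)+4))) ≤ t := by
  by_contra hcon
  push Not at hcon
  have hk : (0:ℝ) ≤ k := by positivity
  set q : ℝ := ((k:ℝ)+3) * ((k:ℝ)+4) with hq
  have hq12 : 12 ≤ q := by rw [hq]; nlinarith
  set δ : ℝ := T^4 / (100 * q) with hδ
  have hT4 : 0 < T^4 := by positivity
  have hδ0 : 0 < δ := by positivity
  have hδq : δ * q = T^4 / 100 := by rw [hδ]; field_simp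
  have hδ1 : δ ≤ T^4 / 1200 := by
    rw [hδ]
    exact div_le_div_of_nonneg_left hT4.le (by norm_num) (by linarith)
  have h5' : ((k:ℝ)+3) * η ≤ δ / 10 := by
    refine h5.trans (le_of_eq ?_)
    rw [hδ]; field_simp; norm_num
  have hη1 : η ≤ δ / 10 := by nlinarith
  have hkη : ((k:ℝ)+2) * η ≤ δ / 10 := by nlinarith
  have hpq : 0 ≤ p / q := by positivity
  have hv1 : v ≤ 1.1 * δ := by linarith
  have hp1 : p / q ≤ 1.1 * δ := by linarith
  have hp2 : p ≤ 0.011 * T^4 := by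
    have : p = (p / q) * q := by field_simp
    rw [this]
    calc p / q * q ≤ (1.1 * δ) * q := mul_le_mul_of_nonneg_right hp1 (by linarith)
      _ = 1.1 * (δ * q) := by ring
      _ = 0.011 * T^4 := by rw [hδq]; ring
  have hs : Real.sqrt (5*η + 6*p) ≤ 0.27 * T^2 := by
    rw [show (0.27 * T^2 : ℝ) = Real.sqrt ((0.27 * T^2)^2) by
      rw [Real.sqrt_sq (by positivity)]]
    apply Real.sqrt_le_sqrt
    have : (0.27 * T^2)^2 = 0.0729 * T^4 := by ring
    rw [this]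
    linarith
  have hT2 : T^2 ≤ 1/9 := by nlinarith
  have hT42 : T^4 ≤ T^2 / 9 := by nlinarith [sq_nonneg T]
  have hT4T : T^4 ≤ T / 27 := by
    have : T^3 ≤ 1/27 := by
      calc T^3 ≤ (1/3)^3 := pow_le_pow_left₀ hT.le hT' 3
        _ = 1/27 := by norm_num
    calc T^4 = T * T^3 := by ring
      _ ≤ T * (1/27) := mul_le_mul_of_nonneg_left this hT.le
      _ = T/27 := by ring
  have h6 : 3 * (2*(k:ℝ)+1) * η ≤ 0.6 * δ := by nlinarith
  have h7 : x^2 - x^3 ≤ 0.28 * T^2 := by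
    nlinarith
  have ht1 : T - δ/10 ≤ t := by linarith
  have ht2 : 0.99 * T ≤ t := by nlinarith
  have ht3 : t ≤ 0.34 := by nlinarith
  have ht0 : 0 < t := by linarith
  have hx1 : 0.98 * T ≤ x := by
    have : 3*((k:ℝ)+2)*η ≤ 0.3 * δ := by linarith
    have hd : δ ≤ 0.01 := by nlinarith
    have : t * (1 - 3*((k:ℝ)+2)*η) ≥ t * 0.997 := by
      refine mul_le_mul_of_nonneg_left ?_ ht0.le
      linarith
    linarith
  have hx2 : x ≤ 0.34 := by linarith
  have hx3 : 0.96 * T^2 ≤ x^2 := by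
    have : (0.98*T)^2 ≤ x^2 := pow_le_pow_left₀ (by positivity) hx1 2
    nlinarith
  have hx4 : x^2 * 0.66 ≤ x^2 - x^3 := by
    have : x^2 - x^3 = x^2 * (1 - x) := by ring
    rw [this]
    exact mul_le_mul_of_nonneg_left (by linarith) (sq_nonneg _)
  have : 0 < T^2 := by positivity
  linarith

theorem fixed_final {k M : ℕ} (hM : k + 3 ≤ M) : ∃ n0 : ℕ, ∀ (V : Type) [Fintype V] [DecidableEq V],
    n0 ≤ Fintype.card V → ∀ H : Finset (Finset V), (∀ e ∈ H, e.card = k+3) → NI H (M+1) = 0 →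
    (1 / (M.choose (k+2) : ℝ)) + (1 / (M.choose (k+2) : ℝ))^4 / (100 * (((k:ℝ)+3) * ((k:ℝ)+4)))
      ≤ (H.card : ℝ) / ((Fintype.card V).choose (k+3) : ℝ) := by
  set T : ℝ := 1 / (M.choose (k+2) : ℝ) with hTdef
  have hC3 : (3:ℝ) ≤ (M.choose (k+2) : ℝ) := by
    have h1 : (k+3).choose (k+2) ≤ M.choose (k+2) := Nat.choose_le_choose _ hM
    have h2 : (k+3).choose (k+2) = k+3 := by
      rw [show k + 3 = (k+2) + 1 from rfl, Nat.choose_succ_self_right]
    have : 3 ≤ M.choose (k+2) := by omega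
    exact_mod_cast this
  have hT : 0 < T := by positivity
  have hT' : T ≤ 1/3 := by
    rw [hTdef]
    exact one_div_le_one_div_of_le (by norm_num) hC3
  have hk : (0:ℝ) ≤ k := by positivity
  set B : ℝ := ((k:ℝ)+3) / (T^4 / (1000 * (((k:ℝ)+3) * ((k:ℝ)+4)))) with hB
  obtain ⟨n1, hn1⟩ := exists_nat_ge B
  refine ⟨max n1 (k+3), ?_⟩
  intro V _ _ hn H hH hNI
  have hnk : k + 3 ≤ Fintype.card V := (le_max_right _ _).trans hn
  have hn1' : n1 ≤ Fintype.card V := (le_max_left _ _).trans hn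
  set N : ℝ := (Fintype.card V : ℝ) with hN
  have hN0 : 0 < N := by
    have : 0 < Fintype.card V := by omega
    rw [hN]; exact_mod_cast this
  have hNB : B ≤ N := hn1.trans (by rw [hN]; exact_mod_cast hn1')
  have hc0 : (0:ℝ) < ((Fintype.card V).choose (k+3) : ℝ) := by exact_mod_cast Nat.choose_pos hnk
  set t : ℝ := (H.card : ℝ) / ((Fintype.card V).choose (k+3) : ℝ) with ht
  set q : ℝ := ((k:ℝ)+3) * ((k:ℝ)+4) with hq
  have hq12 : 12 ≤ q := by rw [hq]; nlinarith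
  have hη5 : ((k:ℝ)+3) * (1/N) ≤ T^4 / (1000 * q) := by
    have hpos : 0 < T^4 / (1000 * q) := by positivity
    rw [mul_one_div, div_le_iff₀ hN0]
    calc ((k:ℝ)+3) = (T^4 / (1000 * q)) * B := by rw [hB]; field_simp
      _ ≤ (T^4 / (1000 * q)) * N := mul_le_mul_of_nonneg_left hNB hpos.le
  rcases (NI_nonneg H (k+3)).eq_or_lt with h0 | hpos
  · -- complete
    have h1 := NI_r hH
    rw [← h0] at h1
    have ht1 : t = 1 := by
      rw [ht, div_eq_one_iff_eq hc0.ne']; linarith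
    rw [ht1]
    have hT4 : T^4 ≤ 1 := pow_le_one₀ hT.le (by linarith)
    have : T^4 / (100 * q) ≤ 1/2 := by
      rw [div_le_iff₀ (by positivity)]; nlinarith
    linarith
  · set K0 : ℝ := ((Fintype.card V).choose k : ℝ) with hK0
    have hK0pos : 0 < K0 := by rw [hK0]; exact_mod_cast Nat.choose_pos (by omega)
    set v : ℝ := ((k:ℝ)+1) * ((k:ℝ)+2) * VI H (k+2) / (K0 * N^4) with hv
    set p : ℝ := ((k:ℝ)+1) * ((k:ℝ)+2) * ((k:ℝ)+3) * ((k:ℝ)+4) * ((Mid H (k+3)).card : ℝ)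
      / (K0 * N^4) with hp
    set x : ℝ := ((k:ℝ)+1) * ((k:ℝ)+2) * ((k:ℝ)+3) * (H.card : ℝ) / (K0 * N^3) with hx
    have m1 := fixed_main hH hnk hN hK0 hx hv hp
    have m2 := fixed_rec hH hnk hN hK0 ht hv hp hM hNI hpos
    have hxt : x = t * ((N-k) * (N-k-1) * (N-k-2) / N^3) := by
      have := choose3 hnk
      rw [← hN, ← hK0] at this
      have e : (H.card : ℝ) = t * ((Fintype.card V).choose (k+3) : ℝ) := by
        rw [ht]; field_simp
      rw [hx, e]
      have e2 : ((k:ℝ)+1) * ((k:ℝ)+2) * ((k:ℝ)+3) * (t * ((Fintype.card V).choose (k+3) : ℝ)) =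
        t * (((k:ℝ)+1) * ((k:ℝ)+2) * ((k:ℝ)+3) * ((Fintype.card V).choose (k+3) : ℝ)) := by ring
      rw [e2, this]
      field_simp
    have ht0 : 0 ≤ t := by rw [ht]; exact div_nonneg (Nat.cast_nonneg _) hc0.le
    have hkN : (k:ℝ) + 3 ≤ N := by rw [hN]; exact_mod_cast hnk
    have hb1 : (N-k) * (N-k-1) * (N-k-2) / N^3 ≤ 1 := by
      rw [div_le_one (by positivity)]
      have a3 : (N-k) * (N-k-1) ≤ N * N := mul_le_mul (by linarith) (by linarith) (by linarith) hN0.le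
      have a4 : (N-k) * (N-k-1) * (N-k-2) ≤ N * N * N :=
        mul_le_mul a3 (by linarith) (by linarith) (by positivity)
      calc _ ≤ N * N * N := a4
        _ = N^3 := by ring
    have hb2 : 1 - 3 * ((k:ℝ)+2) * (1/N) ≤ (N-k) * (N-k-1) * (N-k-2) / N^3 := by
      rw [le_div_iff₀ (by positivity)]
      have e : (1 - 3 * ((k:ℝ)+2) * (1/N)) * N^3 = N^3 - 3 * ((k:ℝ)+2) * N^2 := by
        field_simp
      rw [e]
      set w := N - (k+2) with hw
      have hw0 : 0 ≤ w := by rw [hw]; linarith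
      have a1 : w * w ≤ (N-k) * (N-k-1) := by
        refine mul_le_mul ?_ ?_ hw0 ?_ <;> rw [hw] at * <;> linarith
      have a2 : w * w * w ≤ (N-k) * (N-k-1) * (N-k-2) := by
        refine mul_le_mul a1 ?_ hw0 ?_
        · rw [hw]; linarith
        · have : 0 ≤ w * w := by positivity
          linarith
      refine le_trans ?_ a2
      have : N = w + (k+2) := by rw [hw]; ring
      have hc2 : (0:ℝ) ≤ (k:ℝ) + 2 := by positivity
      rw [this]
      nlinarith [mul_nonneg hc2 hc2, mul_nonneg (mul_nonneg hc2 hc2) hc2, mul_nonneg (mul_nonneg hc2 hc2) hw0]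
    refine fixed_real (k := k) (t := t) (x := x) (v := v) (p := p) (η := 1/N) (T := T)
      ?_ ?_ ?_ ?_ ?_ ?_ ?_ hT hT' hη5
    · rw [mul_one_div, mul_one_div]; exact m1
    · rw [mul_one_div]
      rw [hTdef, div_le_iff₀ (by linarith)]
      linarith
    · rw [hxt]
      calc t * ((N-k) * (N-k-1) * (N-k-2) / N^3) ≤ t * 1 := mul_le_mul_of_nonneg_left hb1 ht0
        _ = t := mul_one t
    · rw [hxt]; exact mul_le_mul_of_nonneg_left hb2 ht0
    · rw [hv]
      exact div_nonneg (mul_nonneg (by positivity) (VI_nonneg _ _)) (by positivity)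
    · rw [hp]
      exact div_nonneg (mul_nonneg (by positivity) (Nat.cast_nonneg _)) (by positivity)
    · positivity

end Pool.Agent.Helper2.DC
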