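import Pool.Agent.Helper2.DC17
import Pool.Agent.Helper2.DC8

/-! Uniform improvement of de Caen's bound for Turán systems. -/

namespace Pool.Agent.Helper2.DC

open Finset

set_option linter.unusedSectionVars false
set_option maxHeartbeats 1000000

/-- For every `r ≥ 3` there is `c > 0` such that for every `M ≥ r` and every large `n`, every
`r`-graph `H` on `n` vertices such that every set of `M + 1` vertices spans an edge has at least
`(1 + c) / C(M, r-1) * C(n, r)` edges. -/
theorem uniform {r : ℕ} (hr : 3 ≤ r) : ∃ c : ℝ, 0 < c ∧ ∀ M : ℕ, r ≤ M → ∃ n0 : ℕ,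
    ∀ (V : Type) [Fintype V] [DecidableEq V], n0 ≤ Fintype.card V → ∀ H : Finset (Finset V),
    (∀ e ∈ H, e.card = r) → NI H (M+1) = 0 →
    (1 + c) / (M.choose (r-1) : ℝ) ≤ (H.card : ℝ) / ((Fintype.card V).choose r : ℝ) := by
  obtain ⟨κ, hκ, M0, hM0⟩ := large_final hr
  obtain ⟨k, rfl⟩ : ∃ k, r = k + 3 := ⟨r - 3, by omega⟩
  have hk1 : k + 3 - 1 = k + 2 := by omega
  set M1 : ℕ := max M0 (k+3) with hM1
  set T1 : ℝ := 1 / (M1.choose (k+2) : ℝ) with hT1
  have hC1 : (0:ℝ) < (M1.choose (k+2) : ℝ) := by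
    exact_mod_cast Nat.choose_pos (by omega)
  have hT10 : 0 < T1 := by positivity
  set q : ℝ := ((k:ℝ)+3) * ((k:ℝ)+4) with hq
  have hq0 : 0 < q := by positivity
  refine ⟨min κ (T1^3 / (100 * q)), by positivity, ?_⟩
  intro M hM
  by_cases hlarge : M0 ≤ M
  · obtain ⟨n0, hn0⟩ := hM0 M hlarge
    refine ⟨n0, ?_⟩
    intro V _ _ hn H hH hNI
    refine le_trans ?_ (hn0 V hn H hH hNI)
    refine div_le_div_of_nonneg_right ?_ (Nat.cast_nonneg _)
    have := min_le_left κ (T1^3 / (100 * q))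
    linarith
  · obtain ⟨n0, hn0⟩ := fixed_final (k := k) (M := M) hM
    refine ⟨n0, ?_⟩
    intro V _ _ hn H hH hNI
    refine le_trans ?_ (hn0 V hn H hH hNI)
    rw [hk1]
    have hCM : (0:ℝ) < (M.choose (k+2) : ℝ) := by
      exact_mod_cast Nat.choose_pos (by omega)
    set T : ℝ := 1 / (M.choose (k+2) : ℝ) with hT
    have hT0 : 0 < T := by positivity
    have hTT : T1 ≤ T := by
      rw [hT1, hT]
      apply one_div_le_one_div_of_le hCM
      exact_mod_cast Nat.choose_le_choose (k+2) (by omega)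
    have e1 : (1 + min κ (T1^3 / (100 * q))) / (M.choose (k+2) : ℝ) =
        (1 + min κ (T1^3 / (100 * q))) * T := by rw [hT]; ring
    have e2 : T + T^4 / (100 * q) = (1 + T^3 / (100 * q)) * T := by ring
    rw [e1, e2]
    refine mul_le_mul_of_nonneg_right ?_ hT0.le
    have h1 := min_le_right κ (T1^3 / (100 * q))
    have h2 : T1^3 / (100 * q) ≤ T^3 / (100 * q) :=
      div_le_div_of_nonneg_right (pow_le_pow_left₀ hT10.le hTT 3) (by positivity)
    linarith

end Pool.Agent.Helper2.DC
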