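import Pool.Agent.Helper2.DC1

/-! The recursion in normalised form. -/

namespace Pool.Agent.Helper2.DC

open Finset

set_option linter.unusedSectionVars false

variable {V : Type*} [Fintype V] [DecidableEq V]

/-- number of independent `s`-sets, as a real -/
noncomputable def NI (H : Finset (Finset V)) (s : ℕ) : ℝ := ((ind H s).card : ℝ)

/-- mean fraction of blocked vertices over independent `s`-sets -/
noncomputable def beta (H : Finset (Finset V)) (s : ℕ) : ℝ :=
  1 - ((s:ℝ)+1) * NI H (s+1) / ((Fintype.card V : ℝ) * NI H s)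

/-- total number of (independent `s`-set, bad vertex) pairs -/
noncomputable def BI (H : Finset (Finset V)) (s : ℕ) : ℝ := ∑ S ∈ ind H s, ((bad H S).card : ℝ)

/-- sum of squared deviations of the number of extensions -/
noncomputable def VI (H : Finset (Finset V)) (s : ℕ) : ℝ :=
  ∑ Q ∈ ind H s, (((ext H Q).card : ℝ) - (Fintype.card V : ℝ) * (1 - beta H s))^2

theorem NI_nonneg (H : Finset (Finset V)) (s : ℕ) : 0 ≤ NI H s := by unfold NI; positivity
theorem BI_nonneg (H : Finset (Finset V)) (s : ℕ) : 0 ≤ BI H s := by unfold BI; positivity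
theorem VI_nonneg (H : Finset (Finset V)) (s : ℕ) : 0 ≤ VI H s := by
  unfold VI; exact sum_nonneg (fun _ _ => sq_nonneg _)

theorem sum_ext_real (H : Finset (Finset V)) (s : ℕ) :
    ∑ Q ∈ ind H s, ((ext H Q).card : ℝ) = ((s:ℝ)+1) * NI H (s+1) := by
  have := sum_card_ext H s
  unfold NI
  exact_mod_cast this

theorem ind_nonempty_of_succ {H : Finset (Finset V)} {s : ℕ} (h : 0 < NI H (s+1)) :
    0 < NI H s ∧ 0 < (Fintype.card V : ℝ) := by
  unfold NI at *
  have h' : 0 < (ind H (s+1)).card := by exact_mod_cast h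
  obtain ⟨S, hS⟩ := card_pos.1 h'
  obtain ⟨h1, h2⟩ := mem_ind.1 hS
  have hne : S.Nonempty := card_pos.1 (by omega)
  obtain ⟨a, ha⟩ := hne
  constructor
  · have : S.erase a ∈ ind H s := mem_ind.2 ⟨by rw [card_erase_of_mem ha, h1]; rfl,
      h2.mono (erase_subset _ _)⟩
    exact_mod_cast card_pos.2 ⟨_, this⟩
  · have : 0 < Fintype.card V := Fintype.card_pos_iff.2 ⟨a⟩
    exact_mod_cast this

theorem beta_eq {H : Finset (Finset V)} {s : ℕ} (h : 0 < NI H s) (hn : 0 < (Fintype.card V : ℝ)) :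
    ((s:ℝ)+1) * NI H (s+1) = (Fintype.card V : ℝ) * NI H s * (1 - beta H s) := by
  unfold beta
  field_simp
  ring

theorem recursion {H : Finset (Finset V)} {r : ℕ} (hr : 2 ≤ r) (hH : ∀ e ∈ H, e.card = r) {s : ℕ}
    (hN : 0 < NI H (s+1)) :
    ((s:ℝ) + 2 - r) * beta H (s+1) ≤ ((s:ℝ)+1) * beta H s
      - (BI H (s+1) + VI H s) / ((Fintype.card V : ℝ) * NI H (s+1)) := by
  obtain ⟨hN0, hn⟩ := ind_nonempty_of_succ hN
  set n : ℝ := (Fintype.card V : ℝ) with hndef
  -- second moment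
  have e1 : ∑ Q ∈ ind H s, ((ext H Q).card : ℝ)^2 =
      (((s:ℝ)+1) * NI H (s+1)) * (n * (1 - beta H s)) + VI H s := by
    have hs := sum_ext_real H s
    unfold VI
    have hc : ∑ Q ∈ ind H s, (((ext H Q).card : ℝ) - n * (1 - beta H s))^2
        = ∑ Q ∈ ind H s, ((ext H Q).card : ℝ)^2
          - 2 * (n * (1 - beta H s)) * ∑ Q ∈ ind H s, ((ext H Q).card : ℝ)
          + NI H s * (n * (1 - beta H s))^2 := by
      have hc2 : NI H s * (n * (1 - beta H s))^2 = ∑ Q ∈ ind H s, (n * (1 - beta H s))^2 := by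
        rw [sum_const, nsmul_eq_mul]; rfl
      rw [hc2, mul_sum, ← sum_sub_distrib, ← sum_add_distrib]
      refine sum_congr rfl (fun Q _ => by ring)
    rw [hc, hs]
    have hb := beta_eq (H := H) (s := s) hN0 hn
    rw [← hndef] at hb
    have : NI H s * (n * (1 - beta H s))^2 = (((s:ℝ)+1) * NI H (s+1)) * (n * (1 - beta H s)) := by
      rw [hb]; ring
    rw [this]; ring
  have e2 : ∑ Q ∈ ind H s, ((ext H Q).card : ℝ)^2
      = ∑ S ∈ ind H (s+1), ∑ a ∈ S, ((ext H (S.erase a)).card : ℝ) := by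
    rw [← sum_ext H s (fun Q _ => ((ext H Q).card : ℝ))]
    refine sum_congr rfl (fun Q _ => ?_)
    rw [sum_const, nsmul_eq_mul, sq]
  have e3 : ∀ S ∈ ind H (s+1), ∑ a ∈ S, ((ext H (S.erase a)).card : ℝ) + ((bad H S).card : ℝ) ≤
      ((s:ℝ)+1) + ((s:ℝ)+1) * ((ext H S).card : ℝ)
        + ((r:ℝ)-1) * (n - ((s:ℝ)+1) - ((ext H S).card : ℝ)) := by
    intro S hS
    obtain ⟨h1, h2⟩ := mem_ind.1 hS
    have h3 := local_ineq hH h2
    have h4 := card_split H S
    rw [h1] at h3 h4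
    have h5 : ((bl H S).card : ℝ) = n - ((s:ℝ)+1) - ((ext H S).card : ℝ) := by
      rw [hndef, ← h4]; push_cast; ring
    rw [← h5]
    have h6 : ((r:ℝ) - 1) = ((r - 1 : ℕ) : ℝ) := by
      rw [Nat.cast_sub (by omega)]; simp
    rw [h6]
    exact_mod_cast h3
  have e4 := sum_le_sum e3
  rw [sum_add_distrib, ← e2, e1] at e4
  have e5 : ∑ S ∈ ind H (s+1), (((s:ℝ)+1) + ((s:ℝ)+1) * ((ext H S).card : ℝ)
        + ((r:ℝ)-1) * (n - ((s:ℝ)+1) - ((ext H S).card : ℝ)))
      = ((s:ℝ)+1) * NI H (s+1) + ((s:ℝ)+1) * (n * NI H (s+1) * (1 - beta H (s+1)))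
        + ((r:ℝ)-1) * ((n - ((s:ℝ)+1)) * NI H (s+1) - n * NI H (s+1) * (1 - beta H (s+1))) := by
    have hb := beta_eq (H := H) (s := s+1) hN hn
    rw [← hndef] at hb
    rw [← hb]
    have hs := sum_ext_real H (s+1)
    rw [← hs]
    unfold NI
    rw [sum_add_distrib, sum_add_distrib, ← mul_sum, ← mul_sum, sum_sub_distrib]
    simp only [sum_const, nsmul_eq_mul]
    ring
  rw [e5] at e4
  change _ + BI H (s+1) ≤ _ at e4
  have hnN : 0 < n * NI H (s+1) := mul_pos hn hN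
  rw [le_sub_iff_add_le, ← le_sub_iff_add_le', div_le_iff₀ hnN]
  have hr2 : (0:ℝ) ≤ (r:ℝ) - 2 := by
    have : (2:ℝ) ≤ r := by exact_mod_cast hr
    linarith
  have hx : 0 ≤ ((r:ℝ)-2) * (((s:ℝ)+1) * NI H (s+1)) := by positivity
  nlinarith [e4, hx]

theorem beta_le_one {H : Finset (Finset V)} {s : ℕ} : beta H s ≤ 1 := by
  unfold beta
  have h1 := NI_nonneg H (s+1)
  have h2 := NI_nonneg H s
  have : 0 ≤ ((s:ℝ)+1) * NI H (s+1) / ((Fintype.card V : ℝ) * NI H s) := by positivity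
  linarith

theorem card_ext_add_le {H : Finset (Finset V)} {s : ℕ} {S : Finset V} (hS : S ∈ ind H s) :
    (s:ℝ) + ((ext H S).card : ℝ) ≤ (Fintype.card V : ℝ) := by
  have h1 := card_split H S
  have h2 := (mem_ind.1 hS).1
  rw [h2] at h1
  rw [← h1]; push_cast
  have : (0:ℝ) ≤ ((bl H S).card : ℝ) := by positivity
  linarith

theorem beta_nonneg {H : Finset (Finset V)} {s : ℕ} : 0 ≤ beta H s := by
  unfold beta
  rcases (NI_nonneg H s).eq_or_lt with h | h
  · rw [← h]; simp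
  · have hx : ((s:ℝ)+1) * NI H (s+1) ≤ (Fintype.card V : ℝ) * NI H s := by
      rw [← sum_ext_real]
      calc ∑ Q ∈ ind H s, ((ext H Q).card : ℝ) ≤ ∑ Q ∈ ind H s, (Fintype.card V : ℝ) := by
            refine sum_le_sum (fun Q hQ => ?_)
            have := card_ext_add_le hQ
            have h0 : (0:ℝ) ≤ (s:ℝ) := by positivity
            linarith
        _ = _ := by unfold NI; rw [sum_const, nsmul_eq_mul, mul_comm]
    have : ((s:ℝ)+1) * NI H (s+1) / ((Fintype.card V : ℝ) * NI H s) ≤ 1 := by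
      apply div_le_one_of_le₀ hx
      have := NI_nonneg H s
      positivity
    linarith

/-- normalised blocked fraction -/
noncomputable def uu (H : Finset (Finset V)) (r s : ℕ) : ℝ := beta H s / (s.choose (r-1) : ℝ)

theorem uu_succ {H : Finset (Finset V)} {r : ℕ} (hr : 2 ≤ r) (hH : ∀ e ∈ H, e.card = r) {s : ℕ}
    (hs : r - 1 ≤ s) (hN : 0 < NI H (s+1)) :
    uu H r (s+1) ≤ uu H r s - (BI H (s+1) + VI H s) /
      (((s:ℝ)+1) * (s.choose (r-1) : ℝ) * ((Fintype.card V : ℝ) * NI H (s+1))) := by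
  have h := recursion hr hH hN
  obtain ⟨hN0, hn⟩ := ind_nonempty_of_succ hN
  have hc0 : (0:ℝ) < (s.choose (r-1) : ℝ) := by exact_mod_cast Nat.choose_pos hs
  have hc1 : (0:ℝ) < ((s+1).choose (r-1) : ℝ) := by exact_mod_cast Nat.choose_pos (by omega)
  have hid : ((s+1).choose (r-1) : ℝ) * ((s:ℝ)+2-r) = ((s:ℝ)+1) * (s.choose (r-1) : ℝ) := by
    have h1 := Nat.choose_mul_succ_eq s (r-1)
    have h2 : ((s + 1 - (r-1) : ℕ) : ℝ) = (s:ℝ)+2-r := by
      rw [Nat.cast_sub (by omega), Nat.cast_sub (by omega)]; push_cast; ring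
    rw [← h2]
    have h3 : ((s.choose (r-1) * (s+1) : ℕ) : ℝ) = (((s+1).choose (r-1) * (s+1-(r-1)) : ℕ) : ℝ) := by
      rw [h1]
    push_cast at h3 ⊢
    linarith
  have hpos : 0 < (s:ℝ)+2-r := by
    by_contra hcon
    push Not at hcon
    have h1 : ((s+1).choose (r-1) : ℝ) * ((s:ℝ)+2-r) ≤ 0 := mul_nonpos_of_nonneg_of_nonpos hc1.le hcon
    rw [hid] at h1
    have : 0 < ((s:ℝ)+1) * (s.choose (r-1) : ℝ) := by positivity
    linarith
  unfold uu
  set W := (BI H (s+1) + VI H s) / ((Fintype.card V : ℝ) * NI H (s+1)) with hW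
  have hWe : (BI H (s+1) + VI H s) / (((s:ℝ)+1) * (s.choose (r-1) : ℝ) * ((Fintype.card V : ℝ) * NI H (s+1)))
      = W / (((s:ℝ)+1) * (s.choose (r-1) : ℝ)) := by
    rw [hW]; field_simp
  rw [hWe, div_le_iff₀ hc1]
  have h5 : beta H (s+1) ≤ (((s:ℝ)+1) * beta H s - W) / ((s:ℝ)+2-r) := by
    rw [le_div_iff₀ hpos]; linarith
  refine h5.trans (le_of_eq ?_)
  have h6 : ((s+1).choose (r-1) : ℝ) = ((s:ℝ)+1) * (s.choose (r-1) : ℝ) / ((s:ℝ)+2-r) := by
    rw [eq_div_iff hpos.ne']; exact hid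
  rw [h6]
  field_simp

theorem uu_antitone {H : Finset (Finset V)} {r : ℕ} (hr : 2 ≤ r) (hH : ∀ e ∈ H, e.card = r)
    {s t : ℕ} (hs : r - 1 ≤ s) (hst : s ≤ t) (hN : 0 < NI H t) : uu H r t ≤ uu H r s := by
  induction t, hst using Nat.le_induction with
  | base => exact le_rfl
  | succ t hst ih =>
    have h1 := ih (ind_nonempty_of_succ hN).1
    have h2 := uu_succ hr hH (hs.trans hst) hN
    have h3 : 0 ≤ (BI H (t+1) + VI H t) /
      (((t:ℝ)+1) * (t.choose (r-1) : ℝ) * ((Fintype.card V : ℝ) * NI H (t+1))) := by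
      have := BI_nonneg H (t+1)
      have := VI_nonneg H t
      positivity
    linarith

/-- If there is no independent `(M+1)`-set then `1 ≤ C(M, r-1) u_s`. -/
theorem one_le_choose_mul_uu {H : Finset (Finset V)} {r : ℕ} (hr : 2 ≤ r) (hH : ∀ e ∈ H, e.card = r)
    {s M : ℕ} (hM : NI H (M+1) = 0) (hs : r - 1 ≤ s) (hsM : s ≤ M) (hN : 0 < NI H s) :
    1 ≤ (M.choose (r-1) : ℝ) * uu H r s := by
  -- downward induction on `M - s`
  obtain ⟨d, hd⟩ : ∃ d, M = s + d := ⟨M - s, by omega⟩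
  induction d generalizing s with
  | zero =>
    have : M = s := by omega
    subst this
    have hb : beta H M = 1 := by unfold beta; rw [hM]; simp
    unfold uu
    have hc : (0:ℝ) < (M.choose (r-1) : ℝ) := by exact_mod_cast Nat.choose_pos hs
    rw [hb, mul_one_div_cancel hc.ne']
  | succ d ih =>
    by_cases h : 0 < NI H (s+1)
    · have h1 := ih (s := s+1) (by omega) (by omega) h (by omega)
      have h2 := uu_antitone hr hH hs (Nat.le_succ s) h
      have hc : (0:ℝ) ≤ (M.choose (r-1) : ℝ) := by positivity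
      exact h1.trans (mul_le_mul_of_nonneg_left h2 hc)
    · have h0 : NI H (s+1) = 0 := le_antisymm (not_lt.1 h) (NI_nonneg _ _)
      have hb : beta H s = 1 := by unfold beta; rw [h0]; simp
      unfold uu
      have hc : (0:ℝ) < (s.choose (r-1) : ℝ) := by exact_mod_cast Nat.choose_pos hs
      rw [hb, mul_one_div, le_div_iff₀ hc, one_mul]
      exact_mod_cast Nat.choose_le_choose (r-1) (by omega)

end Pool.Agent.Helper2.DC
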