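import Pool.Agent.Helper2.DC3

/-! Sets of size `r+1` spanning at least two but not all edges. -/

namespace Pool.Agent.Helper2.DC

open Finset

set_option linter.unusedSectionVars false

variable {V : Type*} [Fintype V] [DecidableEq V]

/-- `(r+1)`-sets that contain at least two but not all possible edges -/
def Mid (H : Finset (Finset V)) (r : ℕ) : Finset (Finset V) :=
  univ.filter (fun S => S.card = r+1 ∧ (∃ e₁ ∈ H, ∃ e₂ ∈ H, e₁ ≠ e₂ ∧ e₁ ⊆ S ∧ e₂ ⊆ S) ∧
    ∃ x ∈ S, S.erase x ∉ H)

theorem mem_Mid {H : Finset (Finset V)} {r : ℕ} {S : Finset V} : S ∈ Mid H r ↔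
    S.card = r+1 ∧ (∃ e₁ ∈ H, ∃ e₂ ∈ H, e₁ ≠ e₂ ∧ e₁ ⊆ S ∧ e₂ ⊆ S) ∧ ∃ x ∈ S, S.erase x ∉ H := by
  simp [Mid]

theorem card_Mid_le_BI {H : Finset (Finset V)} {r : ℕ} (hH : ∀ e ∈ H, e.card = r) :
    ((Mid H r).card : ℝ) ≤ BI H r := by
  unfold BI
  have h : (Mid H r).card ≤ ∑ S ∈ ind H r, (bad H S).card := by
    rw [← card_sigma]
    rcases isEmpty_or_nonempty V with hV | hV
    · have : Mid H r = ∅ := by
        rw [eq_empty_iff_forall_notMem]
        intro S hS
        obtain ⟨x, -⟩ := (mem_Mid.1 hS).2.2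
        exact hV.false x
      rw [this]; simp
    -- injection S ↦ (S.erase x, x)
    have hx : ∀ S : Finset V, ∃ x, S ∈ Mid H r → (x ∈ S ∧ S.erase x ∉ H) := by
      intro S
      by_cases hS : S ∈ Mid H r
      · obtain ⟨x, hx, hx'⟩ := (mem_Mid.1 hS).2.2
        exact ⟨x, fun _ => ⟨hx, hx'⟩⟩
      · exact ⟨hV.some, fun h => absurd h hS⟩
    choose f hf using hx
    refine card_le_card_of_injOn (fun S => (⟨S.erase (f S), f S⟩ : (_ : Finset V) × V)) ?_ ?_
    · intro S hS
      rw [mem_coe] at hS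
      obtain ⟨h1, h2⟩ := hf S hS
      obtain ⟨h3, h4, -⟩ := mem_Mid.1 hS
      rw [mem_coe, mem_sigma]
      refine ⟨?_, ?_⟩
      · rw [mem_ind]
        refine ⟨by rw [card_erase_of_mem h1, h3]; rfl, fun e he hes => h2 ?_⟩
        have : e = S.erase (f S) := eq_of_subset_of_card_le hes
          (by rw [card_erase_of_mem h1, h3, hH e he]; simp)
        rw [← this]; exact he
      · rw [mem_bad]
        refine ⟨notMem_erase _ _, ?_⟩
        simp only []
        rw [insert_erase h1]
        exact h4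
    · intro S hS T hT hST
      simp only [Sigma.mk.injEq, heq_eq_eq] at hST
      obtain ⟨h1, h2⟩ := hf S hS
      obtain ⟨h3, h4⟩ := hf T hT
      rw [← insert_erase h1, ← insert_erase h3, hST.1, hST.2]
  exact_mod_cast h

/-- distinctness facts extracted from an edge written as three vertices added to a `k`-set -/
theorem dist_of_mem {H : Finset (Finset V)} {k : ℕ} (hH : ∀ e ∈ H, e.card = k+3) {Z : Finset V}
    (hZ : Z.card = k) {a b c : V} (h : insert a (insert b (insert c Z)) ∈ H) :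
    a ≠ b ∧ a ≠ c ∧ b ≠ c ∧ a ∉ Z ∧ b ∉ Z ∧ c ∉ Z := by
  have hc := hH _ h
  have h1 := card_insert_le a (insert b (insert c Z))
  have h2 := card_insert_le b (insert c Z)
  have h3 := card_insert_le c Z
  have e1 : a ∉ insert b (insert c Z) := by
    intro hm; rw [insert_eq_of_mem hm] at hc; omega
  have e2 : b ∉ insert c Z := by
    intro hm; rw [insert_eq_of_mem hm] at h2 h1; rw [insert_eq_of_mem hm] at hc; omega
  have e3 : c ∉ Z := by
    intro hm; rw [insert_eq_of_mem hm] at h2 h1 h3 hc; omega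
  simp only [mem_insert, not_or] at e1 e2
  exact ⟨e1.1, e1.2.1, e2.1, e1.2.2, e2.2, e3⟩

/-- closure: if `Zabc`, `Zabd` are edges and `Zabcd` is not in `Mid`, then `Zacd` is an edge. -/
theorem closure_lemma {H : Finset (Finset V)} {k : ℕ} (hH : ∀ e ∈ H, e.card = k+3) {Z : Finset V}
    (hZ : Z.card = k) {a b c d : V} (h1 : insert a (insert b (insert c Z)) ∈ H)
    (h2 : insert a (insert b (insert d Z)) ∈ H) (hcd : c ≠ d)
    (hM : insert a (insert b (insert c (insert d Z))) ∉ Mid H (k+3)) :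
    insert a (insert c (insert d Z)) ∈ H := by
  obtain ⟨hab, hac, hbc, haZ, hbZ, hcZ⟩ := dist_of_mem hH hZ h1
  obtain ⟨-, had, hbd, -, -, hdZ⟩ := dist_of_mem hH hZ h2
  by_contra hne
  apply hM
  rw [mem_Mid]
  refine ⟨?_, ⟨_, h1, _, h2, ?_, ?_, ?_⟩, b, ?_, ?_⟩
  · rw [card_insert_of_notMem, card_insert_of_notMem, card_insert_of_notMem, card_insert_of_notMem,
      hZ]
    · exact hdZ
    · simp [hcd, hcZ]
    · simp [hbc, hbd, hbZ]
    · simp [hab, hac, had, haZ]
  · intro heq
    have : c ∈ insert a (insert b (insert d Z)) := by rw [← heq]; simp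
    simp [hcZ, hcd, hac.symm, hbc.symm] at this
  · intro x hx
    simp only [mem_insert] at hx ⊢
    tauto
  · intro x hx
    simp only [mem_insert] at hx ⊢
    tauto
  · simp
  · have heq : (insert a (insert b (insert c (insert d Z)))).erase b = insert a (insert c (insert d Z)) := by
      ext x
      simp only [mem_erase, mem_insert]
      constructor
      · rintro ⟨h, rfl | rfl | rfl | rfl | hx⟩ <;> tauto
      · rintro (rfl | rfl | rfl | hx)
        · exact ⟨hab, by tauto⟩
        · exact ⟨hbc.symm, by tauto⟩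
        · exact ⟨hbd.symm, by tauto⟩
        · exact ⟨fun h => hbZ (h ▸ hx), by tauto⟩
    rw [heq]; exact hne

/-- the pointwise statement behind the second Cauchy–Schwarz -/
theorem six_sets {H : Finset (Finset V)} {k : ℕ} (hH : ∀ e ∈ H, e.card = k+3) {Z : Finset V}
    (hZ : Z.card = k) {y1 y2 y3 y4 z z' : V}
    (f1 : insert y1 (insert y2 (insert z Z)) ∈ H) (f2 : insert y3 (insert y4 (insert z Z)) ∈ H)
    (f3 : insert y1 (insert y2 (insert z' Z)) ∈ H) (f4 : insert y3 (insert y4 (insert z' Z)) ∈ H)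
    (hz : z ≠ z') (h13 : y1 ≠ y3) (h23 : y2 ≠ y3) (h14 : y1 ≠ y4) (h24 : y2 ≠ y4)
    (m1 : insert y1 (insert y2 (insert z (insert z' Z))) ∉ Mid H (k+3))
    (m2 : insert y3 (insert y4 (insert z (insert z' Z))) ∉ Mid H (k+3))
    (m3 : insert z (insert z' (insert y1 (insert y3 Z))) ∉ Mid H (k+3))
    (m4 : insert y1 (insert z (insert y2 (insert y3 Z))) ∉ Mid H (k+3))
    (m5 : insert z (insert z' (insert y1 (insert y4 Z))) ∉ Mid H (k+3))
    (m6 : insert y1 (insert z (insert y2 (insert y4 Z))) ∉ Mid H (k+3)) :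
    insert y1 (insert y2 (insert y3 Z)) ∈ H ∧ insert y1 (insert y2 (insert y4 Z)) ∈ H := by
  have g1 := closure_lemma hH hZ f1 f3 hz m1 -- y1 z z'
  have g2 := closure_lemma hH hZ f2 f4 hz m2 -- y3 z z'
  have g2' : insert y4 (insert z (insert z' Z)) ∈ H := by
    rw [Finset.insert_comm y3 y4] at f2 f4
    rw [Finset.insert_comm y3 y4] at m2
    exact closure_lemma hH hZ f2 f4 hz m2
  have g3 : insert z (insert y1 (insert y3 Z)) ∈ H := by
    refine closure_lemma (b := z') hH hZ ?_ ?_ h13 m3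
    · rw [Finset.insert_comm z' y1, Finset.insert_comm z y1]; exact g1
    · rw [Finset.insert_comm z' y3, Finset.insert_comm z y3]; exact g2
  have g5 : insert z (insert y1 (insert y4 Z)) ∈ H := by
    refine closure_lemma (b := z') hH hZ ?_ ?_ h14 m5
    · rw [Finset.insert_comm z' y1, Finset.insert_comm z y1]; exact g1
    · rw [Finset.insert_comm z' y4, Finset.insert_comm z y4]; exact g2'
  constructor
  · refine closure_lemma (b := z) hH hZ ?_ ?_ h23 m4
    · rw [Finset.insert_comm z y2]; exact f1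
    · rw [Finset.insert_comm y1 z]; exact g3
  · refine closure_lemma (b := z) hH hZ ?_ ?_ h24 m6
    · rw [Finset.insert_comm z y2]; exact f1
    · rw [Finset.insert_comm y1 z]; exact g5

end Pool.Agent.Helper2.DC
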