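import Pool.Agent.Helper2.DC4

/-! The main counting inequality for fixed clique size. -/

namespace Pool.Agent.Helper2.DC

open Finset

set_option linter.unusedSectionVars false
set_option maxHeartbeats 1000000

variable {V : Type*} [Fintype V] [DecidableEq V]

/-! ### per-`Z` statements, for an abstract function `F` -/

section abstract

variable (F : V → V → V → ℝ)

/-- number of `z` -/
def nn (y : (V × V) × (V × V)) : ℝ := ∑ z, F y.1.1 y.1.2 z * F y.2.1 y.2.2 z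

/-- good indicator -/
def GG (y : (V × V) × (V × V)) : ℝ := F y.1.1 y.1.2 y.2.1 * F y.1.1 y.1.2 y.2.2

theorem abs1 : ∑ z, (∑ a, ∑ b, F a b z)^2 = ∑ y, nn F y := by
  have h : ∀ z, (∑ a, ∑ b, F a b z) = ∑ p : V × V, F p.1 p.2 z := by
    intro z; rw [Fintype.sum_prod_type]
  simp only [h]
  unfold nn
  rw [Fintype.sum_prod_type]
  simp only [pow_two, sum_mul_sum]
  rw [sum_comm]
  refine sum_congr rfl (fun p _ => ?_)
  rw [sum_comm]

variable {F}
variable (h0 : ∀ a b c, 0 ≤ F a b c) (h1 : ∀ a b c, F a b c ≤ 1)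

include h0 h1

theorem nn_nonneg (y : (V × V) × (V × V)) : 0 ≤ nn F y :=
  sum_nonneg (fun _ _ => mul_nonneg (h0 _ _ _) (h0 _ _ _))

theorem GG_nonneg (y : (V × V) × (V × V)) : 0 ≤ GG F y := mul_nonneg (h0 _ _ _) (h0 _ _ _)

theorem GG_le_one (y : (V × V) × (V × V)) : GG F y ≤ 1 :=
  mul_le_one₀ (h1 _ _ _) (h0 _ _ _) (h1 _ _ _)

theorem abs2 : ∑ y, GG F y * nn F y ≤ ∑ a, ∑ b, (∑ z, F a b z)^3 := by
  have e : ∑ a, ∑ b, (∑ z, F a b z)^3 = ∑ p : V × V, (∑ z, F p.1 p.2 z)^3 := by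
    rw [Fintype.sum_prod_type]
  rw [e, Fintype.sum_prod_type]
  refine sum_le_sum (fun p _ => ?_)
  have h2 : ∀ q : V × V, GG F (p, q) * nn F (p, q) ≤
      (F p.1 p.2 q.1 * F p.1 p.2 q.2) * ∑ z, F p.1 p.2 z := by
    intro q
    refine mul_le_mul_of_nonneg_left ?_ (GG_nonneg h0 h1 _)
    unfold nn
    refine sum_le_sum (fun z _ => ?_)
    have := mul_le_mul_of_nonneg_left (h1 q.1 q.2 z) (h0 p.1 p.2 z)
    simpa using this
  refine (sum_le_sum (fun q _ => h2 q)).trans (le_of_eq ?_)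
  rw [← sum_mul, Fintype.sum_prod_type]
  simp only
  rw [← sum_mul_sum]
  ring

theorem abs3 (y : (V × V) × (V × V)) : ((1 - GG F y) * nn F y)^2 ≤
    ∑ z, ∑ z', (1 - GG F y) * ((F y.1.1 y.1.2 z * F y.2.1 y.2.2 z) *
      (F y.1.1 y.1.2 z' * F y.2.1 y.2.2 z')) := by
  have h2 : ∑ z, ∑ z', (1 - GG F y) * ((F y.1.1 y.1.2 z * F y.2.1 y.2.2 z) *
      (F y.1.1 y.1.2 z' * F y.2.1 y.2.2 z')) = (1 - GG F y) * (nn F y)^2 := by
    unfold nn
    rw [pow_two, sum_mul_sum, mul_sum]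
    refine sum_congr rfl (fun z _ => ?_)
    rw [mul_sum]
  rw [h2, mul_pow]
  refine mul_le_mul_of_nonneg_right ?_ (sq_nonneg _)
  have := GG_nonneg h0 h1 y
  have := GG_le_one h0 h1 y
  nlinarith

end abstract

section sums

variable (g : V → V → V → V → ℝ)

set_option linter.unusedSimpArgs false

theorem s1234 : ∑ y : (V × V) × (V × V), ∑ z : V, ∑ z' : V, g y.1.1 y.1.2 z z' =
    (Fintype.card V : ℝ)^2 * ∑ a, ∑ b, ∑ c, ∑ d, g a b c d := by
  simp only [Fintype.sum_prod_type, Finset.sum_const, Finset.card_univ, nsmul_eq_mul,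
    ← Finset.mul_sum, Fintype.card_prod, Nat.cast_mul]
  ring

theorem s3456 : ∑ y : (V × V) × (V × V), ∑ z : V, ∑ z' : V, g y.2.1 y.2.2 z z' =
    (Fintype.card V : ℝ)^2 * ∑ a, ∑ b, ∑ c, ∑ d, g a b c d := by
  simp only [Fintype.sum_prod_type, Finset.sum_const, Finset.card_univ, nsmul_eq_mul,
    ← Finset.mul_sum, Fintype.card_prod, Nat.cast_mul]
  ring

theorem s1356 : ∑ y : (V × V) × (V × V), ∑ z : V, ∑ z' : V, g y.1.1 y.2.1 z z' =
    (Fintype.card V : ℝ)^2 * ∑ a, ∑ b, ∑ c, ∑ d, g a b c d := by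
  simp only [Fintype.sum_prod_type, Finset.sum_const, Finset.card_univ, nsmul_eq_mul,
    ← Finset.mul_sum, Fintype.card_prod, Nat.cast_mul]
  ring

theorem s1235 : ∑ y : (V × V) × (V × V), ∑ z : V, ∑ _z' : V, g y.1.1 y.1.2 y.2.1 z =
    (Fintype.card V : ℝ)^2 * ∑ a, ∑ b, ∑ c, ∑ d, g a b c d := by
  simp only [Fintype.sum_prod_type, Finset.sum_const, Finset.card_univ, nsmul_eq_mul,
    ← Finset.mul_sum, Fintype.card_prod, Nat.cast_mul]
  ring

theorem s1456 : ∑ y : (V × V) × (V × V), ∑ z : V, ∑ z' : V, g y.1.1 y.2.2 z z' =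
    (Fintype.card V : ℝ)^2 * ∑ a, ∑ b, ∑ c, ∑ d, g a b c d := by
  simp only [Fintype.sum_prod_type, Finset.sum_const, Finset.card_univ, nsmul_eq_mul,
    ← Finset.mul_sum, Fintype.card_prod, Nat.cast_mul]
  ring

theorem s1245 : ∑ y : (V × V) × (V × V), ∑ z : V, ∑ _z' : V, g y.1.1 y.1.2 y.2.2 z =
    (Fintype.card V : ℝ)^2 * ∑ a, ∑ b, ∑ c, ∑ d, g a b c d := by
  simp only [Fintype.sum_prod_type, Finset.sum_const, Finset.card_univ, nsmul_eq_mul,
    ← Finset.mul_sum, Fintype.card_prod, Nat.cast_mul]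
  ring

theorem dd1 : ∑ _y : (V × V) × (V × V), ∑ z : V, ∑ z' : V, (if z = z' then (1:ℝ) else 0) =
    (Fintype.card V : ℝ)^5 := by
  simp only [Fintype.sum_prod_type, Finset.sum_const, Finset.card_univ, nsmul_eq_mul,
    ← Finset.mul_sum, Fintype.card_prod, Nat.cast_mul, Finset.sum_ite_eq, mem_univ, if_true]
  ring
theorem dd2 : ∑ y : (V × V) × (V × V), ∑ _z : V, ∑ _z' : V, (if y.1.1 = y.2.1 then (1:ℝ) else 0) =
    (Fintype.card V : ℝ)^5 := by
  have h : ∀ x x_2 : V, ∑ _x_3 : V, (if x = x_2 then (1:ℝ) else 0) =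
      (Fintype.card V : ℝ) * (if x = x_2 then (1:ℝ) else 0) := by
    intro x x_2; rw [Finset.sum_const, Finset.card_univ, nsmul_eq_mul]
  simp only [Fintype.sum_prod_type, Finset.sum_const, Finset.card_univ, nsmul_eq_mul,
    ← Finset.mul_sum, Fintype.card_prod, Nat.cast_mul, h, Finset.sum_ite_eq, mem_univ, if_true]
  ring
theorem dd3 : ∑ y : (V × V) × (V × V), ∑ _z : V, ∑ _z' : V, (if y.1.2 = y.2.1 then (1:ℝ) else 0) =
    (Fintype.card V : ℝ)^5 := by
  have h : ∀ x x_2 : V, ∑ _x_3 : V, (if x = x_2 then (1:ℝ) else 0) =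
      (Fintype.card V : ℝ) * (if x = x_2 then (1:ℝ) else 0) := by
    intro x x_2; rw [Finset.sum_const, Finset.card_univ, nsmul_eq_mul]
  simp only [Fintype.sum_prod_type, Finset.sum_const, Finset.card_univ, nsmul_eq_mul,
    ← Finset.mul_sum, Fintype.card_prod, Nat.cast_mul, h, Finset.sum_ite_eq, mem_univ, if_true]
  ring
theorem dd4 : ∑ y : (V × V) × (V × V), ∑ _z : V, ∑ _z' : V, (if y.1.1 = y.2.2 then (1:ℝ) else 0) =
    (Fintype.card V : ℝ)^5 := by
  simp only [Fintype.sum_prod_type, Finset.sum_const, Finset.card_univ, nsmul_eq_mul,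
    ← Finset.mul_sum, Fintype.card_prod, Nat.cast_mul, Finset.sum_ite_eq, mem_univ, if_true]
  ring
theorem dd5 : ∑ y : (V × V) × (V × V), ∑ _z : V, ∑ _z' : V, (if y.1.2 = y.2.2 then (1:ℝ) else 0) =
    (Fintype.card V : ℝ)^5 := by
  simp only [Fintype.sum_prod_type, Finset.sum_const, Finset.card_univ, nsmul_eq_mul,
    ← Finset.mul_sum, Fintype.card_prod, Nat.cast_mul, Finset.sum_ite_eq, mem_univ, if_true]
  ring

end sums


/-! ### the functions attached to `H` -/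

/-- indicator that three vertices complete `Z` to an edge -/
def F3 (H : Finset (Finset V)) (Z : Finset V) (a b c : V) : ℝ :=
  chi H (insert a (insert b (insert c Z)))

/-- indicator that four vertices complete `Z` to a member of `A` -/
def G4 (A : Finset (Finset V)) (Z : Finset V) (a b c d : V) : ℝ :=
  chi A (insert d (insert c (insert b (insert a Z))))

theorem F3_nonneg (H : Finset (Finset V)) (Z : Finset V) (a b c : V) : 0 ≤ F3 H Z a b c :=
  chi_nonneg _ _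
theorem F3_le_one (H : Finset (Finset V)) (Z : Finset V) (a b c : V) : F3 H Z a b c ≤ 1 :=
  chi_le_one _ _
theorem G4_nonneg (H : Finset (Finset V)) (Z : Finset V) (a b c d : V) : 0 ≤ G4 H Z a b c d :=
  chi_nonneg _ _

theorem F3_zero_or_one (H : Finset (Finset V)) (Z : Finset V) (a b c : V) :
    F3 H Z a b c = 0 ∨ (F3 H Z a b c = 1 ∧ insert a (insert b (insert c Z)) ∈ H) := by
  unfold F3 chi
  split_ifs with h
  · exact Or.inr ⟨rfl, h⟩
  · exact Or.inl rfl

theorem perm_a (a b c d : V) (Z : Finset V) :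
    insert d (insert c (insert b (insert a Z))) = insert a (insert b (insert c (insert d Z))) := by
  ext x; simp only [mem_insert]; tauto

theorem perm_b (a b c d : V) (Z : Finset V) :
    insert d (insert c (insert b (insert a Z))) = insert c (insert d (insert a (insert b Z))) := by
  ext x; simp only [mem_insert]; tauto

theorem perm_c (a b c d : V) (Z : Finset V) :
    insert d (insert c (insert b (insert a Z))) = insert a (insert d (insert b (insert c Z))) := by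
  ext x; simp only [mem_insert]; tauto

theorem G4_one {A : Finset (Finset V)} {Z : Finset V} {a b c d : V}
    (h : insert d (insert c (insert b (insert a Z))) ∈ A) : G4 A Z a b c d = 1 := if_pos h

theorem pointwise {H : Finset (Finset V)} {k : ℕ} (hH : ∀ e ∈ H, e.card = k+3) {Z : Finset V}
    (hZ : Z.card = k) (y : (V × V) × (V × V)) (z z' : V) :
    (1 - GG (F3 H Z) y) * ((F3 H Z y.1.1 y.1.2 z * F3 H Z y.2.1 y.2.2 z) *
      (F3 H Z y.1.1 y.1.2 z' * F3 H Z y.2.1 y.2.2 z')) ≤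
    ((if z = z' then (1:ℝ) else 0) + (if y.1.1 = y.2.1 then (1:ℝ) else 0) +
      (if y.1.2 = y.2.1 then (1:ℝ) else 0) + (if y.1.1 = y.2.2 then (1:ℝ) else 0) +
      (if y.1.2 = y.2.2 then (1:ℝ) else 0)) +
    (G4 (Mid H (k+3)) Z y.1.1 y.1.2 z z' + G4 (Mid H (k+3)) Z y.2.1 y.2.2 z z' +
      G4 (Mid H (k+3)) Z y.1.1 y.2.1 z z' + G4 (Mid H (k+3)) Z y.1.1 y.1.2 y.2.1 z +
      G4 (Mid H (k+3)) Z y.1.1 y.2.2 z z' + G4 (Mid H (k+3)) Z y.1.1 y.1.2 y.2.2 z) := by
  obtain ⟨⟨y1, y2⟩, ⟨y3, y4⟩⟩ := y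
  simp only
  set A := Mid H (k+3) with hA
  have hG0 := GG_nonneg (F3_nonneg H Z) (F3_le_one H Z) ((y1, y2), (y3, y4))
  have hG1 := GG_le_one (F3_nonneg H Z) (F3_le_one H Z) ((y1, y2), (y3, y4))
  have i1 : (0:ℝ) ≤ if z = z' then (1:ℝ) else 0 := by split_ifs <;> norm_num
  have i2 : (0:ℝ) ≤ if y1 = y3 then (1:ℝ) else 0 := by split_ifs <;> norm_num
  have i3 : (0:ℝ) ≤ if y2 = y3 then (1:ℝ) else 0 := by split_ifs <;> norm_num
  have i4 : (0:ℝ) ≤ if y1 = y4 then (1:ℝ) else 0 := by split_ifs <;> norm_num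
  have i5 : (0:ℝ) ≤ if y2 = y4 then (1:ℝ) else 0 := by split_ifs <;> norm_num
  have c1 := G4_nonneg A Z y1 y2 z z'
  have c2 := G4_nonneg A Z y3 y4 z z'
  have c3 := G4_nonneg A Z y1 y3 z z'
  have c4 := G4_nonneg A Z y1 y2 y3 z
  have c5 := G4_nonneg A Z y1 y4 z z'
  have c6 := G4_nonneg A Z y1 y2 y4 z
  have hL : (1 - GG (F3 H Z) ((y1, y2), (y3, y4))) * ((F3 H Z y1 y2 z * F3 H Z y3 y4 z) *
      (F3 H Z y1 y2 z' * F3 H Z y3 y4 z')) ≤ 1 := by
    have a1 := mul_le_one₀ (F3_le_one H Z y1 y2 z) (F3_nonneg H Z y3 y4 z) (F3_le_one H Z y3 y4 z)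
    have a2 := mul_le_one₀ (F3_le_one H Z y1 y2 z') (F3_nonneg H Z y3 y4 z') (F3_le_one H Z y3 y4 z')
    have a3 := mul_nonneg (F3_nonneg H Z y1 y2 z) (F3_nonneg H Z y3 y4 z)
    have a4 := mul_nonneg (F3_nonneg H Z y1 y2 z') (F3_nonneg H Z y3 y4 z')
    exact mul_le_one₀ (by linarith) (mul_nonneg a3 a4) (mul_le_one₀ a1 a4 a2)
  rcases F3_zero_or_one H Z y1 y2 z with h1 | ⟨h1, f1⟩
  · rw [h1]; simp only [zero_mul, mul_zero]; linarith
  rcases F3_zero_or_one H Z y3 y4 z with h2 | ⟨h2, f2⟩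
  · rw [h2]; simp only [zero_mul, mul_zero]; linarith
  rcases F3_zero_or_one H Z y1 y2 z' with h3 | ⟨h3, f3⟩
  · rw [h3]; simp only [zero_mul, mul_zero]; linarith
  rcases F3_zero_or_one H Z y3 y4 z' with h4 | ⟨h4, f4⟩
  · rw [h4]; simp only [mul_zero]; linarith
  by_cases e1 : z = z'
  · have : (if z = z' then (1:ℝ) else 0) = 1 := if_pos e1
    linarith
  by_cases e2 : y1 = y3
  · have : (if y1 = y3 then (1:ℝ) else 0) = 1 := if_pos e2
    linarith
  by_cases e3 : y2 = y3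
  · have : (if y2 = y3 then (1:ℝ) else 0) = 1 := if_pos e3
    linarith
  by_cases e4 : y1 = y4
  · have : (if y1 = y4 then (1:ℝ) else 0) = 1 := if_pos e4
    linarith
  by_cases e5 : y2 = y4
  · have : (if y2 = y4 then (1:ℝ) else 0) = 1 := if_pos e5
    linarith
  by_cases m1 : insert y1 (insert y2 (insert z (insert z' Z))) ∈ A
  · have := G4_one (A := A) (Z := Z) (a := y1) (b := y2) (c := z) (d := z') (by rw [perm_a]; exact m1)
    linarith
  by_cases m2 : insert y3 (insert y4 (insert z (insert z' Z))) ∈ A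
  · have := G4_one (A := A) (Z := Z) (a := y3) (b := y4) (c := z) (d := z') (by rw [perm_a]; exact m2)
    linarith
  by_cases m3 : insert z (insert z' (insert y1 (insert y3 Z))) ∈ A
  · have := G4_one (A := A) (Z := Z) (a := y1) (b := y3) (c := z) (d := z') (by rw [perm_b]; exact m3)
    linarith
  by_cases m4 : insert y1 (insert z (insert y2 (insert y3 Z))) ∈ A
  · have := G4_one (A := A) (Z := Z) (a := y1) (b := y2) (c := y3) (d := z) (by rw [perm_c]; exact m4)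
    linarith
  by_cases m5 : insert z (insert z' (insert y1 (insert y4 Z))) ∈ A
  · have := G4_one (A := A) (Z := Z) (a := y1) (b := y4) (c := z) (d := z') (by rw [perm_b]; exact m5)
    linarith
  by_cases m6 : insert y1 (insert z (insert y2 (insert y4 Z))) ∈ A
  · have := G4_one (A := A) (Z := Z) (a := y1) (b := y2) (c := y4) (d := z) (by rw [perm_c]; exact m6)
    linarith
  obtain ⟨g1, g2⟩ := six_sets hH hZ f1 f2 f3 f4 e1 e2 e3 e4 e5 m1 m2 m3 m4 m5 m6
  have hG : GG (F3 H Z) ((y1, y2), (y3, y4)) = 1 := by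
    unfold GG F3 chi
    simp only
    rw [if_pos g1, if_pos g2]; norm_num
  rw [hG]
  simp only [sub_self, zero_mul]
  linarith

end Pool.Agent.Helper2.DC
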