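import Pool.Agent.Helper2.DC5

/-! The main counting inequality for fixed clique size. -/

namespace Pool.Agent.Helper2.DC

open Finset

set_option linter.unusedSectionVars false
set_option maxHeartbeats 1000000

variable {V : Type*} [Fintype V] [DecidableEq V]

theorem sum_F3 {H : Finset (Finset V)} {k : ℕ} (hH : ∀ e ∈ H, e.card = k+3) :
    ∑ Z ∈ powersetCard k (univ : Finset V), ∑ z : V, ∑ a : V, ∑ b : V, F3 H Z a b z
      = ((k:ℝ)+1) * ((k:ℝ)+2) * ((k:ℝ)+3) * (H.card : ℝ) := by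
  rw [← sum_chi3 hH]
  refine sum_congr rfl (fun Z _ => sum_congr rfl (fun z _ => ?_))
  rw [sum_comm]
  rfl

theorem sum_G4 {A : Finset (Finset V)} {k : ℕ} (hA : ∀ e ∈ A, e.card = k+4) :
    ∑ Z ∈ powersetCard k (univ : Finset V), ∑ a : V, ∑ b : V, ∑ c : V, ∑ d : V, G4 A Z a b c d
      = ((k:ℝ)+1) * ((k:ℝ)+2) * ((k:ℝ)+3) * ((k:ℝ)+4) * (A.card : ℝ) := by
  rw [← sum_chi4 hA]
  rfl

theorem cs2 {α β : Type*} [Fintype β] (s : Finset α) (f : α → β → ℝ) :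
    (∑ i ∈ s, ∑ j : β, f i j)^2 ≤ ((s.card : ℝ) * (Fintype.card β : ℝ)) *
      ∑ i ∈ s, ∑ j : β, (f i j)^2 := by
  rw [← sum_product', ← sum_product']
  refine (sq_sum_le_card_mul_sum_sq).trans (le_of_eq ?_)
  rw [card_product, card_univ]
  push_cast
  rfl

/-- lower bound, by Cauchy–Schwarz -/
theorem lower {H : Finset (Finset V)} {k : ℕ} (hH : ∀ e ∈ H, e.card = k+3) :
    (((k:ℝ)+1) * ((k:ℝ)+2) * ((k:ℝ)+3) * (H.card : ℝ))^2 ≤
      (((Fintype.card V).choose k : ℝ) * (Fintype.card V : ℝ)) *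
      ∑ Z ∈ powersetCard k (univ : Finset V), ∑ z : V, (∑ a : V, ∑ b : V, F3 H Z a b z)^2 := by
  rw [← sum_F3 hH]
  refine (cs2 _ _).trans (le_of_eq ?_)
  rw [card_powersetCard, card_univ]

/-- splitting -/
theorem upper_split (H : Finset (Finset V)) (k : ℕ) :
    ∑ Z ∈ powersetCard k (univ : Finset V), ∑ z : V, (∑ a : V, ∑ b : V, F3 H Z a b z)^2
      ≤ ∑ Z ∈ powersetCard k (univ : Finset V), ∑ a : V, ∑ b : V, (∑ z : V, F3 H Z a b z)^3
        + ∑ Z ∈ powersetCard k (univ : Finset V), ∑ y : (V × V) × (V × V),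
            (1 - GG (F3 H Z) y) * nn (F3 H Z) y := by
  rw [← sum_add_distrib]
  refine sum_le_sum (fun Z _ => ?_)
  rw [abs1 (F3 H Z)]
  have h := abs2 (F3_nonneg H Z) (F3_le_one H Z)
  have h2 : ∑ y, nn (F3 H Z) y = ∑ y, GG (F3 H Z) y * nn (F3 H Z) y +
      ∑ y, (1 - GG (F3 H Z) y) * nn (F3 H Z) y := by
    rw [← sum_add_distrib]
    refine sum_congr rfl (fun y _ => by ring)
  rw [h2]
  linarith

theorem upper_second {H : Finset (Finset V)} {k : ℕ} (hH : ∀ e ∈ H, e.card = k+3) :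
    (∑ Z ∈ powersetCard k (univ : Finset V), ∑ y : (V × V) × (V × V),
            (1 - GG (F3 H Z) y) * nn (F3 H Z) y)^2 ≤
      (((Fintype.card V).choose k : ℝ) * (Fintype.card V : ℝ)^4) *
      (5 * ((Fintype.card V).choose k : ℝ) * (Fintype.card V : ℝ)^5 +
        6 * (Fintype.card V : ℝ)^2 * (((k:ℝ)+1) * ((k:ℝ)+2) * ((k:ℝ)+3) * ((k:ℝ)+4) *
          ((Mid H (k+3)).card : ℝ))) := by
  refine (cs2 _ _).trans ?_
  rw [card_powersetCard, card_univ, Fintype.card_prod, Fintype.card_prod]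
  have e1 : (((Fintype.card V).choose k : ℕ) : ℝ) * ((Fintype.card V * Fintype.card V *
      (Fintype.card V * Fintype.card V) : ℕ) : ℝ) =
      (((Fintype.card V).choose k : ℝ) * (Fintype.card V : ℝ)^4) := by push_cast; ring
  rw [e1]
  refine mul_le_mul_of_nonneg_left ?_ (by positivity)
  have hM : ∀ e ∈ Mid H (k+3), e.card = k+4 := fun e he => (mem_Mid.1 he).1
  have hG := sum_G4 hM
  have h1 : ∀ Z ∈ powersetCard k (univ : Finset V), ∑ y : (V × V) × (V × V),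
      ((1 - GG (F3 H Z) y) * nn (F3 H Z) y)^2 ≤ 5 * (Fintype.card V : ℝ)^5 +
        6 * ((Fintype.card V : ℝ)^2 * ∑ a : V, ∑ b : V, ∑ c : V, ∑ d : V,
          G4 (Mid H (k+3)) Z a b c d) := by
    intro Z hZ
    have hZ' := (mem_powersetCard.1 hZ).2
    calc ∑ y : (V × V) × (V × V), ((1 - GG (F3 H Z) y) * nn (F3 H Z) y)^2
        ≤ ∑ y : (V × V) × (V × V), ∑ z : V, ∑ z' : V,
          (((if z = z' then (1:ℝ) else 0) + (if y.1.1 = y.2.1 then (1:ℝ) else 0) +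
      (if y.1.2 = y.2.1 then (1:ℝ) else 0) + (if y.1.1 = y.2.2 then (1:ℝ) else 0) +
      (if y.1.2 = y.2.2 then (1:ℝ) else 0)) +
    (G4 (Mid H (k+3)) Z y.1.1 y.1.2 z z' + G4 (Mid H (k+3)) Z y.2.1 y.2.2 z z' +
      G4 (Mid H (k+3)) Z y.1.1 y.2.1 z z' + G4 (Mid H (k+3)) Z y.1.1 y.1.2 y.2.1 z +
      G4 (Mid H (k+3)) Z y.1.1 y.2.2 z z' + G4 (Mid H (k+3)) Z y.1.1 y.1.2 y.2.2 z)) := by
          refine sum_le_sum (fun y _ => ?_)
          refine (abs3 (F3_nonneg H Z) (F3_le_one H Z) y).trans ?_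
          refine sum_le_sum (fun z _ => sum_le_sum (fun z' _ => ?_))
          exact pointwise hH hZ' y z z'
      _ = 5 * (Fintype.card V : ℝ)^5 +
        6 * ((Fintype.card V : ℝ)^2 * ∑ a : V, ∑ b : V, ∑ c : V, ∑ d : V,
          G4 (Mid H (k+3)) Z a b c d) := by
          simp only [sum_add_distrib]
          rw [dd1, dd2, dd3, dd4, dd5, s1234, s3456, s1356, s1235, s1456, s1245]
          ring
  refine (sum_le_sum h1).trans (le_of_eq ?_)
  rw [sum_add_distrib, sum_const, card_powersetCard, card_univ, ← mul_sum, ← mul_sum, hG]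
  rw [nsmul_eq_mul]
  ring


/-! ### the variance term -/

/-- codegree -/
def cod (H : Finset (Finset V)) (Q : Finset V) : ℝ := ∑ z : V, chi H (insert z Q)

theorem F3_cod (H : Finset (Finset V)) (Z : Finset V) (a b : V) :
    ∑ z : V, F3 H Z a b z = cod H (insert a (insert b Z)) := by
  unfold cod F3
  refine sum_congr rfl (fun z _ => ?_)
  congr 1
  rw [insert_comm z a, insert_comm z b]

theorem cod_nonneg (H : Finset (Finset V)) (Q : Finset V) : 0 ≤ cod H Q :=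
  sum_nonneg (fun _ _ => chi_nonneg _ _)

theorem cod_le (H : Finset (Finset V)) (Q : Finset V) : cod H Q ≤ (Fintype.card V : ℝ) := by
  unfold cod
  refine (sum_le_sum (fun z _ => chi_le_one _ _)).trans ?_
  simp

theorem sum_two {k : ℕ} (g : Finset V → ℝ) (hg : ∀ Z : Finset V, Z.card < k+2 → g Z = 0) :
    ∑ Z ∈ powersetCard k (univ : Finset V), ∑ b : V, ∑ a : V, g (insert a (insert b Z))
      = ((k:ℝ)+1) * ((k:ℝ)+2) * ∑ Q ∈ powersetCard (k+2) (univ : Finset V), g Q := by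
  rw [sum_insert_of_zero k (fun Q => ∑ a : V, g (insert a Q))]
  · rw [sum_insert_of_zero (k+1) g]
    · push_cast; ring
    · intro Z hZ; exact hg Z (by omega)
  · intro Z hZ
    refine sum_eq_zero (fun a _ => hg _ ?_)
    exact card_insert_lt (by omega)

theorem cod_zero {H : Finset (Finset V)} {k : ℕ} (hH : ∀ e ∈ H, e.card = k+3) {Q : Finset V}
    (hQ : Q.card < k+2) : cod H Q = 0 :=
  sum_eq_zero (fun _ _ => chi_eq_zero hH (card_insert_lt (by omega)))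

theorem ext_cod {H : Finset (Finset V)} {k : ℕ} (hH : ∀ e ∈ H, e.card = k+3) {Q : Finset V}
    (hQ : Q.card = k+2) :
    ((ext H Q).card : ℝ) = (Fintype.card V : ℝ) - ((k:ℝ)+2) - cod H Q := by
  have h1 := card_split H Q
  have h2 : cod H Q = ((bl H Q).card : ℝ) := by
    unfold cod chi
    rw [← sum_filter, sum_const, nsmul_eq_mul, mul_one]
    congr 2
    ext x
    rw [mem_filter, mem_bl]
    constructor
    · rintro ⟨-, hx⟩
      refine ⟨fun hm => ?_, fun hI => hI _ hx (subset_refl _)⟩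
      have := hH _ hx
      rw [insert_eq_of_mem hm, hQ] at this
      omega
    · rintro ⟨hx, hI⟩
      refine ⟨mem_univ _, ?_⟩
      unfold Ind at hI
      push Not at hI
      obtain ⟨e, he, hes⟩ := hI
      have : e = insert x Q := eq_of_subset_of_card_le hes
        (by rw [card_insert_of_notMem hx, hQ, hH e he])
      rw [← this]; exact he
  rw [h2, ← h1, hQ]; push_cast; ring

theorem variance {H : Finset (Finset V)} {k : ℕ} (hH : ∀ e ∈ H, e.card = k+3)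
    (hn : k + 3 ≤ Fintype.card V) :
    ∃ c : ℝ, ∑ Z ∈ powersetCard k (univ : Finset V), ∑ a : V, ∑ b : V,
      ((∑ z : V, F3 H Z a b z) - c)^2 ≤ ((k:ℝ)+1) * ((k:ℝ)+2) * VI H (k+2) +
        (2*(k:ℝ)+1) * ((Fintype.card V).choose k : ℝ) * (Fintype.card V : ℝ)^3 := by
  set n := Fintype.card V with hnn
  set c : ℝ := (n:ℝ) * beta H (k+2) - ((k:ℝ)+2) with hc
  refine ⟨c, ?_⟩
  have hn' : (k:ℝ) + 3 ≤ n := by exact_mod_cast hn
  have hk0 : (0:ℝ) ≤ k := by positivity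
  have hc1 : c ≤ n := by
    have h := beta_le_one (H := H) (s := k+2)
    have : (n:ℝ) * beta H (k+2) ≤ n * 1 := mul_le_mul_of_nonneg_left h (by positivity)
    rw [hc]; linarith
  have hc2 : -(n:ℝ) ≤ c := by
    have h := beta_nonneg (H := H) (s := k+2)
    have : 0 ≤ (n:ℝ) * beta H (k+2) := mul_nonneg (by positivity) h
    rw [hc]; linarith
  have hc3 : c^2 ≤ (n:ℝ)^2 := by nlinarith
  have e1 : ∑ Z ∈ powersetCard k (univ : Finset V), ∑ a : V, ∑ b : V,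
      ((∑ z : V, F3 H Z a b z) - c)^2 = ∑ Z ∈ powersetCard k (univ : Finset V), ∑ b : V, ∑ a : V,
        ((fun Q => (cod H Q)^2 - 2*c*cod H Q) (insert a (insert b Z)) + c^2) := by
    refine sum_congr rfl (fun Z _ => ?_)
    rw [sum_comm]
    refine sum_congr rfl (fun b _ => sum_congr rfl (fun a _ => ?_))
    rw [F3_cod]; ring
  rw [e1]
  simp only [sum_add_distrib]
  rw [sum_two (fun Q => (cod H Q)^2 - 2*c*cod H Q)
    (fun Q hQ => by
      change (cod H Q)^2 - 2*c*cod H Q = 0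
      rw [cod_zero hH hQ]; ring)]
  have e2 : ∑ Q ∈ powersetCard (k+2) (univ : Finset V), ((cod H Q)^2 - 2*c*cod H Q)
      = VI H (k+2) - ((n.choose (k+2) : ℕ) : ℝ) * c^2 := by
    have e3 : VI H (k+2) = ∑ Q ∈ powersetCard (k+2) (univ : Finset V), (cod H Q - c)^2 := by
      unfold VI
      rw [ind_of_lt hH (by omega : k+2 < k+3)]
      refine sum_congr rfl (fun Q hQ => ?_)
      rw [ext_cod hH (mem_powersetCard.1 hQ).2, hc]
      ring
    rw [e3]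
    have e4 : ((n.choose (k+2) : ℕ) : ℝ) * c^2 = ∑ Q ∈ powersetCard (k+2) (univ : Finset V), c^2 := by
      rw [sum_const, card_powersetCard, card_univ, nsmul_eq_mul]
    rw [e4, ← sum_sub_distrib]
    refine sum_congr rfl (fun Q _ => by ring)
  rw [e2]
  have e5 : ∑ Z ∈ powersetCard k (univ : Finset V), ∑ b : V, ∑ a : V, c^2 =
      ((n.choose k : ℕ) : ℝ) * (n:ℝ)^2 * c^2 := by
    simp only [sum_const, card_powersetCard, card_univ, nsmul_eq_mul]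
    rw [← hnn]; ring
  rw [e5]
  have e6 : ((k:ℝ)+1) * ((k:ℝ)+2) * ((n.choose (k+2) : ℕ) : ℝ) =
      ((n:ℝ)-k) * ((n:ℝ)-k-1) * ((n.choose k : ℕ) : ℝ) := by
    have h1 := Nat.choose_succ_right_eq n k
    have h2 := Nat.choose_succ_right_eq n (k+1)
    have h3 : ((n.choose (k+1) * (k+1) : ℕ) : ℝ) = ((n.choose k * (n-k) : ℕ) : ℝ) := by rw [h1]
    have h4 : ((n.choose (k+2) * (k+2) : ℕ) : ℝ) = ((n.choose (k+1) * (n-(k+1)) : ℕ) : ℝ) := by
      rw [← h2]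
    push_cast [Nat.cast_sub (show k ≤ n by omega), Nat.cast_sub (show k+1 ≤ n by omega)] at h3 h4
    calc ((k:ℝ)+1) * ((k:ℝ)+2) * ((n.choose (k+2) : ℕ) : ℝ)
        = ((k:ℝ)+1) * (((n.choose (k+2) : ℕ) : ℝ) * ((k:ℝ)+2)) := by ring
      _ = ((k:ℝ)+1) * (((n.choose (k+1) : ℕ) : ℝ) * ((n:ℝ) - ((k:ℝ)+1))) := by rw [h4]
      _ = (((n.choose (k+1) : ℕ) : ℝ) * ((k:ℝ)+1)) * ((n:ℝ) - ((k:ℝ)+1)) := by ring
      _ = _ := by rw [h3]; ring
  have e7 : (0:ℝ) ≤ ((n.choose k : ℕ) : ℝ) := by positivity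
  have e8 : ((k:ℝ)+1) * ((k:ℝ)+2) * (VI H (k+2) - ((n.choose (k+2) : ℕ) : ℝ) * c^2) +
      ((n.choose k : ℕ) : ℝ) * (n:ℝ)^2 * c^2 = ((k:ℝ)+1) * ((k:ℝ)+2) * VI H (k+2) +
      c^2 * (((n.choose k : ℕ) : ℝ) * ((2*k+1)*n - k*(k+1))) := by
    have : ((k:ℝ)+1) * ((k:ℝ)+2) * (VI H (k+2) - ((n.choose (k+2) : ℕ) : ℝ) * c^2) =
      ((k:ℝ)+1) * ((k:ℝ)+2) * VI H (k+2) - (((k:ℝ)+1) * ((k:ℝ)+2) * ((n.choose (k+2) : ℕ) : ℝ)) * c^2 := by
      ring
    rw [this, e6]; ring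
  rw [e8]
  have e9 : c^2 * (((n.choose k : ℕ) : ℝ) * ((2*k+1)*n - k*(k+1))) ≤
      (n:ℝ)^2 * (((n.choose k : ℕ) : ℝ) * ((2*k+1)*n)) := by
    have h1 : ((n.choose k : ℕ) : ℝ) * ((2*k+1)*n - k*(k+1)) ≤ ((n.choose k : ℕ) : ℝ) * ((2*k+1)*n) := by
      refine mul_le_mul_of_nonneg_left ?_ e7
      nlinarith
    calc c^2 * (((n.choose k : ℕ) : ℝ) * ((2*k+1)*n - k*(k+1)))
        ≤ c^2 * (((n.choose k : ℕ) : ℝ) * ((2*k+1)*n)) :=
          mul_le_mul_of_nonneg_left h1 (sq_nonneg _)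
      _ ≤ _ := mul_le_mul_of_nonneg_right hc3 (by positivity)
  nlinarith [e9]

theorem cubes {ι : Type*} (s : Finset ι) (f : ι → ℝ) {N τ : ℝ} (hf0 : ∀ i ∈ s, 0 ≤ f i)
    (hfN : ∀ i ∈ s, f i ≤ N) (hτ0 : 0 ≤ τ) (hτN : τ ≤ N) (hs : ∑ i ∈ s, f i = (s.card : ℝ) * τ)
    (c : ℝ) :
    ∑ i ∈ s, (f i)^3 ≤ (s.card : ℝ) * τ^3 + 3 * N * ∑ i ∈ s, (f i - c)^2 := by
  have h1 : ∑ i ∈ s, (f i - τ)^2 ≤ ∑ i ∈ s, (f i - c)^2 := by
    have : ∑ i ∈ s, (f i - c)^2 = ∑ i ∈ s, (f i - τ)^2 + (s.card : ℝ) * (τ - c)^2 := by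
      have e : ∀ i ∈ s, (f i - c)^2 = (f i - τ)^2 + 2 * (τ - c) * (f i - τ) + (τ-c)^2 := by
        intro i _; ring
      rw [sum_congr rfl e, sum_add_distrib, sum_add_distrib, ← mul_sum, sum_sub_distrib, hs,
        sum_const, sum_const, nsmul_eq_mul, nsmul_eq_mul]
      ring
    rw [this]
    have : 0 ≤ (s.card : ℝ) * (τ - c)^2 := by positivity
    linarith
  have h2 : ∀ i ∈ s, (f i)^3 ≤ τ^3 + 3 * τ^2 * (f i - τ) + 3 * N * (f i - τ)^2 := by
    intro i hi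
    have a := hf0 i hi
    have b := hfN i hi
    have : (f i)^3 = τ^3 + 3 * τ^2 * (f i - τ) + (f i + 2*τ) * (f i - τ)^2 := by ring
    rw [this]
    have : (f i + 2*τ) * (f i - τ)^2 ≤ 3 * N * (f i - τ)^2 :=
      mul_le_mul_of_nonneg_right (by linarith) (sq_nonneg _)
    linarith
  have hN : 0 ≤ N := hτ0.trans hτN
  calc ∑ i ∈ s, (f i)^3 ≤ ∑ i ∈ s, (τ^3 + 3 * τ^2 * (f i - τ) + 3 * N * (f i - τ)^2) := sum_le_sum h2
    _ = (s.card : ℝ) * τ^3 + 3 * N * ∑ i ∈ s, (f i - τ)^2 := by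
        rw [sum_add_distrib, sum_add_distrib, ← mul_sum, sum_sub_distrib, hs, ← mul_sum,
          sum_const, sum_const, nsmul_eq_mul, nsmul_eq_mul]
        ring
    _ ≤ _ := by
        have := mul_le_mul_of_nonneg_left h1 (by positivity : 0 ≤ 3 * N)
        linarith

end Pool.Agent.Helper2.DC
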