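import Pool.Agent.Helper2.DC6

/-! The improvement for each fixed clique size. -/

namespace Pool.Agent.Helper2.DC

open Finset

set_option linter.unusedSectionVars false
set_option maxHeartbeats 1000000

variable {V : Type*} [Fintype V] [DecidableEq V]

theorem choose3 {n k : ℕ} (hn : k + 3 ≤ n) :
    ((k:ℝ)+1) * ((k:ℝ)+2) * ((k:ℝ)+3) * ((n.choose (k+3) : ℕ) : ℝ) =
      ((n:ℝ)-k) * ((n:ℝ)-k-1) * ((n:ℝ)-k-2) * ((n.choose k : ℕ) : ℝ) := by
  have h1 := Nat.choose_succ_right_eq n k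
  have h2 := Nat.choose_succ_right_eq n (k+1)
  have h3 := Nat.choose_succ_right_eq n (k+2)
  have g1 : ((n.choose (k+1) * (k+1) : ℕ) : ℝ) = ((n.choose k * (n-k) : ℕ) : ℝ) := by rw [h1]
  have g2 : ((n.choose (k+2) * (k+2) : ℕ) : ℝ) = ((n.choose (k+1) * (n-(k+1)) : ℕ) : ℝ) := by
    rw [← h2]
  have g3 : ((n.choose (k+3) * (k+3) : ℕ) : ℝ) = ((n.choose (k+2) * (n-(k+2)) : ℕ) : ℝ) := by
    rw [← h3]
  push_cast [Nat.cast_sub (show k ≤ n by omega), Nat.cast_sub (show k+1 ≤ n by omega),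
    Nat.cast_sub (show k+2 ≤ n by omega)] at g1 g2 g3
  calc ((k:ℝ)+1) * ((k:ℝ)+2) * ((k:ℝ)+3) * ((n.choose (k+3) : ℕ) : ℝ)
      = ((k:ℝ)+1) * ((k:ℝ)+2) * (((n.choose (k+3) : ℕ) : ℝ) * ((k:ℝ)+3)) := by ring
    _ = ((k:ℝ)+1) * (((n.choose (k+2) : ℕ) : ℝ) * ((k:ℝ)+2)) * ((n:ℝ) - ((k:ℝ)+2)) := by
        rw [g3]; ring
    _ = (((n.choose (k+1) : ℕ) : ℝ) * ((k:ℝ)+1)) * ((n:ℝ) - ((k:ℝ)+1)) * ((n:ℝ) - ((k:ℝ)+2)) := by
        rw [g2]; ring
    _ = _ := by rw [g1]; ring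

theorem fixed_main {H : Finset (Finset V)} {k : ℕ} (hH : ∀ e ∈ H, e.card = k+3)
    (hn : k + 3 ≤ Fintype.card V) {N K0 x v p : ℝ} (hN : N = (Fintype.card V : ℝ))
    (hK : K0 = ((Fintype.card V).choose k : ℝ))
    (hx : x = ((k:ℝ)+1) * ((k:ℝ)+2) * ((k:ℝ)+3) * (H.card : ℝ) / (K0 * N^3))
    (hv : v = ((k:ℝ)+1) * ((k:ℝ)+2) * VI H (k+2) / (K0 * N^4))
    (hp : p = ((k:ℝ)+1) * ((k:ℝ)+2) * ((k:ℝ)+3) * ((k:ℝ)+4) * ((Mid H (k+3)).card : ℝ)
      / (K0 * N^4)) :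
    x^2 ≤ x^3 + 3 * v + 3 * (2*(k:ℝ)+1) / N + Real.sqrt (5/N + 6*p) := by
  have hN0 : 0 < N := by
    rw [hN]; have : 0 < Fintype.card V := by omega
    exact_mod_cast this
  have hK0 : 0 < K0 := by rw [hK]; exact_mod_cast Nat.choose_pos (by omega)
  have hKN3 : 0 < K0 * N^3 := by positivity
  have hKN4 : 0 < K0 * N^4 := by positivity
  have hKN5 : 0 < K0 * N^5 := by positivity
  have hp0 : 0 ≤ p := by rw [hp]; positivity
  set W := ∑ Z ∈ powersetCard k (univ : Finset V), ∑ z : V, (∑ a : V, ∑ b : V, F3 H Z a b z)^2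
    with hW
  set R := ∑ Z ∈ powersetCard k (univ : Finset V), ∑ y : (V × V) × (V × V),
            (1 - GG (F3 H Z) y) * nn (F3 H Z) y with hR
  set D3 := ∑ Z ∈ powersetCard k (univ : Finset V), ∑ a : V, ∑ b : V, (∑ z : V, F3 H Z a b z)^3
    with hD3
  have hS3 : ((k:ℝ)+1) * ((k:ℝ)+2) * ((k:ℝ)+3) * (H.card : ℝ) = x * (K0 * N^3) := by
    rw [hx]; field_simp
  have hVI : ((k:ℝ)+1) * ((k:ℝ)+2) * VI H (k+2) = v * (K0 * N^4) := by
    rw [hv]; field_simp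
  have hMid : ((k:ℝ)+1) * ((k:ℝ)+2) * ((k:ℝ)+3) * ((k:ℝ)+4) * ((Mid H (k+3)).card : ℝ) =
      p * (K0 * N^4) := by
    rw [hp]; field_simp
  -- lower bound for W
  have l1 := lower hH
  rw [← hK, ← hN, hS3, ← hW] at l1
  have l2 : x^2 * (K0 * N^5) ≤ W := by
    have : (x * (K0 * N^3))^2 = (K0 * N) * (x^2 * (K0 * N^5)) := by ring
    rw [this] at l1
    exact le_of_mul_le_mul_left l1 (by positivity)
  have l3 := upper_split H k
  rw [← hW, ← hR, ← hD3] at l3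
  -- upper bound for R
  have l4 := upper_second hH
  rw [← hK, ← hN, ← hR, hMid] at l4
  have l5 : R ≤ (K0 * N^5) * Real.sqrt (5/N + 6*p) := by
    have e : (K0 * N ^ 4) * (5 * K0 * N ^ 5 + 6 * N ^ 2 * (p * (K0 * N ^ 4))) =
        (K0 * N^5)^2 * (5/N + 6*p) := by
      field_simp
    rw [e] at l4
    have h1 : R ≤ Real.sqrt ((K0 * N^5)^2 * (5/N + 6*p)) := Real.le_sqrt_of_sq_le l4
    rwa [Real.sqrt_mul (sq_nonneg _), Real.sqrt_sq hKN5.le] at h1
  -- upper bound for D3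
  obtain ⟨c, hc⟩ := variance hH hn
  rw [hVI, ← hK, ← hN] at hc
  have hx1 : x ≤ 1 := by
    rw [hx, div_le_one hKN3]
    have h1 := card_le_choose hH
    have h2 := choose3 hn
    calc ((k:ℝ)+1) * ((k:ℝ)+2) * ((k:ℝ)+3) * (H.card : ℝ)
        ≤ ((k:ℝ)+1) * ((k:ℝ)+2) * ((k:ℝ)+3) * (((Fintype.card V).choose (k+3) : ℕ) : ℝ) :=
          mul_le_mul_of_nonneg_left h1 (by positivity)
      _ = (N-k) * (N-k-1) * (N-k-2) * K0 := by rw [h2, ← hN, ← hK]
      _ ≤ N * N * N * K0 := by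
          have hk3 : (k:ℝ) + 3 ≤ N := by rw [hN]; exact_mod_cast hn
          have hk : (0:ℝ) ≤ k := by positivity
          have a1 : (N-k) * (N-k-1) ≤ N * N := mul_le_mul (by linarith) (by linarith) (by linarith) hN0.le
          have a2 : (N-k) * (N-k-1) * (N-k-2) ≤ N * N * N :=
            mul_le_mul a1 (by linarith) (by linarith) (by positivity)
          exact mul_le_mul_of_nonneg_right a2 hK0.le
      _ = K0 * N^3 := by ring
  have hx0 : 0 ≤ x := by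
    rw [hx]
    have hnum : 0 ≤ ((k:ℝ)+1) * ((k:ℝ)+2) * ((k:ℝ)+3) * (H.card : ℝ) :=
      mul_nonneg (by positivity) (Nat.cast_nonneg _)
    exact div_nonneg hnum hKN3.le
  have l6 : D3 ≤ (K0 * N^2) * (x * N)^3 + 3 * N * (v * (K0 * N^4) + (2*(k:ℝ)+1) * K0 * N^3) := by
    have e1 : D3 = ∑ i ∈ (powersetCard k (univ : Finset V)) ×ˢ (univ : Finset (V × V)),
        (∑ z : V, F3 H i.1 i.2.1 i.2.2 z)^3 := by
      rw [sum_product, hD3]
      refine sum_congr rfl (fun Z _ => ?_)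
      rw [Fintype.sum_prod_type]
    have e2 : ∑ Z ∈ powersetCard k (univ : Finset V), ∑ a : V, ∑ b : V,
        ((∑ z : V, F3 H Z a b z) - c)^2 =
        ∑ i ∈ (powersetCard k (univ : Finset V)) ×ˢ (univ : Finset (V × V)),
        ((∑ z : V, F3 H i.1 i.2.1 i.2.2 z) - c)^2 := by
      rw [sum_product]
      refine sum_congr rfl (fun Z _ => ?_)
      rw [Fintype.sum_prod_type]
    have e3 : (((powersetCard k (univ : Finset V)) ×ˢ (univ : Finset (V × V))).card : ℝ) =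
        K0 * N^2 := by
      rw [card_product, card_powersetCard, card_univ, card_univ, Fintype.card_prod, hK, hN]
      push_cast; ring
    have h := cubes ((powersetCard k (univ : Finset V)) ×ˢ (univ : Finset (V × V)))
      (fun i => ∑ z : V, F3 H i.1 i.2.1 i.2.2 z) (N := N) (τ := x * N)
      (fun i _ => sum_nonneg (fun _ _ => F3_nonneg _ _ _ _ _))
      (fun i _ => by
        rw [F3_cod, hN]; exact cod_le _ _) (by positivity)
      (by nlinarith) (by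
        rw [e3, sum_product]
        have : ∀ Z ∈ powersetCard k (univ : Finset V), ∑ y : V × V, ∑ z : V, F3 H Z y.1 y.2 z =
            ∑ z : V, ∑ a : V, ∑ b : V, F3 H Z a b z := by
          intro Z _
          rw [Fintype.sum_prod_type]
          calc ∑ a : V, ∑ b : V, ∑ z : V, F3 H Z a b z
              = ∑ a : V, ∑ z : V, ∑ b : V, F3 H Z a b z := sum_congr rfl (fun a _ => sum_comm)
            _ = _ := sum_comm
        rw [sum_congr rfl this, sum_F3 hH, hS3]; ring) c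
    rw [e3, ← e1, ← e2] at h
    have h2 : 3 * N * ∑ Z ∈ powersetCard k (univ : Finset V), ∑ a : V, ∑ b : V,
        ((∑ z : V, F3 H Z a b z) - c)^2 ≤ 3 * N * (v * (K0 * N^4) + (2*(k:ℝ)+1) * K0 * N^3) :=
      mul_le_mul_of_nonneg_left hc (by positivity)
    linarith
  -- conclusion
  have l7 : x^2 * (K0 * N^5) ≤ (x^3 + 3 * v + 3 * (2*(k:ℝ)+1) / N + Real.sqrt (5/N + 6*p)) *
      (K0 * N^5) := by
    have e : (x^3 + 3 * v + 3 * (2*(k:ℝ)+1) / N + Real.sqrt (5/N + 6*p)) * (K0 * N^5) =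
      (K0 * N^2) * (x * N)^3 + 3 * N * (v * (K0 * N^4) + (2*(k:ℝ)+1) * K0 * N^3) +
        (K0 * N^5) * Real.sqrt (5/N + 6*p) := by
      field_simp
      ring
    rw [e]; linarith
  exact le_of_mul_le_mul_right l7 hKN5


theorem fixed_rec {H : Finset (Finset V)} {k M : ℕ} (hH : ∀ e ∈ H, e.card = k+3)
    (hn : k + 3 ≤ Fintype.card V) {N K0 t v p : ℝ} (hN : N = (Fintype.card V : ℝ))
    (hK : K0 = ((Fintype.card V).choose k : ℝ))
    (ht : t = (H.card : ℝ) / ((Fintype.card V).choose (k+3) : ℝ))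
    (hv : v = ((k:ℝ)+1) * ((k:ℝ)+2) * VI H (k+2) / (K0 * N^4))
    (hp : p = ((k:ℝ)+1) * ((k:ℝ)+2) * ((k:ℝ)+3) * ((k:ℝ)+4) * ((Mid H (k+3)).card : ℝ)
      / (K0 * N^4)) (hM : k + 3 ≤ M) (hNI : NI H (M+1) = 0) (hpos : 0 < NI H (k+3)) :
    1 ≤ (M.choose (k+2) : ℝ) * (t + ((k:ℝ)+2)/N - (v + p / (((k:ℝ)+3) * ((k:ℝ)+4)))) := by
  have hN0 : 0 < N := by
    rw [hN]; have : 0 < Fintype.card V := by omega
    exact_mod_cast this
  have hK0 : 0 < K0 := by rw [hK]; exact_mod_cast Nat.choose_pos (by omega)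
  have hKN4 : 0 < K0 * N^4 := by positivity
  have h1 := one_le_choose_mul_uu (r := k+3) (by omega) hH (s := k+3) hNI (by omega) hM hpos
  have h2 := uu_succ (r := k+3) (by omega) hH (s := k+2) (by omega) hpos
  have e0 : k + 3 - 1 = k + 2 := by omega
  rw [e0] at h1
  have e1 : uu H (k+3) (k+2) = beta H (k+2) := by
    unfold uu; rw [e0, Nat.choose_self]; simp
  have e2 := beta_init_le (k := k+2) hH (by omega)
  rw [e1, e0, Nat.choose_self] at h2
  rw [show k + 2 + 1 = k + 3 from rfl, ← ht, ← hN] at e2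
  push_cast at e2 h2
  have h3 : v + p / (((k:ℝ)+3) * ((k:ℝ)+4)) ≤ (BI H (k+3) + VI H (k+2)) /
      (((k:ℝ)+2+1) * 1 * ((Fintype.card V : ℝ) * NI H (k+3))) := by
    have hden : 0 < ((k:ℝ)+2+1) * 1 * ((Fintype.card V : ℝ) * NI H (k+3)) := by
      rw [← hN]; positivity
    rw [le_div_iff₀ hden]
    have hNI2 : ((k:ℝ)+1) * ((k:ℝ)+2) * (((k:ℝ)+3) * (N * NI H (k+3))) ≤ K0 * N^4 := by
      have a1 : NI H (k+3) ≤ (((Fintype.card V).choose (k+3) : ℕ) : ℝ) := by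
        rw [NI_r hH]
        have : (0:ℝ) ≤ (H.card : ℝ) := by positivity
        linarith
      have a2 := choose3 hn
      have hk3 : (k:ℝ) + 3 ≤ N := by rw [hN]; exact_mod_cast hn
      have hk : (0:ℝ) ≤ k := by positivity
      have a3 : (N-k) * (N-k-1) ≤ N * N := mul_le_mul (by linarith) (by linarith) (by linarith) hN0.le
      have a4 : (N-k) * (N-k-1) * (N-k-2) ≤ N * N * N :=
        mul_le_mul a3 (by linarith) (by linarith) (by positivity)
      calc ((k:ℝ)+1) * ((k:ℝ)+2) * (((k:ℝ)+3) * (N * NI H (k+3)))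
          = N * (((k:ℝ)+1) * ((k:ℝ)+2) * ((k:ℝ)+3) * NI H (k+3)) := by ring
        _ ≤ N * (((k:ℝ)+1) * ((k:ℝ)+2) * ((k:ℝ)+3) * (((Fintype.card V).choose (k+3) : ℕ) : ℝ)) := by
            refine mul_le_mul_of_nonneg_left ?_ hN0.le
            exact mul_le_mul_of_nonneg_left a1 (by positivity)
        _ = N * ((N-k) * (N-k-1) * (N-k-2) * K0) := by rw [a2, hN, hK]
        _ ≤ N * (N * N * N * K0) := by
            refine mul_le_mul_of_nonneg_left ?_ hN0.le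
            exact mul_le_mul_of_nonneg_right a4 hK0.le
        _ = K0 * N^4 := by ring
    have hvp : v + p / (((k:ℝ)+3) * ((k:ℝ)+4)) =
        ((k:ℝ)+1) * ((k:ℝ)+2) * (((Mid H (k+3)).card : ℝ) + VI H (k+2)) / (K0 * N^4) := by
      rw [hv, hp]; field_simp; ring
    rw [hvp, ← hN]
    have hMB := card_Mid_le_BI hH
    have hV := VI_nonneg H (k+2)
    calc ((k:ℝ)+1) * ((k:ℝ)+2) * (((Mid H (k+3)).card : ℝ) + VI H (k+2)) / (K0 * N^4) *
          (((k:ℝ)+2+1) * 1 * (N * NI H (k+3)))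
        = (((Mid H (k+3)).card : ℝ) + VI H (k+2)) *
          (((k:ℝ)+1) * ((k:ℝ)+2) * (((k:ℝ)+3) * (N * NI H (k+3))) / (K0 * N^4)) := by
          field_simp; ring
      _ ≤ (((Mid H (k+3)).card : ℝ) + VI H (k+2)) * 1 := by
          refine mul_le_mul_of_nonneg_left ?_ (by positivity)
          rwa [div_le_one hKN4]
      _ ≤ BI H (k+3) + VI H (k+2) := by linarith
  have h4 : uu H (k+3) (k+3) ≤ t + ((k:ℝ)+2)/N - (v + p / (((k:ℝ)+3) * ((k:ℝ)+4))) := by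
    have : uu H (k+3) (k+3) = uu H (k+3) (k+2+1) := rfl
    rw [this]
    linarith
  exact h1.trans (mul_le_mul_of_nonneg_left h4 (by positivity))

end Pool.Agent.Helper2.DC
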