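import Pool.Agent.Helper2.DC2

/-! Independent sets containing, or compatible with, a given small set. -/

namespace Pool.Agent.Helper2.DC

open Finset

set_option linter.unusedSectionVars false

variable {V : Type*} [Fintype V] [DecidableEq V]

/-- number of independent `s`-sets containing `D` -/
noncomputable def cnt (H : Finset (Finset V)) (s : ℕ) (D : Finset V) : ℝ :=
  (((ind H s).filter (fun S => D ⊆ S)).card : ℝ)

/-- number of independent `s`-sets disjoint from `J` whose union with `J` is independent -/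
noncomputable def cmp (H : Finset (Finset V)) (s : ℕ) (J : Finset V) : ℝ :=
  (((ind H s).filter (fun R => Disjoint R J ∧ Ind H (R ∪ J))).card : ℝ)

/-- number of members of `E` containing `J` -/
noncomputable def dg (E : Finset (Finset V)) (J : Finset V) : ℝ :=
  ((E.filter (fun e => J ⊆ e)).card : ℝ)

theorem cnt_nonneg (H : Finset (Finset V)) (s : ℕ) (D : Finset V) : 0 ≤ cnt H s D :=
  Nat.cast_nonneg _
theorem cmp_nonneg (H : Finset (Finset V)) (s : ℕ) (D : Finset V) : 0 ≤ cmp H s D :=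
  Nat.cast_nonneg _
theorem dg_nonneg (E : Finset (Finset V)) (D : Finset V) : 0 ≤ dg E D :=
  Nat.cast_nonneg _

theorem cmp_le_NI (H : Finset (Finset V)) (s : ℕ) (J : Finset V) : cmp H s J ≤ NI H s := by
  unfold cmp NI
  exact_mod_cast card_filter_le _ _

theorem cmp_anti (H : Finset (Finset V)) (s : ℕ) {J J' : Finset V} (h : J ⊆ J') :
    cmp H s J' ≤ cmp H s J := by
  unfold cmp
  have : ((ind H s).filter (fun R => Disjoint R J' ∧ Ind H (R ∪ J'))) ⊆
      ((ind H s).filter (fun R => Disjoint R J ∧ Ind H (R ∪ J))) := by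
    intro R hR
    rw [mem_filter] at hR ⊢
    exact ⟨hR.1, hR.2.1.mono_right h, hR.2.2.mono (union_subset_union (subset_refl _) h)⟩
  exact_mod_cast card_le_card this

theorem cnt_eq_cmp (H : Finset (Finset V)) (s : ℕ) (J : Finset V) :
    cnt H (s + J.card) J = cmp H s J := by
  unfold cnt cmp
  norm_cast
  refine card_bij' (fun S _ => S \ J) (fun R _ => R ∪ J) ?_ ?_ ?_ ?_
  · intro S hS
    rw [mem_filter, mem_ind] at hS ⊢
    refine ⟨⟨?_, hS.1.2.mono sdiff_subset⟩, disjoint_sdiff.symm, ?_⟩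
    · rw [card_sdiff_of_subset hS.2, hS.1.1]; omega
    · rw [sdiff_union_of_subset hS.2]; exact hS.1.2
  · intro R hR
    rw [mem_filter, mem_ind] at hR ⊢
    refine ⟨⟨?_, hR.2.2⟩, subset_union_right⟩
    rw [card_union_of_disjoint hR.2.1, hR.1.1]
  · intro S hS
    rw [mem_filter] at hS
    exact sdiff_union_of_subset hS.2
  · intro R hR
    rw [mem_filter] at hR
    exact union_sdiff_cancel_right hR.2.1

theorem cmp_step (H : Finset (Finset V)) (s : ℕ) (J : Finset V) :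
    ((s:ℝ)+1) * cmp H (s+1) J ≤ (Fintype.card V : ℝ) * cmp H s J := by
  unfold cmp
  have h : (s+1) * ((ind H (s+1)).filter (fun R => Disjoint R J ∧ Ind H (R ∪ J))).card ≤
      Fintype.card V * ((ind H s).filter (fun R => Disjoint R J ∧ Ind H (R ∪ J))).card := by
    set A := (ind H (s+1)).filter (fun R => Disjoint R J ∧ Ind H (R ∪ J)) with hA
    set B := (ind H s).filter (fun R => Disjoint R J ∧ Ind H (R ∪ J)) with hB
    have e1 : (s+1) * A.card = (A.sigma (fun R => R)).card := by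
      rw [card_sigma, sum_congr rfl (g := fun _ => s+1), sum_const, smul_eq_mul, mul_comm]
      intro R hR
      exact (mem_ind.1 (mem_filter.1 hR).1).1
    have e2 : Fintype.card V * B.card = (B ×ˢ (univ : Finset V)).card := by
      rw [card_product, card_univ, mul_comm]
    rw [e1, e2]
    refine card_le_card_of_injOn (fun p => (p.1.erase p.2, p.2)) ?_ ?_
    · rintro ⟨R, x⟩ hp
      rw [mem_coe, mem_sigma] at hp
      obtain ⟨hR, hx⟩ := hp
      rw [mem_filter, mem_ind] at hR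
      rw [mem_coe, mem_product]
      refine ⟨?_, mem_univ _⟩
      rw [mem_filter, mem_ind]
      refine ⟨⟨?_, hR.1.2.mono (erase_subset _ _)⟩, hR.2.1.mono_left (erase_subset _ _),
        hR.2.2.mono (union_subset_union (erase_subset _ _) (subset_refl _))⟩
      simp only at hx ⊢
      rw [card_erase_of_mem hx, hR.1.1]; rfl
    · rintro ⟨R, x⟩ hp ⟨R', x'⟩ hp' heq
      rw [mem_coe, mem_sigma] at hp hp'
      simp only [Prod.mk.injEq] at heq
      obtain ⟨h1, h2⟩ := heq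
      subst h2
      simp only at hp hp'
      rw [Sigma.mk.injEq]
      refine ⟨?_, HEq.rfl⟩
      rw [← insert_erase hp.2, ← insert_erase hp'.2, h1]
  exact_mod_cast h

theorem cmp_pow (H : Finset (Finset V)) {ℓ : ℕ} (J : Finset V) {w : ℝ} (hn : 0 < Fintype.card V)
    (hw : w = (ℓ:ℝ) / (Fintype.card V : ℝ)) (d : ℕ) (hd : 2 * d ≤ ℓ) :
    (w/2)^d * cmp H ℓ J ≤ cmp H (ℓ - d) J := by
  have hn' : (0:ℝ) < (Fintype.card V : ℝ) := by exact_mod_cast hn
  have hw0 : 0 ≤ w := by rw [hw]; positivity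
  induction d with
  | zero => simp
  | succ d ih =>
    have ih' := ih (by omega)
    have hs := cmp_step H (ℓ - (d+1)) J
    have e1 : ℓ - (d+1) + 1 = ℓ - d := by omega
    rw [e1] at hs
    have h1 : w/2 * cmp H (ℓ - d) J ≤ cmp H (ℓ - (d+1)) J := by
      have h2 : (ℓ:ℝ)/2 ≤ ((ℓ - (d+1) : ℕ) : ℝ) + 1 := by
        rw [Nat.cast_sub (by omega)]
        have : 2 * ((d:ℝ)+1) ≤ ℓ := by exact_mod_cast hd
        push_cast; linarith
      have h3 : (ℓ:ℝ)/2 * cmp H (ℓ - d) J ≤ (Fintype.card V : ℝ) * cmp H (ℓ - (d+1)) J :=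
        (mul_le_mul_of_nonneg_right h2 (cmp_nonneg _ _ _)).trans hs
      have h4 : w/2 * cmp H (ℓ - d) J = ((ℓ:ℝ)/2 * cmp H (ℓ - d) J) / (Fintype.card V : ℝ) := by
        rw [hw]; ring
      rw [h4, div_le_iff₀ hn']
      linarith
    calc (w/2)^(d+1) * cmp H ℓ J = w/2 * ((w/2)^d * cmp H ℓ J) := by ring
      _ ≤ w/2 * cmp H (ℓ - d) J := mul_le_mul_of_nonneg_left ih' (by positivity)
      _ ≤ _ := h1

/-- lower bound for the number of independent sets containing `D` -/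
theorem cnt_lower (H : Finset (Finset V)) {ℓ : ℕ} (D : Finset V) {w : ℝ} (hn : 0 < Fintype.card V)
    (hw : w = (ℓ:ℝ) / (Fintype.card V : ℝ)) (hd : 2 * D.card ≤ ℓ) :
    (w/2)^D.card * cmp H ℓ D ≤ cnt H ℓ D := by
  have h := cmp_pow H D hn hw D.card hd
  have e : cnt H ℓ D = cmp H (ℓ - D.card) D := by
    rw [← cnt_eq_cmp]; congr 1; omega
  rw [e]; exact h

theorem NI_pos_of_le {H : Finset (Finset V)} {s ℓ : ℕ} (hs : s ≤ ℓ) (hpos : 0 < NI H ℓ) :
    0 < NI H s := by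
  obtain ⟨j, hj⟩ : ∃ j, ℓ = s + j := ⟨ℓ - s, by omega⟩
  induction j generalizing ℓ with
  | zero => rw [hj] at hpos; exact hpos
  | succ j ihj =>
    rw [hj] at hpos
    exact ihj (ℓ := s + j) (by omega) (ind_nonempty_of_succ hpos).1 rfl

theorem NI_pow {H : Finset (Finset V)} {ℓ m : ℕ} {w B : ℝ} (hn : 0 < Fintype.card V)
    (hw : w = (ℓ:ℝ) / (Fintype.card V : ℝ)) (hpos : 0 < NI H ℓ) (hB0 : 0 ≤ B)
    (hB : ∀ s, m ≤ s → s < ℓ → beta H s ≤ B) (d : ℕ) (hd : m + d ≤ ℓ) (hdB : (d:ℝ) * B ≤ 1/2) :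
    (1 - (d:ℝ) * B) * NI H (ℓ - d) ≤ w^d * NI H ℓ := by
  have hn' : (0:ℝ) < (Fintype.card V : ℝ) := by exact_mod_cast hn
  have hw0 : 0 ≤ w := by rw [hw]; positivity
  induction d with
  | zero => simp
  | succ d ih =>
    have hdB' : (d:ℝ) * B ≤ 1/2 := by
      push_cast at hdB; nlinarith
    have ih' := ih (by omega) hdB'
    have e1 : ℓ - (d+1) + 1 = ℓ - d := by omega
    have hp1 : 0 < NI H (ℓ - (d+1)) := NI_pos_of_le (by omega) hpos
    have hb := beta_eq hp1 hn'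
    rw [e1] at hb
    have hbB := hB (ℓ - (d+1)) (by omega) (by omega)
    -- n * NI (ℓ-(d+1)) * (1 - B) ≤ (ℓ - d) NI (ℓ - d) ≤ ℓ NI(ℓ - d)
    have h1 : (1 - B) * NI H (ℓ - (d+1)) ≤ w * NI H (ℓ - d) := by
      have h2 : (Fintype.card V : ℝ) * NI H (ℓ - (d+1)) * (1 - B) ≤
          (Fintype.card V : ℝ) * NI H (ℓ - (d+1)) * (1 - beta H (ℓ - (d+1))) :=
        mul_le_mul_of_nonneg_left (by linarith) (by positivity)
      have h3 : (((ℓ - (d+1) : ℕ) : ℝ) + 1) * NI H (ℓ - d) ≤ (ℓ:ℝ) * NI H (ℓ - d) := by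
        refine mul_le_mul_of_nonneg_right ?_ (NI_nonneg _ _)
        have : (((ℓ - (d+1) : ℕ) : ℝ) + 1) = (ℓ:ℝ) - d := by
          rw [Nat.cast_sub (by omega)]; push_cast; ring
        rw [this]
        have : (0:ℝ) ≤ d := by positivity
        linarith
      have h4 : w * NI H (ℓ - d) = ((ℓ:ℝ) * NI H (ℓ - d)) / (Fintype.card V : ℝ) := by
        rw [hw]; ring
      rw [h4, le_div_iff₀ hn']
      calc (1 - B) * NI H (ℓ - (d+1)) * (Fintype.card V : ℝ)
          = (Fintype.card V : ℝ) * NI H (ℓ - (d+1)) * (1 - B) := by ring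
        _ ≤ _ := h2
        _ = _ := hb.symm
        _ ≤ _ := h3
    have hdB0 : (0:ℝ) ≤ (d:ℝ) * B := by positivity
    have h5 : (1 - ((d+1 : ℕ):ℝ) * B) ≤ (1 - (d:ℝ)*B) * (1 - B) := by
      push_cast; nlinarith
    calc (1 - ((d+1 : ℕ):ℝ) * B) * NI H (ℓ - (d+1))
        ≤ ((1 - (d:ℝ)*B) * (1 - B)) * NI H (ℓ - (d+1)) :=
          mul_le_mul_of_nonneg_right h5 (NI_nonneg _ _)
      _ = (1 - (d:ℝ)*B) * ((1 - B) * NI H (ℓ - (d+1))) := by ring
      _ ≤ (1 - (d:ℝ)*B) * (w * NI H (ℓ - d)) := mul_le_mul_of_nonneg_left h1 (by linarith)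
      _ = w * ((1 - (d:ℝ)*B) * NI H (ℓ - d)) := by ring
      _ ≤ w * (w^d * NI H ℓ) := mul_le_mul_of_nonneg_left ih' hw0
      _ = w^(d+1) * NI H ℓ := by ring

/-- upper bound for the number of independent sets containing `D` -/
theorem cnt_upper {H : Finset (Finset V)} {ℓ m : ℕ} {w B : ℝ} (hn : 0 < Fintype.card V)
    (hw : w = (ℓ:ℝ) / (Fintype.card V : ℝ)) (hpos : 0 < NI H ℓ) (hB0 : 0 ≤ B)
    (hB : ∀ s, m ≤ s → s < ℓ → beta H s ≤ B) (D : Finset V) (hd : m + D.card ≤ ℓ)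
    (hdB : (D.card:ℝ) * B ≤ 1/2) :
    cnt H ℓ D ≤ 2 * w^D.card * NI H ℓ := by
  have h1 := NI_pow hn hw hpos hB0 hB D.card hd hdB
  have e : cnt H ℓ D = cmp H (ℓ - D.card) D := by
    rw [← cnt_eq_cmp]; congr 1; omega
  have h2 := cmp_le_NI H (ℓ - D.card) D
  have h3 := NI_nonneg H (ℓ - D.card)
  rw [e]
  nlinarith

end Pool.Agent.Helper2.DC
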